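import Pool.Agent.Helper96.TwoFactor.Euler

namespace Pool.Agent.Helper96.TwoFactor

open SimpleGraph

variable {V : Type} {G : SimpleGraph V}

/-- Euler inequality for bipartite quotients of an embedded graph. -/
theorem bipartite_bound [Finite V] (hconn : G.Connected) {rot : Equiv.Perm G.Dart}
    (hrot : IsRotation G rot) (tw : Sym2 V → Bool) {I : Type} [Finite I] (β : V → I)
    (hsurj : Function.Surjective β) (hfib : ∀ u v, β u = β v → (fib G β).Reachable u v)
    (side : I → Bool) (P : Finset (I × I))
    (hP : ∀ p ∈ P, side p.1 = true ∧ side p.2 = false ∧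
      ∃ u v, G.Adj u v ∧ β u = p.1 ∧ β v = p.2)
    (h2 : 2 ≤ P.card) :
    (P.card : ℤ) + 2 * ((Nat.card V : ℤ) - (Nat.card G.edgeSet : ℤ) +
      (Nat.card (Quot (SameFace G rot tw)) : ℤ)) ≤ 2 * (Nat.card I : ℤ) := by
  classical
  have := Fintype.ofFinite V
  have := Fintype.ofFinite I
  have hFD : Fintype G.Dart := Fintype.ofFinite _
  have hFE : Fintype G.edgeSet := Fintype.ofFinite _
  -- representatives
  have hrep : ∀ p : I × I, p ∈ P → ∃ d : G.Dart, β d.fst = p.1 ∧ β d.snd = p.2 := by
    intro p hp
    obtain ⟨-, -, u, v, huv, hu, hv⟩ := hP p hp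
    exact ⟨⟨(u, v), huv⟩, hu, hv⟩
  have hnd : Nonempty G.Dart := by
    have : 0 < P.card := by omega
    obtain ⟨p, hp⟩ := Finset.card_pos.1 this
    obtain ⟨d, -⟩ := hrep p hp
    exact ⟨d⟩
  choose! rep hrep1 hrep2 using hrep
  choose root hroot using hsurj
  have hpar : ∀ v : V, v ≠ root (β v) → ∃ d : G.Dart, d.fst = v ∧ β d.snd = β v ∧
      (fib G β).dist d.snd (root (β v)) < (fib G β).dist v (root (β v)) := by
    intro v hv
    exact exists_parent β hv (hfib _ _ (by rw [hroot]))
  choose! par hpar1 hpar2 hpar3 using hpar
  set NR : Finset V := Finset.univ.filter (fun v => v ≠ root (β v)) with hNR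
  have hmemNR : ∀ v, v ∈ NR ↔ v ≠ root (β v) := by intro v; simp [hNR]
  set Kp : Finset (Sym2 V) := P.image (fun p => (rep p).edge) with hKp
  set Kf : Finset (Sym2 V) := NR.image (fun v => (par v).edge) with hKf
  have rep_inj : ∀ p ∈ P, ∀ p' ∈ P, (rep p).edge = (rep p').edge → p = p' := by
    intro p hp p' hp' h
    rw [dart_edge_eq_iff] at h
    rcases h with h | h
    · apply Prod.ext
      · rw [← hrep1 p hp, ← hrep1 p' hp', h]
      · rw [← hrep2 p hp, ← hrep2 p' hp', h]
    · exfalso
      have a1 : side p.1 = side p'.2 := by
        rw [← hrep1 p hp, ← hrep2 p' hp', h]; rfl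
      rw [(hP p hp).1, (hP p' hp').2.1] at a1
      exact absurd a1 (by decide)
  have cKp : Kp.card = P.card := by
    rw [hKp, Finset.card_image_of_injOn]
    intro p hp p' hp' h
    exact rep_inj p hp p' hp' h
  have cKf : Kf.card = NR.card := by
    rw [hKf, Finset.card_image_of_injOn]
    intro v hv v' hv' h
    have hv1 : v ≠ root (β v) := (hmemNR v).1 hv
    have hv1' : v' ≠ root (β v') := (hmemNR v').1 hv'
    simp only at h
    rw [dart_edge_eq_iff] at h
    rcases h with h | h
    · rw [← hpar1 v hv1, ← hpar1 v' hv1', h]
    · exfalso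
      have a1 : (par v).snd = v' := by rw [h]; exact hpar1 v' hv1'
      have a2 : (par v').snd = v := by
        rw [← Dart.symm_symm (par v'), ← h]
        exact hpar1 v hv1
      have b1 := hpar3 v hv1
      have b2 := hpar3 v' hv1'
      rw [a1] at b1
      rw [a2] at b2
      have b3 : β v' = β v := by rw [← a1]; exact hpar2 v hv1
      rw [b3] at b2
      omega
  have cNR : NR.card + Fintype.card I = Fintype.card V := by
    have h1 : (Finset.univ.filter (fun v => v = root (β v))).card = Fintype.card I := by
      rw [← Finset.card_univ (α := I)]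
      symm
      apply Finset.card_bij (fun i _ => root i)
      · intro i _
        simp [hroot]
      · intro i _ j _ h
        rw [← hroot i, ← hroot j, h]
      · intro v hv
        simp only [Finset.mem_filter, Finset.mem_univ, true_and] at hv
        exact ⟨β v, Finset.mem_univ _, hv.symm⟩
    have h3 := Finset.card_filter_add_card_filter_not (s := (Finset.univ : Finset V))
      (fun v => v = root (β v))
    rw [Finset.card_univ] at h3
    have h4 : NR = Finset.univ.filter (fun v => ¬ (v = root (β v))) := rfl
    rw [h4]
    omega
  have hdisj : Disjoint Kp Kf := by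
    rw [Finset.disjoint_left]
    intro e he he'
    rw [hKp, Finset.mem_image] at he
    rw [hKf, Finset.mem_image] at he'
    obtain ⟨p, hp, rfl⟩ := he
    obtain ⟨v, hv, h⟩ := he'
    have hv1 := (hmemNR v).1 hv
    have h5 : β (par v).fst = β (par v).snd := by rw [hpar1 v hv1, hpar2 v hv1]
    have h6 : side (β (rep p).fst) ≠ side (β (rep p).snd) := by
      rw [hrep1 p hp, hrep2 p hp, (hP p hp).1, (hP p hp).2.1]; decide
    rw [dart_edge_eq_iff] at h
    rcases h with h | h
    · rw [h] at h5
      exact h6 (by rw [h5])
    · rw [h] at h5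
      exact h6 (by
        have : β (rep p).snd = β (rep p).fst := h5
        rw [this])
  set K : Finset (Sym2 V) := Kp ∪ Kf with hK
  have cK : K.card = P.card + NR.card := by
    rw [hK, Finset.card_union_of_disjoint hdisj, cKp, cKf]
  have hKE : K ⊆ G.edgeFinset := by
    intro e he
    rw [hK, Finset.mem_union, hKp, hKf, Finset.mem_image, Finset.mem_image] at he
    rw [mem_edgeFinset]
    rcases he with ⟨p, _, rfl⟩ | ⟨v, _, rfl⟩
    · exact (rep p).edge_mem
    · exact (par v).edge_mem
  set D : Finset (Sym2 V) := G.edgeFinset \ K with hD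
  have cD : D.card + (P.card + NR.card) = Nat.card G.edgeSet := by
    rw [hD, ← cK, Finset.card_sdiff_add_card_eq_card hKE, Nat.card_eq_fintype_card,
      ← edgeFinset_card]
  have hdart : ∀ e : Sym2 V, e ∈ G.edgeSet → ∃ d : G.Dart, d.edge = e := by
    intro e
    induction e using Sym2.ind with
    | _ x y => intro h; exact ⟨⟨(x, y), h⟩, rfl⟩
  choose! dt hdt using hdart
  set r : G.Dart × Bool → G.Dart × Bool → Prop := SameFace G rot tw with hr
  set r' : G.Dart × Bool → G.Dart × Bool → Prop :=
    fun x y => r x y ∨ ∃ e ∈ D, x = (dt e, true) ∧ y = (dt e, false) with hr'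
  have hmerge : Nat.card (Quot r) ≤ Nat.card (Quot r') + D.card :=
    card_quot_le_finset r (fun e => (dt e, true)) (fun e => (dt e, false)) D
  have hFQ : Fintype (Quot r') := Fintype.ofFinite _
  -- basic facts on classes
  let cls : Quot r' → G.Dart × Bool → Prop := fun q x => Quot.mk r' x = q
  have hcorner : ∀ q d, cls q (d, true) ↔ cls q (rot d, false) := by
    intro q d
    have : Quot.mk r' (d, true) = Quot.mk r' (rot d, false) :=
      Quot.sound (Or.inl (SameFace.corner d))
    simp only [cls, this]
  have halong : ∀ q d b, cls q (d, b) ↔ cls q (d.symm, xor (!b) (tw d.edge)) := by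
    intro q d b
    have : Quot.mk r' (d, b) = Quot.mk r' (d.symm, xor (!b) (tw d.edge)) :=
      Quot.sound (Or.inl (SameFace.along d b))
    simp only [cls, this]
  let B : Quot r' → Finset G.Dart := fun q =>
    Finset.univ.filter (fun d => ¬ (cls q (d, true) ↔ cls q (d, false)))
  have memB : ∀ q d, d ∈ B q ↔ ¬ (cls q (d, true) ↔ cls q (d, false)) := by
    intro q d; simp [B]
  have Bsymm : ∀ q d, d ∈ B q ↔ d.symm ∈ B q := by
    intro q d
    rw [memB, memB, halong q d true, halong q d false]
    cases tw d.edge
    · simp only [Bool.not_true, Bool.not_false, Bool.xor_false]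
      tauto
    · simp only [Bool.not_true, Bool.not_false, Bool.xor_true]
  have BK : ∀ q d, d ∈ B q → d.edge ∈ K := by
    intro q d hd
    by_contra hcon
    have hdD : d.edge ∈ D := by
      rw [hD, Finset.mem_sdiff, mem_edgeFinset]
      exact ⟨d.edge_mem, hcon⟩
    have h1 : (dt d.edge) ∉ B q := by
      rw [memB, not_not]
      have : Quot.mk r' (dt d.edge, true) = Quot.mk r' (dt d.edge, false) :=
        Quot.sound (Or.inr ⟨d.edge, hdD, rfl, rfl⟩)
      simp only [cls, this]
    have h2 : (dt d.edge).edge = d.edge := hdt _ d.edge_mem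
    rw [dart_edge_eq_iff] at h2
    rcases h2 with h2 | h2
    · rw [h2] at h1; exact h1 hd
    · rw [h2, ← Bsymm] at h1; exact h1 hd
  have Beven : ∀ q v, Even ((B q).filter (fun d => d.fst = v)).card := by
    intro q v
    have := even_side hrot (fun d => cls q (d, true)) (fun d => cls q (d, false)) (hcorner q) v
    have h1 : ((B q).filter (fun d => d.fst = v)) =
        Finset.univ.filter (fun d : G.Dart => d.fst = v ∧
          ¬ (cls q (d, true) ↔ cls q (d, false))) := by
      ext d
      simp only [Finset.mem_filter, memB, Finset.mem_univ, true_and]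
      tauto
    rw [h1]
    exact this
  -- fibres
  have Beven_fib : ∀ q i, Even ((B q).filter (fun d => β d.fst = i)).card := by
    intro q i
    have h1 : ((B q).filter (fun d => β d.fst = i)).card =
        ∑ v ∈ Finset.univ.filter (fun v => β v = i), ((B q).filter (fun d => d.fst = v)).card := by
      rw [Finset.card_eq_sum_card_fiberwise (f := fun d : G.Dart => d.fst)
        (t := Finset.univ.filter (fun v => β v = i))]
      · apply Finset.sum_congr rfl
        intro v hv
        simp only [Finset.mem_filter, Finset.mem_univ, true_and] at hv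
        congr 1
        ext d
        simp only [Finset.mem_filter]
        constructor
        · rintro ⟨⟨a, _⟩, b⟩; exact ⟨a, b⟩
        · rintro ⟨a, b⟩; exact ⟨⟨a, by rw [b]; exact hv⟩, b⟩
      · intro d hd
        simp only [Finset.coe_filter, Set.mem_ofPred_eq] at hd
        simp only [Finset.coe_filter, Finset.mem_univ, true_and, Set.mem_ofPred_eq]
        exact hd.2
    rw [h1]
    exact Finset.even_sum _ (fun v _ => Beven q v)
  have Bout : ∀ q i, Even ((B q).filter (fun d => β d.fst = i ∧ β d.snd ≠ i)).card := by
    intro q i
    have h1 : Even ((B q).filter (fun d => β d.fst = i ∧ β d.snd = i)).card := by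
      apply even_card_of_involution _ Dart.symm
      · intro d hd
        rw [Finset.mem_filter] at hd ⊢
        exact ⟨(Bsymm q d).1 hd.1, hd.2.2, hd.2.1⟩
      · intro d _; exact d.symm_symm
      · intro d _; exact d.symm_ne
    have h3 : ((B q).filter (fun d => β d.fst = i)).card =
        ((B q).filter (fun d => β d.fst = i ∧ β d.snd = i)).card +
        ((B q).filter (fun d => β d.fst = i ∧ β d.snd ≠ i)).card :=
      card_split' (B q) (fun d => β d.fst = i) (fun d => β d.snd = i)
    have h4 := Beven_fib q i
    rw [h3] at h4
    exact (Nat.even_add.1 h4).1 h1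
  -- the kept pairs in the boundary
  let PQ : Quot r' → Finset (I × I) := fun q => P.filter (fun p => rep p ∈ B q)
  have memPQ : ∀ q p, p ∈ PQ q ↔ p ∈ P ∧ rep p ∈ B q := by intro q p; simp [PQ]
  have outcase : ∀ q d, d ∈ B q → β d.snd ≠ β d.fst →
      ∃ p ∈ PQ q, d = rep p ∨ d = (rep p).symm := by
    intro q d hd hne
    have h1 := BK q d hd
    rw [hK, Finset.mem_union] at h1
    rcases h1 with h1 | h1
    · rw [hKp, Finset.mem_image] at h1
      obtain ⟨p, hp, hpe⟩ := h1
      rw [dart_edge_eq_iff] at hpe
      refine ⟨p, ?_, ?_⟩
      · rw [memPQ]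
        refine ⟨hp, ?_⟩
        rcases hpe with h | h
        · rw [h]; exact hd
        · rw [h, ← Bsymm]; exact hd
      · rcases hpe with h | h
        · exact Or.inl h.symm
        · right; rw [h, Dart.symm_symm]
    · exfalso
      rw [hKf, Finset.mem_image] at h1
      obtain ⟨v, hv, hve⟩ := h1
      have hv1 := (hmemNR v).1 hv
      have h5 : β (par v).fst = β (par v).snd := by rw [hpar1 v hv1, hpar2 v hv1]
      rw [dart_edge_eq_iff] at hve
      rcases hve with h | h
      · rw [h] at h5; exact hne h5.symm
      · rw [h] at h5
        exact hne (by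
          have : β d.snd = β d.fst := h5
          exact this)
  have rowEven : ∀ q, ∀ p0 ∈ PQ q, Even ((PQ q).filter (fun x => x.1 = p0.1)).card := by
    intro q p0 hp0
    have hs : side p0.1 = true := (hP p0 ((memPQ q p0).1 hp0).1).1
    have h1 : ((PQ q).filter (fun x => x.1 = p0.1)).card =
        ((B q).filter (fun d => β d.fst = p0.1 ∧ β d.snd ≠ p0.1)).card := by
      apply Finset.card_bij (fun p _ => rep p)
      · intro p hp
        rw [Finset.mem_filter, memPQ] at hp
        rw [Finset.mem_filter]
        refine ⟨hp.1.2, ?_, ?_⟩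
        · rw [hrep1 p hp.1.1]; exact hp.2
        · rw [hrep2 p hp.1.1]
          intro h
          have := (hP p hp.1.1).2.1
          rw [h, hs] at this
          exact absurd this (by decide)
      · intro p hp p' hp' h
        rw [Finset.mem_filter, memPQ] at hp hp'
        exact rep_inj p hp.1.1 p' hp'.1.1 (by rw [h])
      · intro d hd
        rw [Finset.mem_filter] at hd
        obtain ⟨p, hp, hpd⟩ := outcase q d hd.1 (by rw [hd.2.1]; exact hd.2.2)
        have hpP := ((memPQ q p).1 hp).1
        rcases hpd with rfl | rfl
        · refine ⟨p, ?_, rfl⟩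
          rw [Finset.mem_filter]
          exact ⟨hp, by rw [← hrep1 p hpP]; exact hd.2.1⟩
        · exfalso
          have h7 : β (rep p).snd = p0.1 := hd.2.1
          rw [hrep2 p hpP] at h7
          have := (hP p hpP).2.1
          rw [h7, hs] at this
          exact absurd this (by decide)
    rw [h1]
    exact Bout q p0.1
  have colEven : ∀ q, ∀ p0 ∈ PQ q, Even ((PQ q).filter (fun x => x.2 = p0.2)).card := by
    intro q p0 hp0
    have hs : side p0.2 = false := (hP p0 ((memPQ q p0).1 hp0).1).2.1
    have h1 : ((PQ q).filter (fun x => x.2 = p0.2)).card =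
        ((B q).filter (fun d => β d.fst = p0.2 ∧ β d.snd ≠ p0.2)).card := by
      apply Finset.card_bij (fun p _ => (rep p).symm)
      · intro p hp
        rw [Finset.mem_filter, memPQ] at hp
        rw [Finset.mem_filter]
        refine ⟨(Bsymm q _).1 hp.1.2, ?_, ?_⟩
        · change β (rep p).snd = _
          rw [hrep2 p hp.1.1]; exact hp.2
        · change β (rep p).fst ≠ _
          rw [hrep1 p hp.1.1]
          intro h
          have := (hP p hp.1.1).1
          rw [h, hs] at this
          exact absurd this (by decide)
      · intro p hp p' hp' h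
        rw [Finset.mem_filter, memPQ] at hp hp'
        have h8 : rep p = rep p' := by
          rw [← Dart.symm_symm (rep p), h, Dart.symm_symm]
        exact rep_inj p hp.1.1 p' hp'.1.1 (by rw [h8])
      · intro d hd
        rw [Finset.mem_filter] at hd
        obtain ⟨p, hp, hpd⟩ := outcase q d hd.1 (by rw [hd.2.1]; exact hd.2.2)
        have hpP := ((memPQ q p).1 hp).1
        rcases hpd with rfl | rfl
        · exfalso
          have h7 : β (rep p).fst = p0.2 := hd.2.1
          rw [hrep1 p hpP] at h7
          have := (hP p hpP).1
          rw [h7, hs] at this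
          exact absurd this (by decide)
        · refine ⟨p, ?_, rfl⟩
          rw [Finset.mem_filter]
          refine ⟨hp, ?_⟩
          have h7 : β (rep p).snd = p0.2 := hd.2.1
          rw [← hrep2 p hpP]; exact h7
    rw [h1]
    exact Bout q p0.2
  have hfour : ∀ q, (PQ q).Nonempty → 4 ≤ (PQ q).card := fun q hne =>
    four_le_card (PQ q) hne (rowEven q) (colEven q)
  -- empty boundary means a single class
  have hone : ∀ q, ¬ (PQ q).Nonempty → ∀ x, cls q x := by
    intro q hq
    rw [Finset.not_nonempty_iff_eq_empty] at hq
    have hBf : ∀ d ∈ B q, ∃ v, v ≠ root (β v) ∧ par v ∈ B q ∧ (d = par v ∨ d = (par v).symm) := by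
      intro d hd
      have h1 := BK q d hd
      rw [hK, Finset.mem_union] at h1
      rcases h1 with h1 | h1
      · exfalso
        rw [hKp, Finset.mem_image] at h1
        obtain ⟨p, hp, hpe⟩ := h1
        rw [dart_edge_eq_iff] at hpe
        have : p ∈ PQ q := by
          rw [memPQ]
          refine ⟨hp, ?_⟩
          rcases hpe with h | h
          · rw [h]; exact hd
          · rw [h, ← Bsymm]; exact hd
        rw [hq] at this
        simp at this
      · rw [hKf, Finset.mem_image] at h1
        obtain ⟨v, hv, hve⟩ := h1
        rw [dart_edge_eq_iff] at hve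
        refine ⟨v, (hmemNR v).1 hv, ?_, ?_⟩
        · rcases hve with h | h
          · rw [h]; exact hd
          · rw [h, ← Bsymm]; exact hd
        · rcases hve with h | h
          · exact Or.inl h.symm
          · right; rw [h, Dart.symm_symm]
    have hBempty : B q = ∅ := by
      by_contra hne
      obtain ⟨d0, hd0⟩ := Finset.nonempty_iff_ne_empty.2 hne
      obtain ⟨v0, hv0, hv0B, -⟩ := hBf d0 hd0
      obtain ⟨v, hv, hmax⟩ := Finset.exists_max_image
        (Finset.univ.filter (fun v => v ≠ root (β v) ∧ par v ∈ B q))
        (fun v => (fib G β).dist v (root (β v))) ⟨v0, by simp [hv0, hv0B]⟩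
      simp only [Finset.mem_filter, Finset.mem_univ, true_and] at hv hmax
      have h1 : (B q).filter (fun d => d.fst = v) = {par v} := by
        ext d
        rw [Finset.mem_filter, Finset.mem_singleton]
        constructor
        · rintro ⟨hd, hdv⟩
          obtain ⟨w, hw, hwB, hdw⟩ := hBf d hd
          rcases hdw with rfl | rfl
          · rw [hpar1 w hw] at hdv
            rw [hdv]
          · exfalso
            have hdv' : (par w).snd = v := hdv
            have h3 := hpar3 w hw
            have h4 := hpar2 w hw
            have h5 := hmax w ⟨hw, hwB⟩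
            rw [hdv'] at h3 h4
            rw [h4] at h5
            omega
        · rintro rfl
          exact ⟨hv.2, hpar1 v hv.1⟩
      have h2 := Beven q v
      rw [h1, Finset.card_singleton] at h2
      exact absurd h2 (by decide)
    have hflip : ∀ d, cls q (d, true) ↔ cls q (d, false) := by
      intro d
      have : d ∉ B q := by rw [hBempty]; simp
      rw [memB, not_not] at this
      exact this
    have hpow : ∀ (n : ℕ) d, cls q (d, true) → cls q ((rot ^ n) d, true) := by
      intro n
      induction n with
      | zero => intro d h; simpa using h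
      | succ n ih =>
        intro d h
        rw [pow_succ', Equiv.Perm.mul_apply]
        rw [hflip, ← hcorner]
        exact ih d h
    have hvert : ∀ d e : G.Dart, d.fst = e.fst → cls q (d, true) → cls q (e, true) := by
      intro d e hde h
      obtain ⟨n, hn⟩ := (hrot.2 d e hde).exists_nat_pow_eq
      rw [← hn]
      exact hpow n d h
    have hadj : ∀ d : G.Dart, cls q (d, true) → cls q (d.symm, true) := by
      intro d h
      rw [halong] at h
      cases hb : xor (!true) (tw d.edge)
      · rw [hb] at h; rw [hflip]; exact h
      · rw [hb] at h; exact h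
    -- pick a starting flag
    obtain ⟨⟨d0, b0⟩, hx0⟩ := Quot.exists_rep q
    have h0 : cls q (d0, true) := by
      have : cls q (d0, b0) := hx0
      cases b0
      · rw [hflip]; exact this
      · exact this
    have hall : ∀ v : V, ∀ d : G.Dart, d.fst = v → cls q (d, true) := by
      intro v
      obtain ⟨p⟩ := hconn.preconnected d0.fst v
      have key : ∀ a b : V, G.Walk a b → (∀ d : G.Dart, d.fst = a → cls q (d, true)) →
          ∀ d : G.Dart, d.fst = b → cls q (d, true) := by
        intro a b w
        induction w with
        | nil => exact id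
        | @cons a b c hab w ih =>
          intro ha
          apply ih
          intro d hd
          have h1 := ha ⟨(a, b), hab⟩ rfl
          have h2 := hadj _ h1
          exact hvert _ d hd.symm h2
      exact key _ _ p (fun d hd => hvert d0 d hd.symm h0)
    rintro ⟨d, b⟩
    have := hall d.fst d rfl
    cases b
    · rw [← hflip]; exact this
    · exact this
  -- double counting
  have hsum : ∑ q : Quot r', (PQ q).card ≤ 2 * P.card := by
    have h1 : ∑ q : Quot r', (PQ q).card =
        ∑ p ∈ P, (Finset.univ.filter (fun q : Quot r' => rep p ∈ B q)).card := by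
      simp only [PQ, Finset.card_filter]
      rw [Finset.sum_comm]
    rw [h1]
    have h3 : ∀ p ∈ P, (Finset.univ.filter (fun q : Quot r' => rep p ∈ B q)).card ≤ 2 := by
      intro p _
      have h4 : Finset.univ.filter (fun q : Quot r' => rep p ∈ B q) ⊆
          {Quot.mk r' (rep p, true), Quot.mk r' (rep p, false)} := by
        intro q hq
        simp only [Finset.mem_filter, Finset.mem_univ, true_and] at hq
        rw [memB] at hq
        simp only [Finset.mem_insert, Finset.mem_singleton]
        by_contra hcon
        push Not at hcon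
        apply hq
        simp only [cls]
        constructor
        · intro h; exact absurd h.symm hcon.1
        · intro h; exact absurd h.symm hcon.2
      exact (Finset.card_le_card h4).trans Finset.card_le_two
    calc ∑ p ∈ P, (Finset.univ.filter (fun q : Quot r' => rep p ∈ B q)).card
        ≤ ∑ p ∈ P, 2 := Finset.sum_le_sum h3
      _ = 2 * P.card := by rw [Finset.sum_const, smul_eq_mul, mul_comm]
  have hfinal : 2 * Nat.card (Quot r') ≤ P.card := by
    by_cases hall : ∀ q, (PQ q).Nonempty
    · have h1 : ∑ q : Quot r', 4 ≤ ∑ q : Quot r', (PQ q).card :=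
        Finset.sum_le_sum (fun q _ => hfour q (hall q))
      rw [Finset.sum_const, smul_eq_mul, Finset.card_univ] at h1
      rw [Nat.card_eq_fintype_card]
      omega
    · push Not at hall
      obtain ⟨q, hq⟩ := hall
      have h1 := hone q (by rw [Finset.not_nonempty_iff_eq_empty]; exact hq)
      have h3 : Nat.card (Quot r') ≤ 1 := by
        rw [Finite.card_le_one_iff_subsingleton]
        constructor
        intro a b
        obtain ⟨x, rfl⟩ := Quot.exists_rep a
        obtain ⟨y, rfl⟩ := Quot.exists_rep b
        have e1 : Quot.mk r' x = q := h1 x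
        have e2 : Quot.mk r' y = q := h1 y
        rw [e1, e2]
      omega
  have e1 : Nat.card V = Fintype.card V := Nat.card_eq_fintype_card
  have e2 : Nat.card I = Fintype.card I := Nat.card_eq_fintype_card
  omega

end Pool.Agent.Helper96.TwoFactor
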