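import Mathlib

namespace Pool.Agent.Helper96.TwoFactor

open SimpleGraph

variable {V : Type}

/-- A rotation system of `G`: a permutation of the darts of `G` whose cycles are exactly the
sets of darts leaving a vertex (a cyclic order of the edges at every vertex). -/
def IsRotation (G : SimpleGraph V) (rot : Equiv.Perm G.Dart) : Prop :=
  (∀ d : G.Dart, (rot d).fst = d.fst) ∧
    ∀ d e : G.Dart, d.fst = e.fst → rot.SameCycle d e

/-- Sides of darts: `(d, true)` is the side of `d` facing the dart `rot d`, and `(d, false)` is the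
side facing `rot⁻¹ d`.  Two sides lie on one face if they meet in a corner, or if they are the
same side of one edge seen from its two ends; `tw` tells which edges are twisted
(signature `-1`). -/
inductive SameFace (G : SimpleGraph V) (rot : Equiv.Perm G.Dart) (tw : Sym2 V → Bool) :
    G.Dart × Bool → G.Dart × Bool → Prop
  | corner (d : G.Dart) : SameFace G rot tw (d, true) (rot d, false)
  | along (d : G.Dart) (b : Bool) : SameFace G rot tw (d, b) (d.symm, xor (!b) (tw d.edge))

/-- The number of faces of the embedding given by `rot` and `tw`. -/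
noncomputable def numFaces (G : SimpleGraph V) (rot : Equiv.Perm G.Dart) (tw : Sym2 V → Bool) :
    ℕ :=
  Nat.card (Quot (SameFace G rot tw)) + Nat.card {v : V // ∀ w, ¬ G.Adj v w}

/-- The Euler genus `2 c - (V - E + F)` of the embedding, `c` the number of components. -/
noncomputable def eulerGenus (G : SimpleGraph V) (rot : Equiv.Perm G.Dart) (tw : Sym2 V → Bool) :
    ℤ :=
  2 * (Nat.card G.ConnectedComponent : ℤ) -
    ((Nat.card V : ℤ) - (Nat.card G.edgeSet : ℤ) + (numFaces G rot tw : ℤ))

/-- `G` embeds in the orientable surface of genus `h`. -/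
def EmbedsOrientable (G : SimpleGraph V) (h : ℕ) : Prop :=
  ∃ rot : Equiv.Perm G.Dart, IsRotation G rot ∧ eulerGenus G rot (fun _ => false) ≤ 2 * (h : ℤ)

/-- `G` embeds in the nonorientable surface of genus `k`. -/
def EmbedsNonorientable (G : SimpleGraph V) (k : ℕ) : Prop :=
  (∃ (rot : Equiv.Perm G.Dart) (tw : Sym2 V → Bool), IsRotation G rot ∧
      (¬ ∃ o : V → Bool, ∀ d : G.Dart, tw d.edge = xor (o d.fst) (o d.snd)) ∧
      eulerGenus G rot tw ≤ (k : ℤ)) ∨
    ∃ rot : Equiv.Perm G.Dart, IsRotation G rot ∧ eulerGenus G rot (fun _ => false) < (k : ℤ)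

/-- `k`-connected. -/
def KConnected (G : SimpleGraph V) (k : ℕ) : Prop :=
  k < Nat.card V ∧ ∀ S : Set V, S.ncard < k → (G.induce Sᶜ).Connected

/-- `G` has a 2-factor. -/
def HasTwoFactor (G : SimpleGraph V) : Prop :=
  ∃ H : SimpleGraph V, H ≤ G ∧ ∀ v, (H.neighborSet v).ncard = 2

end Pool.Agent.Helper96.TwoFactor
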