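import Pool.Agent.Helper96.TwoFactor.KB

namespace Pool.Agent.Helper96.TwoFactor

open SimpleGraph

/-- a permutation of `Fin n` from an injective function given by natural numbers -/
noncomputable def mkPerm {n : ℕ} (f : ℕ → ℕ) (hlt : ∀ x, x < n → f x < n)
    (hinj : ∀ x y, x < n → y < n → f x = f y → x = y) : Equiv.Perm (Fin n) :=
  Equiv.ofBijective (fun x : Fin n => (⟨f x.1, hlt x.1 x.2⟩ : Fin n)) (by
    rw [← Finite.injective_iff_bijective]
    intro x y h
    have := congrArg Fin.val h
    exact Fin.ext (hinj _ _ x.2 y.2 this))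

@[simp] lemma mkPerm_val {n : ℕ} (f : ℕ → ℕ) (hlt : ∀ x, x < n → f x < n)
    (hinj : ∀ x y, x < n → y < n → f x = f y → x = y) (x : Fin n) :
    (mkPerm f hlt hinj x).1 = f x.1 := rfl

lemma sameCycle_step {n : ℕ} {f : ℕ → ℕ} {hlt : ∀ x, x < n → f x < n}
    {hinj : ∀ x y, x < n → y < n → f x = f y → x = y} {x y : ℕ} (hx : x < n) (hy : y < n)
    (h : f x = y) : (mkPerm f hlt hinj).SameCycle ⟨x, hx⟩ ⟨y, hy⟩ := by
  have : (⟨y, hy⟩ : Fin n) = mkPerm f hlt hinj ⟨x, hx⟩ := by
    apply Fin.ext; simp [h]
  rw [this, Equiv.Perm.sameCycle_apply_right]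

/-- the cyclic shift `a ↦ a + 1` of `Fin m` -/
def cycF (m a : ℕ) : ℕ := if a + 1 < m then a + 1 else 0

noncomputable def cyc (m : ℕ) : Equiv.Perm (Fin m) := mkPerm (cycF m)
  (by intro x hx; unfold cycF; split_ifs <;> omega)
  (by intro x y hx hy h; unfold cycF at h; split_ifs at h <;> omega)

lemma cyc_val (m : ℕ) (a : Fin m) : (cyc m a).1 = cycF m a.1 := rfl

lemma cyc_sameCycle (m : ℕ) (a b : Fin m) : (cyc m).SameCycle a b := by
  have key : ∀ x (hx : x < m), (cyc m).SameCycle ⟨0, by omega⟩ ⟨x, hx⟩ := by
    intro x
    induction x with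
    | zero => intro hx; exact Equiv.Perm.SameCycle.refl _ _
    | succ x ih =>
      intro hx
      refine (ih (by omega)).trans (sameCycle_step _ _ ?_)
      unfold cycF
      rw [if_pos hx]
  exact (key a.1 a.2).symm.trans (key b.1 b.2)

/-- predecessor in the cyclic order of `Fin m` -/
def predF (m a : ℕ) : ℕ := if a = 0 then m - 1 else a - 1

lemma cyc_symm_val (m : ℕ) (a : Fin m) : ((cyc m).symm a).1 = predF m a.1 := by
  have h : cyc m ⟨predF m a.1, by have := a.2; unfold predF; split_ifs <;> omega⟩ = a := by
    apply Fin.ext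
    rw [cyc_val]
    have := a.2
    unfold cycF predF
    simp only
    split_ifs <;> omega
  conv_lhs => rw [← h, Equiv.symm_apply_apply]

lemma predF_cycF {m a : ℕ} (h : a < m) : predF m (cycF m a) = a := by
  unfold predF cycF
  by_cases h1 : a + 1 < m
  · rw [if_pos h1]
    simp
  · rw [if_neg h1]
    simp only [if_true]
    omega

lemma predF_lt {m a : ℕ} (h : a < m) : predF m a < m := by
  unfold predF
  split_ifs <;> omega

/-! ### the orientable case -/

/-- local rotations at the odd side (`a < m`, `m` odd) on `Fin (2 h)` -/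
def rA (m h a j : ℕ) : ℕ :=
  if a = 0 then
    if j % 2 = 1 then j - 1
    else if 4 ≤ j then j - 3
    else if (j + 2 * h) % 4 = 2 then 2 * h - 3 else 2 * h - 1
  else if a = m - 1 then
    if j % 2 = 0 then (if j = 0 then 2 * h - 1 else j - 1)
    else (if j + 3 < 2 * h then j + 3 else j + 3 - 2 * h)
  else if a % 2 = 1 then (if j + 1 < 2 * h then j + 1 else 0)
  else (if j = 0 then 2 * h - 1 else j - 1)

lemma rA_lt {m h a : ℕ} (hh : 2 ≤ h) : ∀ j, j < 2 * h → rA m h a j < 2 * h := by
  intro j hj
  unfold rA
  split_ifs <;> omega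

lemma rA_inj {m h a : ℕ} (hh : 2 ≤ h) : ∀ x y, x < 2 * h → y < 2 * h →
    rA m h a x = rA m h a y → x = y := by
  intro x y hx hy hxy
  unfold rA at hxy
  split_ifs at hxy <;> omega

noncomputable def rP (m h a : ℕ) (hh : 2 ≤ h) : Equiv.Perm (Fin (2 * h)) :=
  mkPerm (rA m h a) (rA_lt hh) (rA_inj hh)

lemma rP_val {m h a : ℕ} (hh : 2 ≤ h) (x : Fin (2 * h)) : (rP m h a hh x).1 = rA m h a x.1 := rfl

lemma rP_step {m h a : ℕ} (hh : 2 ≤ h) {x y : ℕ} (hx : x < 2 * h) (hy : y < 2 * h)
    (hxy : rA m h a x = y) : (rP m h a hh).SameCycle ⟨x, hx⟩ ⟨y, hy⟩ :=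
  sameCycle_step hx hy hxy

lemma rP_sameCycle {m h a : ℕ} (hh : 2 ≤ h) (b b' : Fin (2 * h)) :
    (rP m h a hh).SameCycle b b' := by
  have key : ∀ x (hx : x < 2 * h), (rP m h a hh).SameCycle ⟨0, by omega⟩ ⟨x, hx⟩ := by
    by_cases h0 : a = 0
    · -- evens go down by four
      have ev : ∀ x (hx : x < 2 * h), x % 2 = 0 →
          (rP m h a hh).SameCycle ⟨x % 4, by omega⟩ ⟨x, hx⟩ := by
        intro x
        induction x using Nat.strong_induction_on with
        | _ x ih =>
          intro hx hev
          by_cases h4 : 4 ≤ x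
          · have e1 := rP_step (m := m) (a := a) hh (x := x) (y := x - 3) hx (by omega) (by
              unfold rA
              rw [if_pos h0, if_neg (by omega), if_pos h4])
            have e2 := rP_step (m := m) (a := a) hh (x := x - 3) (y := x - 4) (by omega)
              (by omega) (by
              unfold rA
              rw [if_pos h0, if_pos (by omega)]
              omega)
            have e3 := ih (x - 4) (by omega) (by omega) (by omega)
            have e4 : (⟨(x - 4) % 4, by omega⟩ : Fin (2 * h)) = ⟨x % 4, by omega⟩ := by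
              apply Fin.ext
              change (x - 4) % 4 = x % 4
              omega
            rw [e4] at e3
            exact e3.trans (e1.trans e2).symm
          · have e4 : (⟨x % 4, by omega⟩ : Fin (2 * h)) = ⟨x, hx⟩ := by
              apply Fin.ext
              change x % 4 = x
              omega
            rw [e4]
      have link : (rP m h a hh).SameCycle ⟨0, by omega⟩ ⟨2, by omega⟩ := by
        by_cases hpar : h % 2 = 1
        · have e1 := rP_step (m := m) (a := a) hh (x := 0) (y := 2 * h - 3) (by omega) (by omega)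
            (by
              unfold rA
              rw [if_pos h0, if_neg (by omega), if_neg (by omega), if_pos (by omega)])
          have e2 := rP_step (m := m) (a := a) hh (x := 2 * h - 3) (y := 2 * h - 4) (by omega)
            (by omega) (by
              unfold rA
              rw [if_pos h0, if_pos (by omega)]
              omega)
          have e3 := ev (2 * h - 4) (by omega) (by omega)
          have e4 : (⟨(2 * h - 4) % 4, by omega⟩ : Fin (2 * h)) = ⟨2, by omega⟩ := by
            apply Fin.ext
            change (2 * h - 4) % 4 = 2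
            omega
          rw [e4] at e3
          exact (e1.trans e2).trans e3.symm
        · have e1 := rP_step (m := m) (a := a) hh (x := 2) (y := 2 * h - 3) (by omega) (by omega)
            (by
              unfold rA
              rw [if_pos h0, if_neg (by omega), if_neg (by omega), if_pos (by omega)])
          have e2 := rP_step (m := m) (a := a) hh (x := 2 * h - 3) (y := 2 * h - 4) (by omega)
            (by omega) (by
              unfold rA
              rw [if_pos h0, if_pos (by omega)]
              omega)
          have e3 := ev (2 * h - 4) (by omega) (by omega)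
          have e4 : (⟨(2 * h - 4) % 4, by omega⟩ : Fin (2 * h)) = ⟨0, by omega⟩ := by
            apply Fin.ext
            change (2 * h - 4) % 4 = 0
            omega
          rw [e4] at e3
          exact ((e1.trans e2).trans e3.symm).symm
      have evs : ∀ x (hx : x < 2 * h), x % 2 = 0 →
          (rP m h a hh).SameCycle ⟨0, by omega⟩ ⟨x, hx⟩ := by
        intro x hx hev
        have e1 := ev x hx hev
        by_cases h4 : x % 4 = 0
        · have e4 : (⟨x % 4, by omega⟩ : Fin (2 * h)) = ⟨0, by omega⟩ := by
            apply Fin.ext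
            exact h4
          rwa [e4] at e1
        · have e4 : (⟨x % 4, by omega⟩ : Fin (2 * h)) = ⟨2, by omega⟩ := by
            apply Fin.ext
            change x % 4 = 2
            omega
          rw [e4] at e1
          exact link.trans e1
      intro x hx
      by_cases hev : x % 2 = 0
      · exact evs x hx hev
      · have e1 := rP_step (m := m) (a := a) hh (x := x) (y := x - 1) hx (by omega) (by
          unfold rA
          rw [if_pos h0, if_pos (by omega)])
        exact (evs (x - 1) (by omega) (by omega)).trans e1.symm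
    · by_cases h1 : a = m - 1
      · have evs : ∀ x (hx : x < 2 * h), x % 2 = 0 →
            (rP m h a hh).SameCycle ⟨0, by omega⟩ ⟨x, hx⟩ := by
          intro x
          induction x using Nat.strong_induction_on with
          | _ x ih =>
            intro hx hev
            by_cases hx0 : x = 0
            · subst hx0
              exact Equiv.Perm.SameCycle.refl _ _
            · by_cases hx2 : x = 2
              · subst hx2
                have e1 := rP_step (m := m) (a := a) hh (x := 0) (y := 2 * h - 1) (by omega)
                  (by omega) (by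
                    unfold rA
                    rw [if_neg h0, if_pos h1, if_pos (by omega), if_pos rfl])
                have e2 := rP_step (m := m) (a := a) hh (x := 2 * h - 1) (y := 2) (by omega)
                  (by omega) (by
                    unfold rA
                    rw [if_neg h0, if_pos h1, if_neg (by omega), if_neg (by omega)]
                    omega)
                exact e1.trans e2
              · have e1 := rP_step (m := m) (a := a) hh (x := x - 2) (y := x - 3) (by omega)
                  (by omega) (by
                    unfold rA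
                    rw [if_neg h0, if_pos h1, if_pos (by omega), if_neg (by omega)]
                    omega)
                have e2 := rP_step (m := m) (a := a) hh (x := x - 3) (y := x) (by omega)
                  (by omega) (by
                    unfold rA
                    rw [if_neg h0, if_pos h1, if_neg (by omega), if_pos (by omega)]
                    omega)
                exact (ih (x - 2) (by omega) (by omega) (by omega)).trans (e1.trans e2)
        intro x hx
        by_cases hev : x % 2 = 0
        · exact evs x hx hev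
        · by_cases hlast : x = 2 * h - 1
          · exact rP_step hh _ _ (by
              unfold rA
              rw [if_neg h0, if_pos h1, if_pos (by omega), if_pos rfl]
              exact hlast.symm)
          · have e1 := rP_step (m := m) (a := a) hh (x := x + 1) (y := x) (by omega)
              (by omega) (by
                unfold rA
                rw [if_neg h0, if_pos h1, if_pos (by omega), if_neg (by omega)]
                omega)
            exact (evs (x + 1) (by omega) (by omega)).trans e1
      · by_cases h2 : a % 2 = 1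
        · intro x
          induction x with
          | zero => intro hx; exact Equiv.Perm.SameCycle.refl _ _
          | succ x ih =>
            intro hx
            refine (ih (by omega)).trans (rP_step hh _ _ ?_)
            unfold rA
            rw [if_neg h0, if_neg h1, if_pos h2, if_pos hx]
        · intro x
          induction x with
          | zero => intro hx; exact Equiv.Perm.SameCycle.refl _ _
          | succ x ih =>
            intro hx
            refine (ih (by omega)).trans (rP_step hh _ _ ?_).symm
            unfold rA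
            rw [if_neg h0, if_neg h1, if_neg h2, if_neg (by omega)]
            omega
  exact (key b.1 b.2).symm.trans (key b'.1 b'.2)

/-- representative of the face at level `a` at the vertex `j` -/
def labO (m h a j : ℕ) : ℕ :=
  if (a = m - 1 ∧ h % 2 = 0) ∧ (if j % 2 = 0 then j else rA m h a j) = 2 then 0
  else (if j % 2 = 0 then j else rA m h a j)

lemma rA_parity {m h a j : ℕ} (hh : 2 ≤ h) (hj : j < 2 * h) (hm : m % 2 = 1) :
    rA m h a j % 2 = 1 - j % 2 := by
  unfold rA
  split_ifs <;> omega

lemma labO_even {m h a j : ℕ} (hh : 2 ≤ h) (hj : j < 2 * h) (hm : m % 2 = 1) :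
    labO m h a j % 2 = 0 ∧ labO m h a j < 2 * h := by
  have h1 := rA_parity (a := a) hh hj hm
  have h2 := rA_lt (m := m) (a := a) hh j hj
  unfold labO
  split_ifs <;> omega

lemma labO_odd_step {m h a j : ℕ} (hh : 2 ≤ h) (hj : j < 2 * h) (hm : m % 2 = 1)
    (hodd : j % 2 = 1) : labO m h a j = labO m h a (rA m h a j) := by
  have h1 := rA_parity (a := a) hh hj hm
  unfold labO
  rw [if_neg (show ¬ j % 2 = 0 by omega), if_pos (show rA m h a j % 2 = 0 by omega)]

lemma rA_zero (m h j : ℕ) : rA m h 0 j = if j % 2 = 1 then j - 1
    else if 4 ≤ j then j - 3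
    else if (j + 2 * h) % 4 = 2 then 2 * h - 3 else 2 * h - 1 := by
  unfold rA; rw [if_pos rfl]

lemma rA_last {m : ℕ} (h j : ℕ) (hm3 : 3 ≤ m) : rA m h (m - 1) j =
    if j % 2 = 0 then (if j = 0 then 2 * h - 1 else j - 1)
    else (if j + 3 < 2 * h then j + 3 else j + 3 - 2 * h) := by
  unfold rA; rw [if_neg (by omega), if_pos rfl]

lemma rA_odd {m a : ℕ} (h j : ℕ) (hm : m % 2 = 1) (ha : a % 2 = 1) :
    rA m h a j = if j + 1 < 2 * h then j + 1 else 0 := by
  unfold rA; rw [if_neg (by omega), if_neg (by omega), if_pos ha]

lemma rA_mid {m a : ℕ} (h j : ℕ) (ha : a % 2 = 0) (h0 : a ≠ 0) (h1 : a ≠ m - 1) :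
    rA m h a j = if j = 0 then 2 * h - 1 else j - 1 := by
  unfold rA; rw [if_neg h0, if_neg h1, if_neg (by omega)]

lemma labO_even_step {m h a j : ℕ} (hh : 2 ≤ h) (hj : j < 2 * h) (hm : m % 2 = 1) (hm3 : 3 ≤ m)
    (ha : a < m) (hev : j % 2 = 0) :
    labO m h (predF m a) j = labO m h (predF m a) (rA m h a j) := by
  have h1 := rA_parity (a := a) hh hj hm
  unfold labO
  rw [if_pos hev, if_neg (show ¬ rA m h a j % 2 = 0 by omega)]
  by_cases h0 : a = 0
  · subst h0
    have hp : predF m 0 = m - 1 := by unfold predF; rw [if_pos rfl]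
    rw [hp, rA_zero, rA_last _ _ hm3]
    split_ifs <;> omega
  · have hp : predF m a = a - 1 := by unfold predF; rw [if_neg h0]
    rw [hp, if_neg (by omega), if_neg (by omega)]
    by_cases hlast : a = m - 1
    · rw [hlast, rA_last _ _ hm3, rA_odd _ _ hm (by omega)]
      split_ifs <;> omega
    · by_cases hodd : a % 2 = 1
      · rw [rA_odd _ _ hm hodd, if_pos (show j + 1 < 2 * h by omega)]
        by_cases h10 : a - 1 = 0
        · rw [h10, rA_zero, if_pos (by omega)]
          omega
        · rw [rA_mid _ _ (by omega) h10 (by omega), if_neg (by omega)]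
          omega
      · rw [rA_mid _ _ (by omega) h0 hlast, rA_odd _ _ hm (by omega)]
        by_cases hj0 : j = 0
        · rw [if_pos hj0, if_neg (by omega)]
          exact hj0
        · rw [if_neg hj0, if_pos (by omega)]
          omega

/-- level of the face on side `s` of the edge `a j`, seen from `a` -/
def levO (m a j : ℕ) (s : Bool) : ℕ := if decide (j % 2 = 0) = s then predF m a else a

lemma levO_lt {m a j : ℕ} {s : Bool} (ha : a < m) : levO m a j s < m := by
  unfold levO
  have := predF_lt ha
  split_ifs <;> omega

lemma labO_ne {m h j : ℕ} (hev : h % 2 = 0) : labO m h (m - 1) j ≠ 2 := by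
  unfold labO
  by_cases hc : (m - 1 = m - 1 ∧ h % 2 = 0) ∧
      (if j % 2 = 0 then j else rA m h (m - 1) j) = 2
  · rw [if_pos hc]
    omega
  · rw [if_neg hc]
    intro h2
    exact hc ⟨⟨rfl, hev⟩, h2⟩

/-- general lower bound for the number of faces -/
lemma kb_faces_ge {A B X : Type} [Finite A] [Finite B] (ρ : A → Equiv.Perm B)
    (σ : B → Equiv.Perm A) (t : A → B → Bool) (F F' : A → B → Bool → X)
    (c1 : ∀ a b, F a b true = F a (ρ a b) false)
    (c2 : ∀ a b, F' a b true = F' (σ b a) b false)
    (c3 : ∀ a b s, F a b s = F' a b (xor (!s) (t a b)))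
    (hs : ∀ x, ∃ a b s, F a b s = x) :
    Nat.card X ≤ Nat.card (Quot (SameFace (KB A B) (kbRot ρ σ) (kbTw t))) := by
  have c4 : ∀ a b s, F' a b s = F a b (xor (!s) (t a b)) := by
    intro a b s
    rw [c3]
    congr 1
    cases s <;> cases t a b <;> rfl
  let L : (KB A B).Dart × Bool → X := fun x =>
    match dartE.symm x.1 with
    | Sum.inl p => F p.1 p.2 x.2
    | Sum.inr p => F' p.1 p.2 x.2
  have hL1 : ∀ a b s, L (dAB a b, s) = F a b s := by
    intro a b s
    simp only [L]
    rw [← dartE_inl, Equiv.symm_apply_apply]
  have hL2 : ∀ a b s, L (dBA b a, s) = F' a b s := by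
    intro a b s
    simp only [L]
    rw [← dartE_inr, Equiv.symm_apply_apply]
  apply faces_ge L
  · intro d
    rcases dart_cases d with ⟨a, b, rfl⟩ | ⟨b, a, rfl⟩
    · rw [kbRot_AB, hL1, hL1, c1]
    · rw [kbRot_BA, hL2, hL2, c2]
  · intro d s
    rcases dart_cases d with ⟨a, b, rfl⟩ | ⟨b, a, rfl⟩
    · rw [dAB_symm, hL1, hL2, kbTw_AB, c3]
    · rw [dBA_symm, hL2, hL1, kbTw_BA, c4]
  · intro x
    obtain ⟨a, b, s, h⟩ := hs x
    exact ⟨(dAB a b, s), by rw [hL1]; exact h⟩

/-- the local rotations at the even side, orientable case -/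
noncomputable def sO (m : ℕ) {n : ℕ} (b : Fin n) : Equiv.Perm (Fin m) :=
  if b.1 % 2 = 0 then cyc m else (cyc m).symm

lemma sO_sameCycle (m : ℕ) {n : ℕ} (b : Fin n) (a a' : Fin m) : (sO m b).SameCycle a a' := by
  unfold sO
  split_ifs
  · exact cyc_sameCycle m a a'
  · have := cyc_sameCycle m a a'
    exact Equiv.Perm.sameCycle_inv.2 this

theorem orientable_embedding (m h : ℕ) (hh : 2 ≤ h) (hm : m % 2 = 1) (hm3 : 3 ≤ m) (g : ℕ)
    (hg : (m - 2) * (h - 1) ≤ 2 * g) :
    EmbedsOrientable (KB (Fin m) (Fin (2 * h))) g := by
  classical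
  set ρ : Fin m → Equiv.Perm (Fin (2 * h)) := fun a => rP m h a.1 hh with hρ
  set σ : Fin (2 * h) → Equiv.Perm (Fin m) := fun b => sO m b with hσ
  refine ⟨kbRot ρ σ, kbRot_isRotation ρ σ (fun a b b' => rP_sameCycle hh b b')
    (fun b a a' => sO_sameCycle m b a a'), ?_⟩
  have htw : kbTw (fun (_ : Fin m) (_ : Fin (2 * h)) => false) = fun _ => false := by
    funext e
    induction e using Sym2.ind with
    | _ x y => rcases x with a | b <;> rcases y with a' | b' <;> rfl
  have hne1 : Nonempty (Fin m) := ⟨⟨0, by omega⟩⟩
  have hne2 : Nonempty (Fin (2 * h)) := ⟨⟨0, by omega⟩⟩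
  let X := {p : Fin m × Fin h // ¬ (h % 2 = 0 ∧ p.1.1 = m - 1 ∧ p.2.1 = 1)}
  let F : Fin m → Fin (2 * h) → Bool → X := fun a b s =>
    ⟨(⟨levO m a.1 b.1 s, levO_lt a.2⟩, ⟨labO m h (levO m a.1 b.1 s) b.1 / 2, by
      have := (labO_even (a := levO m a.1 b.1 s) hh b.2 hm).2
      omega⟩), by
      rintro ⟨h1, h2, h3⟩
      simp only at h2 h3
      rw [h2] at h3
      have h4 := (labO_even (a := m - 1) hh b.2 hm).1
      have h5 := labO_ne (m := m) (j := b.1) h1
      omega⟩
  have hFext : ∀ a b s a' b' s', levO m a.1 b.1 s = levO m a'.1 b'.1 s' →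
      labO m h (levO m a.1 b.1 s) b.1 = labO m h (levO m a.1 b.1 s) b'.1 →
      F a b s = F a' b' s' := by
    intro a b s a' b' s' h1 h2
    apply Subtype.ext
    apply Prod.ext
    · exact Fin.ext h1
    · apply Fin.ext
      change labO m h (levO m a.1 b.1 s) b.1 / 2 = labO m h (levO m a'.1 b'.1 s') b'.1 / 2
      rw [← h1, h2]
  have hfaces := kb_faces_ge ρ σ (fun _ _ => false) F (fun a b s => F a b (!s)) (by
      intro a b
      have hpar := rA_parity (m := m) (a := a.1) hh b.2 hm
      have hval : (ρ a b).1 = rA m h a.1 b.1 := rfl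
      by_cases hb : b.1 % 2 = 0
      · have l1 : levO m a.1 b.1 true = predF m a.1 := by
          unfold levO; rw [if_pos (by simp [hb])]
        have l2 : levO m a.1 (ρ a b).1 false = predF m a.1 := by
          unfold levO; rw [if_pos]; rw [hval]; simp; omega
        apply hFext
        · rw [l1, l2]
        · rw [l1, hval]
          exact labO_even_step hh b.2 hm hm3 a.2 hb
      · have l1 : levO m a.1 b.1 true = a.1 := by
          unfold levO; rw [if_neg (by simp; omega)]
        have l2 : levO m a.1 (ρ a b).1 false = a.1 := by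
          unfold levO; rw [if_neg]; rw [hval]; simp; omega
        apply hFext
        · rw [l1, l2]
        · rw [l1, hval]
          exact labO_odd_step hh b.2 hm (by omega)) (by
      intro a b
      simp only [Bool.not_true, Bool.not_false]
      by_cases hb : b.1 % 2 = 0
      · have hval : (σ b a).1 = cycF m a.1 := by
          simp only [hσ, sO, hb, if_true]; exact cyc_val m a
        have l1 : levO m a.1 b.1 false = a.1 := by
          unfold levO; rw [if_neg (by simp [hb])]
        have l2 : levO m (σ b a).1 b.1 true = a.1 := by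
          unfold levO; rw [if_pos (by simp [hb]), hval, predF_cycF a.2]
        apply hFext
        · rw [l1, l2]
        · rfl
      · have hval : (σ b a).1 = predF m a.1 := by
          simp only [hσ, sO, hb, if_false]; exact cyc_symm_val m a
        have l1 : levO m a.1 b.1 false = predF m a.1 := by
          unfold levO; rw [if_pos (by simp; omega)]
        have l2 : levO m (σ b a).1 b.1 true = predF m a.1 := by
          unfold levO; rw [if_neg (by simp; omega), hval]
        apply hFext
        · rw [l1, l2]
        · rfl) (by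
      intro a b s
      simp) (by
      rintro ⟨⟨a, i⟩, hp⟩
      refine ⟨a, ⟨2 * i.1, by have := i.2; omega⟩, false, ?_⟩
      have l1 : levO m a.1 (2 * i.1) false = a.1 := by
        unfold levO; rw [if_neg (by simp)]
      apply Subtype.ext
      apply Prod.ext
      · exact Fin.ext l1
      · apply Fin.ext
        change labO m h (levO m a.1 (2 * i.1) false) (2 * i.1) / 2 = i.1
        rw [l1]
        have h2 : labO m h a.1 (2 * i.1) = 2 * i.1 := by
          unfold labO
          rw [if_pos (show (2 * i.1) % 2 = 0 by omega), if_neg]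
          rintro ⟨⟨h3, h4⟩, h5⟩
          exact hp ⟨h4, h3, by simp only; omega⟩
        rw [h2]
        omega)
  rw [htw] at hfaces
  rw [eulerGenus_KB, Nat.card_fin, Nat.card_fin]
  have hX : m * h ≤ Nat.card X + (if h % 2 = 0 then 1 else 0) := by
    by_cases hev : h % 2 = 0
    · rw [if_pos hev]
      let q : Option X → Fin m × Fin h := fun o =>
        match o with
        | none => (⟨m - 1, by omega⟩, ⟨1, by omega⟩)
        | some x => x.1
      have hq : Function.Surjective q := by
        intro p
        by_cases hp : h % 2 = 0 ∧ p.1.1 = m - 1 ∧ p.2.1 = 1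
        · exact ⟨none, Prod.ext (Fin.ext hp.2.1.symm) (Fin.ext hp.2.2.symm)⟩
        · exact ⟨some ⟨p, hp⟩, rfl⟩
      have := Nat.card_le_card_of_surjective q hq
      rw [Finite.card_option, Nat.card_prod, Nat.card_fin, Nat.card_fin] at this
      exact this
    · rw [if_neg hev]
      have hq : Function.Surjective (Subtype.val : X → Fin m × Fin h) := by
        intro p
        exact ⟨⟨p, fun hp => hev hp.1⟩, rfl⟩
      have := Nat.card_le_card_of_surjective _ hq
      rw [Nat.card_prod, Nat.card_fin, Nat.card_fin] at this
      exact this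
  have hmain : m * h ≤ Nat.card (Quot (SameFace (KB (Fin m) (Fin (2 * h))) (kbRot ρ σ)
      (fun _ => false))) + (if h % 2 = 0 then 1 else 0) := by omega
  generalize Nat.card (Quot (SameFace (KB (Fin m) (Fin (2 * h))) (kbRot ρ σ)
      (fun _ => false))) = Fc at hmain ⊢
  obtain ⟨p, rfl⟩ : ∃ p, m = 2 * p + 1 := ⟨m / 2, by omega⟩
  obtain ⟨p', rfl⟩ : ∃ p', p = p' + 1 := ⟨p - 1, by omega⟩
  obtain ⟨h', rfl⟩ : ∃ h', h = h' + 1 := ⟨h - 1, by omega⟩
  have e1 : 2 * (p' + 1) + 1 - 2 = 2 * p' + 1 := by omega
  have e2 : h' + 1 - 1 = h' := by omega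
  rw [e1, e2] at hg
  push_cast
  have hmain' : ((2 * ((p' : ℤ) + 1) + 1) * (h' + 1)) ≤ Fc + (if (h' + 1) % 2 = 0 then 1 else 0) := by
    exact_mod_cast hmain
  have hg' : (2 * (p' : ℤ) + 1) * h' + (if (h' + 1) % 2 = 0 then 1 else 0) ≤ 2 * g := by
    have hg2 : (2 * p' + 1) * h' + (if (h' + 1) % 2 = 0 then 1 else 0) ≤ 2 * g := by
      by_cases hev : (h' + 1) % 2 = 0
      · rw [if_pos hev]
        have h3 : ((2 * p' + 1) * h') % 2 = 1 := by
          rw [Nat.mul_mod]
          have : (2 * p' + 1) % 2 = 1 := by omega
          have : h' % 2 = 1 := by omega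
          simp [*]
        omega
      · rw [if_neg hev]
        omega
    exact_mod_cast hg2
  nlinarith

end Pool.Agent.Helper96.TwoFactor
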