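import Pool.Agent.Helper96.TwoFactor.Gadget

namespace Pool.Agent.Helper96.TwoFactor

open SimpleGraph

lemma card_quot_le {X : Type} [Finite X] (r : X → X → Prop) (a b : X) :
    Nat.card (Quot r) ≤ Nat.card (Quot (fun x y => r x y ∨ (x = a ∧ y = b))) + 1 := by
  classical
  let φ : X → Quot r := fun x => if Quot.mk r x = Quot.mk r b then Quot.mk r a else Quot.mk r x
  let g : Quot (fun x y => r x y ∨ (x = a ∧ y = b)) → Quot r := Quot.lift φ (by
    rintro x y (h | ⟨rfl, rfl⟩)
    · simp only [φ]
      rw [Quot.sound h]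
    · simp [φ])
  let h : Option (Quot (fun x y => r x y ∨ (x = a ∧ y = b))) → Quot r := fun o =>
    match o with
    | none => Quot.mk r b
    | some q => g q
  have hsurj : Function.Surjective h := by
    intro q
    by_cases hq : q = Quot.mk r b
    · exact ⟨none, hq.symm⟩
    · induction q using Quot.ind with
      | mk x =>
        refine ⟨some (Quot.mk _ x), ?_⟩
        change φ x = _
        simp only [φ]
        rw [if_neg hq]
  have := Nat.card_le_card_of_surjective h hsurj
  rwa [Finite.card_option] at this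

lemma card_quot_le_finset {X ι : Type} [Finite X] (r : X → X → Prop) (a b : ι → X)
    (s : Finset ι) :
    Nat.card (Quot r) ≤
      Nat.card (Quot (fun x y => r x y ∨ ∃ i ∈ s, x = a i ∧ y = b i)) + s.card := by
  classical
  induction s using Finset.induction_on with
  | empty =>
    have : (fun x y => r x y ∨ ∃ i ∈ (∅ : Finset ι), x = a i ∧ y = b i) = r := by
      funext x y
      simp
    rw [this]
    simp
  | insert i s hi ih =>
    have h1 := card_quot_le (fun x y => r x y ∨ ∃ i ∈ s, x = a i ∧ y = b i) (a i) (b i)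
    have h2 : (fun x y => (r x y ∨ ∃ i ∈ s, x = a i ∧ y = b i) ∨ (x = a i ∧ y = b i)) =
        (fun x y => r x y ∨ ∃ j ∈ insert i s, x = a j ∧ y = b j) := by
      funext x y
      simp only [Finset.mem_insert, eq_iff_iff]
      constructor
      · rintro ((h | ⟨j, hj, h⟩) | h)
        · exact Or.inl h
        · exact Or.inr ⟨j, Or.inr hj, h⟩
        · exact Or.inr ⟨i, Or.inl rfl, h⟩
      · rintro (h | ⟨j, rfl | hj, h⟩)
        · exact Or.inl (Or.inl h)
        · exact Or.inr h
        · exact Or.inl (Or.inr ⟨j, hj, h⟩)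
    rw [h2] at h1
    rw [Finset.card_insert_of_notMem hi]
    omega

variable {V : Type}

/-- The edges of `G` inside the fibres of `β`. -/
def fib (G : SimpleGraph V) {I : Type} (β : V → I) : SimpleGraph V where
  Adj u v := G.Adj u v ∧ β u = β v
  symm := ⟨fun _ _ h => ⟨h.1.symm, h.2.symm⟩⟩
  loopless := ⟨fun _ h => h.1.ne rfl⟩

variable {G : SimpleGraph V}

lemma card_split {α : Type} [Fintype α] (p q : α → Prop) [DecidablePred p] [DecidablePred q] :
    (Finset.univ.filter p).card = (Finset.univ.filter (fun x => p x ∧ q x)).card +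
      (Finset.univ.filter (fun x => p x ∧ ¬ q x)).card := by
  have := Finset.card_filter_add_card_filter_not (s := Finset.univ.filter p) q
  rw [Finset.filter_filter, Finset.filter_filter] at this
  exact this.symm

lemma card_split' {α : Type} (s : Finset α) (p q : α → Prop) [DecidablePred p]
    [DecidablePred q] :
    (s.filter p).card = (s.filter (fun x => p x ∧ q x)).card +
      (s.filter (fun x => p x ∧ ¬ q x)).card := by
  have := Finset.card_filter_add_card_filter_not (s := s.filter p) q
  rw [Finset.filter_filter, Finset.filter_filter] at this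
  exact this.symm

lemma even_side [Fintype G.Dart] {rot : Equiv.Perm G.Dart} (hrot : IsRotation G rot)
    (p q : G.Dart → Prop) [DecidablePred p] [DecidablePred q] [DecidableEq V]
    (h : ∀ d, p d ↔ q (rot d)) (v : V) :
    Even (Finset.univ.filter (fun d : G.Dart => d.fst = v ∧ ¬ (p d ↔ q d))).card := by
  classical
  have h1 : (Finset.univ.filter (fun d : G.Dart => d.fst = v ∧ p d)).card =
      (Finset.univ.filter (fun d : G.Dart => d.fst = v ∧ q d)).card := by
    apply Finset.card_bij (fun d _ => rot d)
    · intro d hd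
      simp only [Finset.mem_filter, Finset.mem_univ, true_and] at hd ⊢
      exact ⟨(hrot.1 d).trans hd.1, (h d).1 hd.2⟩
    · intro d _ e _ hde
      exact rot.injective hde
    · intro d hd
      simp only [Finset.mem_filter, Finset.mem_univ, true_and] at hd
      refine ⟨rot.symm d, ?_, by simp⟩
      simp only [Finset.mem_filter, Finset.mem_univ, true_and]
      refine ⟨?_, ?_⟩
      · have := hrot.1 (rot.symm d)
        rw [Equiv.apply_symm_apply] at this
        rw [← this]; exact hd.1
      · rw [h]; simpa using hd.2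
  have h2 : (Finset.univ.filter (fun d : G.Dart => d.fst = v ∧ p d)).card =
      (Finset.univ.filter (fun d : G.Dart => (d.fst = v ∧ p d) ∧ q d)).card +
      (Finset.univ.filter (fun d : G.Dart => (d.fst = v ∧ p d) ∧ ¬ q d)).card :=
    card_split _ _
  have h3 : (Finset.univ.filter (fun d : G.Dart => d.fst = v ∧ q d)).card =
      (Finset.univ.filter (fun d : G.Dart => (d.fst = v ∧ q d) ∧ p d)).card +
      (Finset.univ.filter (fun d : G.Dart => (d.fst = v ∧ q d) ∧ ¬ p d)).card :=
    card_split _ _
  have h4 : (Finset.univ.filter (fun d : G.Dart => (d.fst = v ∧ p d) ∧ q d)).card =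
      (Finset.univ.filter (fun d : G.Dart => (d.fst = v ∧ q d) ∧ p d)).card := by
    congr 1
    ext d
    simp only [Finset.mem_filter, Finset.mem_univ, true_and]
    tauto
  have h5 : (Finset.univ.filter (fun d : G.Dart => d.fst = v ∧ ¬ (p d ↔ q d))).card =
      (Finset.univ.filter (fun d : G.Dart => (d.fst = v ∧ p d) ∧ ¬ q d)).card +
      (Finset.univ.filter (fun d : G.Dart => (d.fst = v ∧ q d) ∧ ¬ p d)).card := by
    rw [← Finset.card_union_of_disjoint]
    · congr 1
      ext d
      simp only [Finset.mem_filter, Finset.mem_univ, true_and, Finset.mem_union]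
      tauto
    · rw [Finset.disjoint_left]
      intro d hd hd'
      simp only [Finset.mem_filter, Finset.mem_univ, true_and] at hd hd'
      exact hd.2 hd'.1.2
  rw [h5]
  exact ⟨(Finset.univ.filter (fun d : G.Dart => (d.fst = v ∧ p d) ∧ ¬ q d)).card, by omega⟩

lemma exists_parent {I : Type} (β : V → I) {u v : V} (hne : v ≠ u)
    (hr : (fib G β).Reachable v u) :
    ∃ d : G.Dart, d.fst = v ∧ β d.snd = β v ∧
      (fib G β).dist d.snd u < (fib G β).dist v u := by
  obtain ⟨p, hp⟩ := hr.exists_walk_length_eq_dist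
  cases p with
  | nil => exact absurd rfl hne
  | @cons _ w _ h q =>
    refine ⟨⟨(v, w), h.1⟩, rfl, h.2.symm, ?_⟩
    have := dist_le q
    rw [Walk.length_cons] at hp
    change (fib G β).dist w u < _
    omega

/-- A nonempty set of pairs all of whose rows and columns are even has at least 4 elements. -/
lemma four_le_card {I : Type} [DecidableEq I] (Q : Finset (I × I)) (hne : Q.Nonempty)
    (hrow : ∀ p ∈ Q, Even (Q.filter (fun x => x.1 = p.1)).card)
    (hcol : ∀ p ∈ Q, Even (Q.filter (fun x => x.2 = p.2)).card) : 4 ≤ Q.card := by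
  have row : ∀ p ∈ Q, ∃ p' ∈ Q, p'.1 = p.1 ∧ p'.2 ≠ p.2 := by
    intro p hp
    have h1 : p ∈ Q.filter (fun x => x.1 = p.1) := by simp [hp]
    have h2 : 1 < (Q.filter (fun x => x.1 = p.1)).card := by
      have := hrow p hp
      have h3 : 0 < (Q.filter (fun x => x.1 = p.1)).card := Finset.card_pos.2 ⟨p, h1⟩
      rw [Nat.even_iff] at this
      omega
    obtain ⟨p', hp', hne'⟩ := Finset.exists_mem_ne h2 p
    rw [Finset.mem_filter] at hp'
    refine ⟨p', hp'.1, hp'.2, fun h => hne' (Prod.ext hp'.2 h)⟩
  have col : ∀ p ∈ Q, ∃ p' ∈ Q, p'.2 = p.2 ∧ p'.1 ≠ p.1 := by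
    intro p hp
    have h1 : p ∈ Q.filter (fun x => x.2 = p.2) := by simp [hp]
    have h2 : 1 < (Q.filter (fun x => x.2 = p.2)).card := by
      have := hcol p hp
      have h3 : 0 < (Q.filter (fun x => x.2 = p.2)).card := Finset.card_pos.2 ⟨p, h1⟩
      rw [Nat.even_iff] at this
      omega
    obtain ⟨p', hp', hne'⟩ := Finset.exists_mem_ne h2 p
    rw [Finset.mem_filter] at hp'
    refine ⟨p', hp'.1, hp'.2, fun h => hne' (Prod.ext h hp'.2)⟩
  obtain ⟨p0, hp0⟩ := hne
  obtain ⟨p1, hp1, h1a, h1b⟩ := row p0 hp0
  obtain ⟨p2, hp2, h2a, h2b⟩ := col p0 hp0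
  obtain ⟨p3, hp3, h3a, h3b⟩ := col p1 hp1
  have hsub : ({p0, p1, p2, p3} : Finset (I × I)) ⊆ Q := by
    intro x hx
    simp only [Finset.mem_insert, Finset.mem_singleton] at hx
    rcases hx with rfl | rfl | rfl | rfl <;> assumption
  have hcard : ({p0, p1, p2, p3} : Finset (I × I)).card = 4 := by
    have e01 : p0 ≠ p1 := fun h => h1b (by rw [h])
    have e02 : p0 ≠ p2 := fun h => h2b (by rw [h])
    have e03 : p0 ≠ p3 := fun h => h1b (by rw [h, h3a])
    have e12 : p1 ≠ p2 := fun h => h1b (by rw [h, h2a])
    have e13 : p1 ≠ p3 := fun h => h3b (by rw [h])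
    have e23 : p2 ≠ p3 := fun h => h1b (by rw [← h3a, ← h, h2a])
    rw [Finset.card_insert_of_notMem, Finset.card_insert_of_notMem,
      Finset.card_insert_of_notMem, Finset.card_singleton]
    · simpa using e23
    · simp [e12, e13]
    · simp [e01, e02, e03]
  rw [← hcard]
  exact Finset.card_le_card hsub

end Pool.Agent.Helper96.TwoFactor
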