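import Pool.Agent.Helper96.TwoFactor.Tutte

namespace Pool.Agent.Helper96.TwoFactor

open SimpleGraph

variable {V : Type} (G : SimpleGraph V)

/-- The gadget graph: perfect matchings of it correspond to 2-factors of `G`. -/
def gadget : SimpleGraph (G.Dart ⊕ (V × Bool)) where
  Adj x y :=
    match x, y with
    | Sum.inl d, Sum.inl e => e = d.symm
    | Sum.inl d, Sum.inr p => d.fst = p.1
    | Sum.inr p, Sum.inl d => d.fst = p.1
    | Sum.inr _, Sum.inr _ => False
  symm := ⟨by
    rintro (d | p) (e | q) h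
    · simp only at h ⊢; rw [h, Dart.symm_symm]
    · exact h
    · exact h
    · exact h⟩
  loopless := ⟨by
    rintro (d | p) h
    · exact d.symm_ne h.symm
    · exact h⟩

variable {G}

@[simp] lemma gadget_inl_inl {d e : G.Dart} :
    (gadget G).Adj (Sum.inl d) (Sum.inl e) ↔ e = d.symm := Iff.rfl
@[simp] lemma gadget_inl_inr {d : G.Dart} {p : V × Bool} :
    (gadget G).Adj (Sum.inl d) (Sum.inr p) ↔ d.fst = p.1 := Iff.rfl
@[simp] lemma gadget_inr_inl {d : G.Dart} {p : V × Bool} :
    (gadget G).Adj (Sum.inr p) (Sum.inl d) ↔ d.fst = p.1 := Iff.rfl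
@[simp] lemma gadget_inr_inr {p q : V × Bool} :
    (gadget G).Adj (Sum.inr p) (Sum.inr q) ↔ False := Iff.rfl

lemma dart_eq_of {d e : G.Dart} (h1 : d.fst = e.fst) (h2 : d.snd = e.snd) : d = e := by
  apply Dart.ext
  exact Prod.ext h1 h2

theorem hasTwoFactor_of_perfect (M : Subgraph (gadget G)) (hM : M.IsPerfectMatching) :
    HasTwoFactor G := by
  classical
  have hM' := Subgraph.isPerfectMatching_iff.1 hM
  let F : SimpleGraph V :=
    { Adj := fun u v => ∃ h : G.Adj u v,
        ¬ M.Adj (Sum.inl (⟨(u, v), h⟩ : G.Dart)) (Sum.inl (⟨(v, u), h.symm⟩ : G.Dart))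
      symm := ⟨by
        rintro u v ⟨h, hn⟩
        exact ⟨h.symm, fun h' => hn h'.symm⟩⟩
      loopless := ⟨by
        rintro u ⟨h, -⟩
        exact h.ne rfl⟩ }
  refine ⟨F, fun u v h => h.1, fun v => ?_⟩
  have core : ∀ b : Bool, ∃ d : G.Dart, d.fst = v ∧ M.Adj (Sum.inr (v, b)) (Sum.inl d) := by
    intro b
    obtain ⟨w, hw, -⟩ := hM' (Sum.inr (v, b))
    rcases w with d | p
    · exact ⟨d, hw.adj_sub, hw⟩
    · exact absurd hw.adj_sub (by simp)
  obtain ⟨d0, hd0, hm0⟩ := core false
  obtain ⟨d1, hd1, hm1⟩ := core true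
  have hne : d0 ≠ d1 := by
    rintro rfl
    have := (hM' (Sum.inl d0)).unique hm0.symm hm1.symm
    simp at this
  have hne' : d0.snd ≠ d1.snd := fun h => hne (dart_eq_of (hd0.trans hd1.symm) h)
  have hset : F.neighborSet v = {d0.snd, d1.snd} := by
    ext w
    simp only [mem_neighborSet, Set.mem_insert_iff, Set.mem_singleton_iff]
    constructor
    · rintro ⟨h, hn⟩
      obtain ⟨y, hy, -⟩ := hM' (Sum.inl (⟨(v, w), h⟩ : G.Dart))
      rcases y with e | ⟨x, b⟩
      · exfalso
        have he := hy.adj_sub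
        rw [gadget_inl_inl] at he
        subst he
        exact hn hy
      · have hx := hy.adj_sub
        rw [gadget_inl_inr] at hx
        simp only at hx
        subst hx
        cases b with
        | false =>
          left
          have := (hM' (Sum.inr (v, false))).unique hy.symm hm0
          rw [← Sum.inl.inj this]
        | true =>
          right
          have := (hM' (Sum.inr (v, true))).unique hy.symm hm1
          rw [← Sum.inl.inj this]
    · rintro (rfl | rfl)
      · have hadj : G.Adj v d0.snd := hd0 ▸ d0.adj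
        refine ⟨hadj, fun h' => ?_⟩
        have he : (⟨(v, d0.snd), hadj⟩ : G.Dart) = d0 := dart_eq_of hd0.symm rfl
        rw [he] at h'
        have := (hM' (Sum.inl d0)).unique hm0.symm h'
        simp at this
      · have hadj : G.Adj v d1.snd := hd1 ▸ d1.adj
        refine ⟨hadj, fun h' => ?_⟩
        have he : (⟨(v, d1.snd), hadj⟩ : G.Dart) = d1 := dart_eq_of hd1.symm rfl
        rw [he] at h'
        have := (hM' (Sum.inl d1)).unique hm1.symm h'
        simp at this
  rw [hset, Set.ncard_pair hne']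

lemma even_card_gadget [Finite V] : Even (Nat.card (G.Dart ⊕ (V × Bool))) := by
  classical
  have := Fintype.ofFinite V
  have : DecidableRel G.Adj := Classical.decRel _
  rw [Nat.card_sum, Nat.card_prod]
  rw [Nat.card_eq_fintype_card (α := G.Dart), dart_card_eq_twice_card_edges]
  simp only [Nat.card_eq_fintype_card, Fintype.card_bool]
  exact ⟨G.edgeFinset.card + Fintype.card V, by ring⟩

/-- counting lemma for a minimal barrier -/
lemma barrier_tight {W : Type} [Finite W] {H : SimpleGraph W} {U X N : Set W}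
    (h : X.ncard + 2 ≤ {Z | OddComp H U Z ∧ ∃ x ∈ X, ∃ z ∈ Z, H.Adj x z}.ncard)
    (hN : N.ncard ≤ X.ncard + 2)
    (hXN : ∀ x ∈ X, ∀ z, z ∉ U → H.Adj x z → z ∈ N) :
    (∀ z ∈ N, ∃ Z, OddComp H U Z ∧ z ∈ Z) ∧
      ∀ z ∈ N, ∀ z' ∈ N, ∀ Z, OddComp H U Z → z ∈ Z → z' ∈ Z → z = z' := by
  classical
  set 𝒵 := {Z | OddComp H U Z ∧ ∃ x ∈ X, ∃ z ∈ Z, H.Adj x z} with h𝒵
  have hch : ∀ Z : Set W, Z ∈ 𝒵 → ∃ z, z ∈ Z ∧ z ∈ N := by
    rintro Z ⟨hZ, x, hx, z, hz, hadj⟩
    exact ⟨z, hz, hXN x hx z (hZ.notMem hz) hadj⟩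
  have hW : Nonempty W := by
    by_contra hW
    rw [not_nonempty_iff] at hW
    have h0 : 𝒵 = ∅ := by
      ext Z
      constructor
      · rintro ⟨_, x, _⟩
        exact (hW.false x).elim
      · intro h; exact h.elim
    rw [h0] at h
    simp at h
  choose! g hg1 hg2 using hch
  have hinj : Set.InjOn g 𝒵 := by
    intro Z hZ Z' hZ' heq
    exact hZ.1.eq_of_mem hZ'.1 (hg1 Z hZ) (heq ▸ hg1 Z' hZ')
  have himg : g '' 𝒵 ⊆ N := by
    rintro _ ⟨Z, hZ, rfl⟩
    exact hg2 Z hZ
  have hcard : (g '' 𝒵).ncard = 𝒵.ncard := hinj.ncard_image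
  have heq : g '' 𝒵 = N := by
    apply Set.eq_of_subset_of_ncard_le himg
    omega
  constructor
  · intro z hz
    rw [← heq] at hz
    obtain ⟨Z, hZ, rfl⟩ := hz
    exact ⟨Z, hZ.1, hg1 Z hZ⟩
  · intro z hz z' hz' Z hZ hzZ hz'Z
    rw [← heq] at hz hz'
    obtain ⟨Z1, hZ1, rfl⟩ := hz
    obtain ⟨Z2, hZ2, rfl⟩ := hz'
    rw [hZ1.1.eq_of_mem hZ (hg1 Z1 hZ1) hzZ, hZ2.1.eq_of_mem hZ (hg1 Z2 hZ2) hz'Z]

/-- `c` is a component of `G - (S ∪ T)` joined to two different vertices of `T`. -/
def Multi (G : SimpleGraph V) (S T : Set V) (c : (off G (S ∪ T)).ConnectedComponent) : Prop :=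
  ∃ u u' v v', u ∉ S ∪ T ∧ u' ∉ S ∪ T ∧ (off G (S ∪ T)).connectedComponentMk u = c ∧
    (off G (S ∪ T)).connectedComponentMk u' = c ∧ v ∈ T ∧ v' ∈ T ∧ v ≠ v' ∧
    G.Adj v u ∧ G.Adj v' u'

lemma even_card_of_involution {α : Type} (s : Finset α) (f : α → α)
    (hf : ∀ a ∈ s, f a ∈ s) (hff : ∀ a ∈ s, f (f a) = a) (hne : ∀ a ∈ s, f a ≠ a) :
    Even s.card := by
  classical
  have h : ∑ x ∈ s, (1 : ZMod 2) = 0 := by
    refine Finset.sum_involution (fun a _ => f a) ?_ ?_ ?_ ?_
    · intro a _; decide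
    · intro a ha _; exact hne a ha
    · intro a ha; exact hf a ha
    · intro a ha; exact hff a ha
  rw [Finset.sum_const, nsmul_eq_mul, mul_one] at h
  rwa [ZMod.natCast_eq_zero_iff_even] at h

theorem exists_structure [Finite V] (hdeg : ∀ u, ∃ w, G.Adj u w) (hno : ¬ HasTwoFactor G) :
    ∃ S T : Set V, Disjoint S T ∧ (∀ v ∈ T, ∀ w ∈ T, ¬ G.Adj v w) ∧
      (∀ v ∈ T, ∀ u u', u ∉ S ∪ T → u' ∉ S ∪ T → G.Adj v u → G.Adj v u' →
        (off G (S ∪ T)).Reachable u u' → u = u') ∧
      S.ncard + {c | Multi G S T c}.ncard + 1 ≤ T.ncard := by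
  classical
  have := Fintype.ofFinite V
  have hFD : Fintype G.Dart := Fintype.ofFinite _
  obtain ⟨U, hU1, hU2⟩ := exists_min_barrier (H := gadget G) even_card_gadget (by
    rintro ⟨M, hM⟩
    exact hno (hasTwoFactor_of_perfect M hM))
  have hge : ∀ X : Set (G.Dart ⊕ (V × Bool)), X ⊆ U → X.Nonempty → X.ncard + 2 ≤
      {Z | OddComp (gadget G) U Z ∧ ∃ x ∈ X, ∃ z ∈ Z, (gadget G).Adj x z}.ncard :=
    fun X hX hne => adj_oddComp_ge hU1 hU2 hX hne
  -- a dart in `U`
  have A1 : ∀ d : G.Dart, Sum.inl d ∈ U → (∀ b, Sum.inr (d.fst, b) ∉ U) ∧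
      ∀ e : G.Dart, e.fst = d.fst → Sum.inl e ∈ U := by
    intro d hd
    have h3 := barrier_tight (H := gadget G) (U := U) (X := {Sum.inl d})
      (N := {Sum.inl d.symm, Sum.inr (d.fst, false), Sum.inr (d.fst, true)})
      (hge _ (by simpa using hd) (Set.singleton_nonempty _))
      (by
        rw [Set.ncard_singleton]
        refine (Set.ncard_insert_le _ _).trans ?_
        have := Set.ncard_insert_le (Sum.inr (d.fst, false) : G.Dart ⊕ (V × Bool))
          {Sum.inr (d.fst, true)}
        rw [Set.ncard_singleton] at this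
        omega)
      (by
        intro x hx z hz hadj
        rw [Set.mem_singleton_iff] at hx
        subst hx
        rcases z with e | ⟨w, b⟩
        · rw [gadget_inl_inl] at hadj
          subst hadj
          simp
        · rw [gadget_inl_inr] at hadj
          simp only at hadj
          subst hadj
          cases b <;> simp)
    have hcore : ∀ b, Sum.inr (d.fst, b) ∉ U := by
      intro b
      obtain ⟨Z, hZ, hz⟩ := h3.1 (Sum.inr (d.fst, b)) (by cases b <;> simp)
      exact hZ.notMem hz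
    refine ⟨hcore, ?_⟩
    intro e he
    by_contra heU
    obtain ⟨Z, hZ, hz⟩ := h3.1 (Sum.inr (d.fst, false)) (by simp)
    have h4 : Sum.inl e ∈ Z := hZ.closed hz heU (by simpa using he)
    have h5 : Sum.inr (d.fst, true) ∈ Z := hZ.closed h4 (hcore true) (by simpa using he)
    have := h3.2 (Sum.inr (d.fst, false)) (by simp) (Sum.inr (d.fst, true)) (by simp) Z hZ hz h5
    simp at this
  -- a core vertex in `U`
  have A2 : ∀ (v : V) (b : Bool), Sum.inr (v, b) ∈ U → (∀ b', Sum.inr (v, b') ∈ U) ∧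
      ∀ d : G.Dart, d.fst = v → Sum.inl d ∉ U := by
    intro v b hv
    have hd : ∀ d : G.Dart, d.fst = v → Sum.inl d ∉ U := by
      intro d hd hdU
      subst hd
      exact (A1 d hdU).1 b hv
    refine ⟨?_, hd⟩
    intro b'
    by_contra hb'
    have h3 := hge {Sum.inr (v, b)} (by simpa using hv) (Set.singleton_nonempty _)
    rw [Set.ncard_singleton] at h3
    have h4 : {Z | OddComp (gadget G) U Z ∧ ∃ x ∈ ({Sum.inr (v, b)} : Set _), ∃ z ∈ Z,
        (gadget G).Adj x z}.ncard ≤ 1 := by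
      rw [Set.ncard_le_one (Set.toFinite _)]
      rintro Z ⟨hZ, x, hx, z, hz, hadj⟩ Z' ⟨hZ', x', hx', z', hz', hadj'⟩
      rw [Set.mem_singleton_iff] at hx hx'
      subst hx
      subst hx'
      rcases z with e | p
      · rcases z' with e' | p'
        · rw [gadget_inr_inl] at hadj hadj'
          have h5 := hZ.closed hz hb' (by simpa using hadj)
          have h5' := hZ'.closed hz' hb' (by simpa using hadj')
          exact hZ.eq_of_mem hZ' h5 h5'
        · simp at hadj'
      · simp at hadj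
    omega
  set S : Set V := {v | Sum.inr (v, false) ∈ U} with hS
  set T : Set V := {v | ∃ d : G.Dart, d.fst = v ∧ Sum.inl d ∈ U} with hT
  have hSmem : ∀ v b, Sum.inr (v, b) ∈ U ↔ v ∈ S := by
    intro v b
    constructor
    · intro h; exact (A2 v b h).1 false
    · intro h; exact (A2 v false h).1 b
  have hTmem : ∀ d : G.Dart, Sum.inl d ∈ U ↔ d.fst ∈ T := by
    intro d
    constructor
    · intro h; exact ⟨d, rfl, h⟩
    · rintro ⟨e, he, heU⟩
      exact (A1 e heU).2 d he.symm
  have hdisj : Disjoint S T := by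
    rw [Set.disjoint_left]
    rintro v hvS ⟨d, hd, hdU⟩
    subst hd
    exact (A1 d hdU).1 false hvS
  -- the tight structure at a vertex of `T`
  have A3 : ∀ v ∈ T, (∀ d : G.Dart, d.fst = v → ∃ Z, OddComp (gadget G) U Z ∧ Sum.inl d.symm ∈ Z) ∧
      ∀ d e : G.Dart, d.fst = v → e.fst = v → ∀ Z, OddComp (gadget G) U Z →
        Sum.inl d.symm ∈ Z → Sum.inl e.symm ∈ Z → d = e := by
    intro v hv
    let Dv : Set (G.Dart ⊕ (V × Bool)) := Sum.inl '' {d : G.Dart | d.fst = v}
    let Nv : Set (G.Dart ⊕ (V × Bool)) := (fun d : G.Dart => Sum.inl d.symm) '' {d : G.Dart | d.fst = v} ∪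
      {Sum.inr (v, false), Sum.inr (v, true)}
    have hDv : Dv ⊆ U := by
      rintro _ ⟨d, hd, rfl⟩
      rw [hTmem]
      have : d.fst = v := hd
      rw [this]; exact hv
    obtain ⟨d0, hd0, hd0U⟩ := hv
    have h3 := barrier_tight (H := gadget G) (U := U) (X := Dv) (N := Nv)
      (hge _ hDv ⟨Sum.inl d0, d0, hd0, rfl⟩)
      (by
        have e1 : Dv.ncard = {d : G.Dart | d.fst = v}.ncard :=
          Set.ncard_image_of_injective _ Sum.inl_injective
        have e2 : ((fun d : G.Dart => (Sum.inl d.symm : G.Dart ⊕ (V × Bool))) ''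
            {d : G.Dart | d.fst = v}).ncard ≤ {d : G.Dart | d.fst = v}.ncard :=
          Set.ncard_image_le (Set.toFinite _)
        have e3 := Set.ncard_union_le ((fun d : G.Dart => (Sum.inl d.symm : G.Dart ⊕ (V × Bool))) ''
            {d : G.Dart | d.fst = v}) {Sum.inr (v, false), Sum.inr (v, true)}
        have e4 := Set.ncard_insert_le (Sum.inr (v, false) : G.Dart ⊕ (V × Bool))
          {Sum.inr (v, true)}
        rw [Set.ncard_singleton] at e4
        have e5 : Nv.ncard = ((fun d : G.Dart => (Sum.inl d.symm : G.Dart ⊕ (V × Bool))) ''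
            {d : G.Dart | d.fst = v} ∪ {Sum.inr (v, false), Sum.inr (v, true)}).ncard := rfl
        omega)
      (by
        rintro _ ⟨d, hd, rfl⟩ z hz hadj
        rcases z with e | ⟨w, b⟩
        · rw [gadget_inl_inl] at hadj
          subst hadj
          exact Or.inl ⟨d, hd, rfl⟩
        · rw [gadget_inl_inr] at hadj
          have hd' : d.fst = v := hd
          simp only at hadj
          subst hadj
          subst hd'
          right
          cases b <;> simp)
    constructor
    · intro d hd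
      exact h3.1 _ (Or.inl ⟨d, hd, rfl⟩)
    · intro d e hd he Z hZ hdZ heZ
      have := h3.2 _ (Or.inl ⟨d, hd, rfl⟩) _ (Or.inl ⟨e, he, rfl⟩) Z hZ hdZ heZ
      have h6 : d.symm = e.symm := Sum.inl.inj this
      rw [← Dart.symm_symm d, h6, Dart.symm_symm]
  have hTind : ∀ v ∈ T, ∀ w ∈ T, ¬ G.Adj v w := by
    intro v hv w hw hadj
    obtain ⟨Z, hZ, hz⟩ := (A3 v hv).1 ⟨(v, w), hadj⟩ rfl
    have := hZ.notMem hz
    rw [hTmem] at this
    exact this hw
  -- connectivity transfer
  have R1 : ∀ x y : V, x ∉ S ∪ T → y ∉ S ∪ T → (off G (S ∪ T)).Reachable x y →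
      (off (gadget G) U).Reachable (Sum.inr (x, false)) (Sum.inr (y, false)) := by
    rintro x y hx hy ⟨p⟩
    induction p with
    | nil => exact Reachable.refl _
    | @cons a b c hab p ih =>
      have hb : b ∉ S ∪ T := hab.2.2
      refine Reachable.trans ?_ (ih hb hy)
      have haS : a ∉ S := fun h => hx (Or.inl h)
      have haT : a ∉ T := fun h => hx (Or.inr h)
      have hbS : b ∉ S := fun h => hb (Or.inl h)
      have hbT : b ∉ T := fun h => hb (Or.inr h)
      have s1 : (off (gadget G) U).Adj (Sum.inr (a, false)) (Sum.inl ⟨(a, b), hab.1⟩) :=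
        ⟨rfl, fun h => haS ((hSmem _ _).1 h), fun h => haT ((hTmem _).1 h)⟩
      have s2 : (off (gadget G) U).Adj (Sum.inl ⟨(a, b), hab.1⟩) (Sum.inl ⟨(b, a), hab.1.symm⟩) :=
        ⟨rfl, fun h => haT ((hTmem _).1 h), fun h => hbT ((hTmem _).1 h)⟩
      have s3 : (off (gadget G) U).Adj (Sum.inl ⟨(b, a), hab.1.symm⟩) (Sum.inr (b, false)) :=
        ⟨rfl, fun h => hbT ((hTmem _).1 h), fun h => hbS ((hSmem _ _).1 h)⟩
      exact s1.reachable.trans (s2.reachable.trans s3.reachable)
  have R1' : ∀ d : G.Dart, d.fst ∉ S ∪ T →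
      (off (gadget G) U).Adj (Sum.inl d) (Sum.inr (d.fst, false)) := by
    intro d hd
    exact ⟨rfl, fun h => hd (Or.inr ((hTmem _).1 h)), fun h => hd (Or.inl ((hSmem _ _).1 h))⟩
  -- projection
  let π : G.Dart ⊕ (V × Bool) → V := fun x =>
    match x with
    | Sum.inl d => if d.fst ∈ S then d.snd else d.fst
    | Sum.inr p => p.1
  have R3 : ∀ x y : G.Dart ⊕ (V × Bool), (off (gadget G) U).Reachable x y → π x ∉ S ∪ T →
      π y ∉ S ∪ T ∧ (off G (S ∪ T)).Reachable (π x) (π y) := by
    rintro x y ⟨p⟩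
    induction p with
    | nil => intro h; exact ⟨h, Reachable.refl _⟩
    | @cons a b c hab p ih =>
      intro ha
      have key : π b ∉ S ∪ T ∧ (off G (S ∪ T)).Reachable (π a) (π b) := by
        obtain ⟨hadj, haU, hbU⟩ := hab
        rcases a with d | ⟨v, i⟩
        · rcases b with e | ⟨w, j⟩
          · rw [gadget_inl_inl] at hadj
            subst hadj
            rw [hTmem] at haU hbU
            simp only [π] at ha ⊢
            simp only [Dart.symm] at hbU ⊢
            by_cases h1 : d.fst ∈ S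
            · simp only [h1, if_true] at ha ⊢
              have h2 : d.snd ∉ S := fun h => ha (Or.inl h)
              simp only [Prod.fst_swap, Prod.snd_swap, h2, if_false]
              exact ⟨ha, Reachable.refl _⟩
            · simp only [h1, if_false] at ha ⊢
              by_cases h2 : d.snd ∈ S
              · simp only [Prod.fst_swap, Prod.snd_swap, h2, if_true]
                exact ⟨ha, Reachable.refl _⟩
              · simp only [Prod.fst_swap, Prod.snd_swap, h2, if_false]
                have h3 : d.snd ∉ S ∪ T := by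
                  rintro (h | h)
                  · exact h2 h
                  · exact hbU h
                exact ⟨h3, Adj.reachable ⟨d.adj, ha, h3⟩⟩
          · rw [gadget_inl_inr] at hadj
            rw [hSmem] at hbU
            simp only [π] at ha ⊢
            simp only at hadj
            subst hadj
            simp only [hbU, if_false] at ha ⊢
            exact ⟨ha, Reachable.refl _⟩
        · rcases b with e | ⟨w, j⟩
          · rw [gadget_inr_inl] at hadj
            rw [hSmem] at haU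
            simp only [π] at ha ⊢
            simp only at hadj
            subst hadj
            simp only [haU, if_false]
            exact ⟨ha, Reachable.refl _⟩
          · exact absurd hadj (by simp)
      obtain ⟨k1, k2⟩ := key
      obtain ⟨l1, l2⟩ := ih k1
      exact ⟨l1, k2.trans l2⟩
  have hF1 : ∀ v ∈ T, ∀ u u', u ∉ S ∪ T → u' ∉ S ∪ T → G.Adj v u → G.Adj v u' →
        (off G (S ∪ T)).Reachable u u' → u = u' := by
    intro v hv u u' hu hu' hvu hvu' hr
    obtain ⟨Z, hZ, hz⟩ := (A3 v hv).1 ⟨(v, u), hvu⟩ rfl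
    have h1 : Sum.inl (⟨(v, u'), hvu'⟩ : G.Dart).symm ∈ Z := by
      rw [hZ.reach hz]
      have a1 := (R1' (⟨(v, u), hvu⟩ : G.Dart).symm hu).reachable
      have a2 := (R1' (⟨(v, u'), hvu'⟩ : G.Dart).symm hu').reachable
      exact a1.trans ((R1 u u' hu hu' hr).trans a2.symm)
    have := (A3 v hv).2 ⟨(v, u), hvu⟩ ⟨(v, u'), hvu'⟩ rfl rfl Z hZ hz h1
    have h2 := congrArg (fun d : G.Dart => d.snd) this
    exact h2
  refine ⟨S, T, hdisj, hTind, hF1, ?_⟩
  -- counting
  set 𝒪 : Set (Set (G.Dart ⊕ (V × Bool))) :=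
    {Z | OddComp (gadget G) U Z ∧ ∀ v ∈ T, ∀ b, Sum.inr (v, b) ∉ Z} with h𝒪
  set 𝒞 : Set (Set (G.Dart ⊕ (V × Bool))) :=
    {Z | OddComp (gadget G) U Z ∧ ∃ v ∈ T, ∃ b, Sum.inr (v, b) ∈ Z} with h𝒞
  have c1 : {Z | OddComp (gadget G) U Z}.ncard ≤ 𝒪.ncard + 𝒞.ncard := by
    refine (Set.ncard_le_ncard (t := 𝒪 ∪ 𝒞) ?_ (Set.toFinite _)).trans (Set.ncard_union_le _ _)
    intro Z hZ
    by_cases h : ∃ v ∈ T, ∃ b, Sum.inr (v, b) ∈ Z
    · exact Or.inr ⟨hZ, h⟩
    · left
      refine ⟨hZ, ?_⟩
      intro v hv b hb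
      exact h ⟨v, hv, b, hb⟩
  have c2 : 𝒞.ncard ≤ T.ncard * 2 := by
    have h1 : 𝒞 ⊆ (fun p : V × Bool => {y | (off (gadget G) U).Reachable (Sum.inr p) y}) ''
        (T ×ˢ (Set.univ : Set Bool)) := by
      rintro Z ⟨hZ, v, hv, b, hb⟩
      refine ⟨(v, b), ⟨hv, trivial⟩, ?_⟩
      ext y
      exact (hZ.reach hb).symm
    refine (Set.ncard_le_ncard h1 (Set.toFinite _)).trans ?_
    refine (Set.ncard_image_le (Set.toFinite _)).trans ?_
    rw [Set.ncard_prod, Set.ncard_univ, Nat.card_eq_fintype_card, Fintype.card_bool]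
  set δ : ℕ := {d : G.Dart | d.fst ∈ T}.ncard with hδ
  have c3 : U.ncard = S.ncard * 2 + δ := by
    have h1 : U = (Sum.inr '' (S ×ˢ (Set.univ : Set Bool))) ∪ (Sum.inl '' {d : G.Dart | d.fst ∈ T}) := by
      ext x
      rcases x with d | ⟨v, b⟩
      · rw [hTmem]
        simp
      · rw [hSmem]
        simp
    rw [h1, Set.ncard_union_eq, Set.ncard_image_of_injective _ Sum.inr_injective,
      Set.ncard_image_of_injective _ Sum.inl_injective, Set.ncard_prod, Set.ncard_univ,
      Nat.card_eq_fintype_card, Fintype.card_bool]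
    rw [Set.disjoint_left]
    rintro _ ⟨a, _, rfl⟩ ⟨b, _, hb⟩
    simp at hb
  let m : Set (G.Dart ⊕ (V × Bool)) → ℕ := fun Z =>
    (Finset.univ.filter (fun d : G.Dart => Sum.inl d ∈ Z ∧ d.snd ∈ T)).card
  have c4 : ∀ Z ∈ 𝒪, Odd (m Z) := by
    rintro Z ⟨hZ, hZT⟩
    have hodd := hZ.2
    have hsplit : Z.ncard = m Z + (Finset.univ.filter (fun x : G.Dart ⊕ (V × Bool) => x ∈ Z ∧
        ¬ ∃ d : G.Dart, x = Sum.inl d ∧ d.snd ∈ T)).card := by
      have e1 : m Z = (Finset.univ.filter (fun x : G.Dart ⊕ (V × Bool) => x ∈ Z ∧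
          ∃ d : G.Dart, x = Sum.inl d ∧ d.snd ∈ T)).card := by
        change (Finset.univ.filter (fun d : G.Dart => Sum.inl d ∈ Z ∧ d.snd ∈ T)).card = _
        rw [← Finset.card_image_of_injective
          (Finset.univ.filter (fun d : G.Dart => Sum.inl d ∈ Z ∧ d.snd ∈ T))
          (Sum.inl_injective (α := G.Dart) (β := V × Bool))]
        congr 1
        ext x
        simp only [Finset.mem_image, Finset.mem_filter, Finset.mem_univ, true_and]
        constructor
        · rintro ⟨d, ⟨h1, h2⟩, rfl⟩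
          exact ⟨h1, d, rfl, h2⟩
        · rintro ⟨h1, d, rfl, h2⟩
          exact ⟨d, ⟨h1, h2⟩, rfl⟩
      rw [e1, ← Finset.filter_filter, ← Finset.filter_filter, Finset.card_filter_add_card_filter_not,
        Set.ncard_eq_toFinset_card']
      congr 1
      ext x
      simp
    have heven : Even (Finset.univ.filter (fun x : G.Dart ⊕ (V × Bool) => x ∈ Z ∧
        ¬ ∃ d : G.Dart, x = Sum.inl d ∧ d.snd ∈ T)).card := by
      refine even_card_of_involution _ (fun x =>
        match x with
        | Sum.inl d => Sum.inl d.symm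
        | Sum.inr p => Sum.inr (p.1, !p.2)) ?_ ?_ ?_
      · intro x hx
        simp only [Finset.mem_filter, Finset.mem_univ, true_and] at hx ⊢
        obtain ⟨hxZ, hx2⟩ := hx
        have hxU := hZ.notMem hxZ
        rcases x with d | ⟨v, b⟩
        · have hdT : d.snd ∉ T := fun h => hx2 ⟨d, rfl, h⟩
          have hdU : d.fst ∉ T := fun h => hxU ((hTmem _).2 h)
          refine ⟨hZ.closed hxZ ?_ rfl, ?_⟩
          · rw [hTmem]; exact hdT
          · rintro ⟨e, he, heT⟩
            have : d.symm = e := Sum.inl.inj he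
            subst this
            exact hdU heT
        · have hvS : v ∉ S := fun h => hxU ((hSmem _ _).2 h)
          have hvT : v ∉ T := fun h => hZT v h b hxZ
          obtain ⟨w, hw⟩ := hdeg v
          have h1 : Sum.inl (⟨(v, w), hw⟩ : G.Dart) ∈ Z :=
            hZ.closed hxZ (fun h => hvT ((hTmem _).1 h)) rfl
          refine ⟨hZ.closed h1 (fun h => hvS ((hSmem _ _).1 h)) rfl, ?_⟩
          rintro ⟨e, he, -⟩
          simp at he
      · intro x _
        rcases x with d | ⟨v, b⟩
        · simp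
        · simp
      · intro x _
        rcases x with d | ⟨v, b⟩
        · simp only [ne_eq, Sum.inl.injEq]
          exact d.symm_ne
        · simp
    rw [hsplit] at hodd
    rcases Nat.even_or_odd (m Z) with h | h
    · exact absurd hodd (Nat.not_odd_iff_even.mpr (h.add heven))
    · exact h
  let 𝒪f := (Set.toFinite 𝒪).toFinset
  have h𝒪f : 𝒪f.card = 𝒪.ncard := (Set.ncard_eq_toFinset_card 𝒪 _).symm
  have hmem𝒪 : ∀ Z, Z ∈ 𝒪f ↔ Z ∈ 𝒪 := fun Z => Set.Finite.mem_toFinset _
  have c5 : ∑ Z ∈ 𝒪f, m Z ≤ δ := by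
    rw [← Finset.card_biUnion]
    · have h1 : δ = {d : G.Dart | d.snd ∈ T}.ncard := by
        rw [hδ]
        have : {d : G.Dart | d.snd ∈ T} = Dart.symm '' {d : G.Dart | d.fst ∈ T} := by
          ext d
          constructor
          · intro h; exact ⟨d.symm, h, d.symm_symm⟩
          · rintro ⟨e, he, rfl⟩; exact he
        rw [this, Set.ncard_image_of_injective _ Dart.symm_involutive.injective]
      rw [h1, Set.ncard_eq_toFinset_card']
      apply Finset.card_le_card
      intro d hd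
      simp only [Finset.mem_biUnion, Finset.mem_filter, Finset.mem_univ, true_and] at hd
      obtain ⟨Z, _, _, h⟩ := hd
      simpa using h
    · intro Z hZ Z' hZ' hne
      rw [Function.onFun, Finset.disjoint_left]
      intro d hd hd'
      simp only [Finset.mem_filter, Finset.mem_univ, true_and] at hd hd'
      have a1 := (hmem𝒪 Z).1 hZ
      have a2 := (hmem𝒪 Z').1 hZ'
      exact hne (a1.1.eq_of_mem a2.1 hd.1 hd'.1)
  have c7 : 𝒪f.card + 2 * (𝒪f.filter (fun Z => 2 ≤ m Z)).card ≤ ∑ Z ∈ 𝒪f, m Z := by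
    have h1 : ∀ Z ∈ 𝒪f, (1 + if 2 ≤ m Z then 2 else 0) ≤ m Z := by
      intro Z hZ
      have := c4 Z ((hmem𝒪 Z).1 hZ)
      rw [Nat.odd_iff] at this
      split_ifs with h2
      · omega
      · omega
    have h2 := Finset.sum_le_sum h1
    rw [Finset.sum_add_distrib, Finset.sum_const, ← Finset.sum_filter, Finset.sum_const] at h2
    simp only [smul_eq_mul, mul_one] at h2
    omega
  have c6 : {c | Multi G S T c}.ncard ≤ (𝒪f.filter (fun Z => 2 ≤ m Z)).card := by
    have hch : ∀ c, Multi G S T c → ∃ Z, Z ∈ 𝒪f.filter (fun Z => 2 ≤ m Z) ∧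
        ∃ u, u ∉ S ∪ T ∧ (off G (S ∪ T)).connectedComponentMk u = c ∧
          Sum.inr (u, false) ∈ Z := by
      rintro c ⟨u, u', v, v', hu, hu', huc, hu'c, hv, hv', hvv', hvu, hvu'⟩
      obtain ⟨Z, hZ, hz⟩ := (A3 v hv).1 ⟨(v, u), hvu⟩ rfl
      have hr : (off G (S ∪ T)).Reachable u u' := by
        rw [← ConnectedComponent.eq, huc, hu'c]
      have g1 : Sum.inr (u, false) ∈ Z := by
        rw [hZ.reach hz]
        exact (R1' (⟨(v, u), hvu⟩ : G.Dart).symm hu).reachable
      have g2 : Sum.inl (⟨(v', u'), hvu'⟩ : G.Dart).symm ∈ Z := by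
        rw [hZ.reach hz]
        have a1 := (R1' (⟨(v, u), hvu⟩ : G.Dart).symm hu).reachable
        have a2 := (R1' (⟨(v', u'), hvu'⟩ : G.Dart).symm hu').reachable
        exact a1.trans ((R1 u u' hu hu' hr).trans a2.symm)
      refine ⟨Z, ?_, u, hu, huc, g1⟩
      rw [Finset.mem_filter, hmem𝒪]
      refine ⟨⟨hZ, ?_⟩, ?_⟩
      · intro w hw b hb
        have h5 : (off (gadget G) U).Reachable (Sum.inr (u, false)) (Sum.inr (w, b)) :=
          (hZ.reach g1).1 hb
        have := (R3 _ _ h5 hu).1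
        exact this (Or.inr hw)
      · have h6 : ({(⟨(v, u), hvu⟩ : G.Dart).symm, (⟨(v', u'), hvu'⟩ : G.Dart).symm} :
            Finset G.Dart) ⊆ Finset.univ.filter (fun d : G.Dart => Sum.inl d ∈ Z ∧ d.snd ∈ T) := by
          intro d hd
          rw [Finset.mem_insert, Finset.mem_singleton] at hd
          rw [Finset.mem_filter]
          rcases hd with rfl | rfl
          · exact ⟨Finset.mem_univ _, hz, hv⟩
          · exact ⟨Finset.mem_univ _, g2, hv'⟩
        refine le_trans ?_ (Finset.card_le_card h6)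
        rw [Finset.card_pair]
        intro heq
        have := congrArg (fun d : G.Dart => d.snd) heq
        exact hvv' this
    choose! g hg1 hg2 using hch
    rw [Set.ncard_eq_toFinset_card _ (Set.toFinite _)]
    refine Finset.card_le_card_of_injOn g ?_ ?_
    · intro c hc
      have : Multi G S T c := by simpa using hc
      exact hg1 c this
    · intro c hc c' hc' heq
      have h1 : Multi G S T c := by simpa using hc
      have h2 : Multi G S T c' := by simpa using hc'
      obtain ⟨u, hu, huc, huZ⟩ := hg2 c h1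
      obtain ⟨u', hu', hu'c, hu'Z⟩ := hg2 c' h2
      rw [← heq] at hu'Z
      have hZ := ((hmem𝒪 _).1 (Finset.mem_filter.1 (hg1 c h1)).1).1
      have h5 := (hZ.reach huZ).1 hu'Z
      have h6 := (R3 _ _ h5 hu).2
      rw [← huc, ← hu'c, ConnectedComponent.eq]
      exact h6
  omega

end Pool.Agent.Helper96.TwoFactor
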