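import Pool.Agent.Helper96.TwoFactor.KB

namespace Pool.Agent.Helper96.TwoFactor

open SimpleGraph

/-- a bipartite graph with unequal sides has no 2-factor -/
lemma no_twoFactor_of_coloring {V : Type} [Fintype V] {G : SimpleGraph V} (c : V → Bool)
    (hc : ∀ u v, G.Adj u v → c u ≠ c v)
    (hne : (Finset.univ.filter (fun v => c v = true)).card ≠
      (Finset.univ.filter (fun v => c v = false)).card) : ¬ HasTwoFactor G := by
  classical
  rintro ⟨H, hle, hdeg⟩
  have h1 : ∀ v, (Finset.univ.filter (fun w => H.Adj v w)).card = 2 := by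
    intro v
    rw [← hdeg v, Set.ncard_eq_toFinset_card _ (Set.toFinite _)]
    congr 1
    ext w
    simp
  have h2 : ∑ v ∈ Finset.univ.filter (fun v => c v = true),
      (Finset.univ.filter (fun w => H.Adj v w)).card =
      ∑ w ∈ Finset.univ.filter (fun v => c v = false),
        (Finset.univ.filter (fun v => H.Adj w v)).card := by
    simp only [Finset.card_filter, Finset.sum_filter]
    rw [Finset.sum_congr rfl (g := fun v => ∑ w, if (c v = true ∧ H.Adj v w) then 1 else 0)
      (fun v _ => by by_cases hv : c v = true <;> simp [hv])]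
    rw [Finset.sum_comm]
    apply Finset.sum_congr rfl
    intro w _
    by_cases hw : c w = false
    · rw [if_pos hw]
      apply Finset.sum_congr rfl
      intro v _
      by_cases hvw : H.Adj v w
      · have := hc v w (hle hvw)
        rw [hw] at this
        have hv : c v = true := by simpa using this
        rw [if_pos ⟨hv, hvw⟩, if_pos hvw.symm]
      · rw [if_neg (fun h => hvw h.2), if_neg (fun h => hvw h.symm)]
    · rw [if_neg hw]
      apply Finset.sum_eq_zero
      intro v _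
      rw [if_neg]
      rintro ⟨hv, hvw⟩
      have := hc v w (hle hvw)
      rw [hv] at this
      exact hw (by simpa using this)
  simp only [h1, Finset.sum_const, smul_eq_mul] at h2
  omega

def hRow (i : ℕ) : ℕ := [224, 1792, 864, 1728, 1440, 21, 13, 25, 22, 14, 26].getD i 0

def hAdj (u v : Fin 11) : Bool := (hRow u.1).testBit v.1

def hNt : List (List (Fin 11)) := [[0, 0, 0, 0, 0, 6, 7, 5, 0, 0, 0], [0, 0, 0, 0, 0, 0, 0, 0, 10, 8, 9], [0, 0, 0, 0, 0, 8, 5, 0, 9, 6, 0], [0, 0, 0, 0, 0, 0, 9, 6, 0, 10, 7], [0, 0, 0, 0, 0, 7, 0, 10, 5, 0, 8], [4, 0, 0, 0, 2, 0, 0, 0, 0, 0, 0], [2, 0, 3, 0, 0, 0, 0, 0, 0, 0, 0], [3, 0, 0, 4, 0, 0, 0, 0, 0, 0, 0], [0, 2, 4, 0, 1, 0, 0, 0, 0, 0, 0], [0, 3, 1, 2, 0, 0, 0, 0, 0, 0, 0], [0, 4, 0, 1, 3, 0, 0, 0, 0, 0, 0]]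

def hFt : List (List (Fin 9)) := [[0, 0, 0, 0, 0, 0, 1, 2, 0, 0, 0], [0, 0, 0, 0, 0, 0, 0, 0, 5, 3, 4], [0, 0, 0, 0, 0, 8, 0, 0, 3, 6, 0], [0, 0, 0, 0, 0, 0, 6, 1, 0, 4, 7], [0, 0, 0, 0, 0, 2, 0, 7, 8, 0, 5], [2, 0, 0, 0, 8, 0, 0, 0, 0, 0, 0], [0, 0, 6, 1, 0, 0, 0, 0, 0, 0, 0], [1, 0, 0, 7, 2, 0, 0, 0, 0, 0, 0], [0, 3, 8, 0, 5, 0, 0, 0, 0, 0, 0], [0, 4, 3, 6, 0, 0, 0, 0, 0, 0, 0], [0, 5, 0, 4, 7, 0, 0, 0, 0, 0, 0]]

def hN (u v : Fin 11) : Fin 11 := (hNt.getD u.1 []).getD v.1 0
def hF (u v : Fin 11) : Fin 9 := (hFt.getD u.1 []).getD v.1 0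

lemma hAdj_symm : ∀ u v : Fin 11, hAdj u v = true → hAdj v u = true := by decide +kernel
lemma hAdj_irrefl : ∀ u : Fin 11, ¬ hAdj u u = true := by decide +kernel

/-- The Herschel graph. -/
def herschel : SimpleGraph (Fin 11) where
  Adj u v := hAdj u v = true
  symm := ⟨hAdj_symm⟩
  loopless := ⟨hAdj_irrefl⟩

instance : DecidableRel herschel.Adj := fun u v => inferInstanceAs (Decidable (hAdj u v = true))

lemma hN_adj : ∀ u v : Fin 11, hAdj u v = true → hAdj u (hN u v) = true := by decide +kernel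
lemma hN_inj : ∀ u v w : Fin 11, hAdj u v = true → hAdj u w = true → hN u v = hN u w → v = w := by
  decide +kernel
lemma hN_cycle : ∀ u v w : Fin 11, hAdj u v = true → hAdj u w = true →
    w = v ∨ w = hN u v ∨ w = hN u (hN u v) ∨ w = hN u (hN u (hN u v)) := by
  decide +kernel
lemma hF_corner : ∀ u v : Fin 11, hAdj u v = true → hF u v = hF (hN u v) u := by decide +kernel
lemma hF_surj : ∀ f : Fin 9, ∃ u v : Fin 11, hAdj u v = true ∧ hF u v = f := by decide +kernel

/-- the planar rotation system of the Herschel graph -/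
noncomputable def hRot : Equiv.Perm herschel.Dart :=
  Equiv.ofBijective (fun d => (⟨(d.fst, hN d.fst d.snd), hN_adj _ _ d.adj⟩ : herschel.Dart)) (by
    rw [← Finite.injective_iff_bijective]
    intro d e hde
    have h0 : (⟨(d.fst, hN d.fst d.snd), hN_adj _ _ d.adj⟩ : herschel.Dart) =
      ⟨(e.fst, hN e.fst e.snd), hN_adj _ _ e.adj⟩ := hde
    have h1 := congrArg (fun x : herschel.Dart => x.fst) h0
    have h2 := congrArg (fun x : herschel.Dart => x.snd) h0
    change d.fst = e.fst at h1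
    change hN d.fst d.snd = hN e.fst e.snd at h2
    rw [← h1] at h2
    have he : hAdj d.fst e.snd = true := by rw [h1]; exact e.adj
    have h3 := hN_inj _ _ _ d.adj he h2
    apply Dart.ext
    exact Prod.ext h1 h3)

lemma hRot_fst (d : herschel.Dart) : (hRot d).fst = d.fst := rfl
lemma hRot_snd (d : herschel.Dart) : (hRot d).snd = hN d.fst d.snd := rfl

lemma hRot_isRotation : IsRotation herschel hRot := by
  refine ⟨hRot_fst, ?_⟩
  intro d e hde
  have he : hAdj d.fst e.snd = true := by rw [hde]; exact e.adj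
  have key : ∀ n : ℕ, ((hRot ^ n) d).fst = d.fst := by
    intro n
    induction n with
    | zero => rfl
    | succ n ih => rw [pow_succ', Equiv.Perm.mul_apply, hRot_fst, ih]
  have hext : ∀ n : ℕ, ((hRot ^ n) d).snd = e.snd → hRot.SameCycle d e := by
    intro n hn
    refine ⟨n, ?_⟩
    rw [zpow_natCast]
    apply Dart.ext
    exact Prod.ext ((key n).trans hde) hn
  rcases hN_cycle _ _ _ d.adj he with h | h | h | h
  · exact hext 0 h.symm
  · exact hext 1 (by rw [pow_one, hRot_snd]; exact h.symm)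
  · exact hext 2 (by
      rw [pow_two, Equiv.Perm.mul_apply, hRot_snd, hRot_snd, hRot_fst]; exact h.symm)
  · exact hext 3 (by
      rw [pow_succ', pow_two, Equiv.Perm.mul_apply, Equiv.Perm.mul_apply, hRot_snd, hRot_snd,
        hRot_snd, hRot_fst, hRot_fst]
      exact h.symm)

/-! ### connectivity by a breadth-first search on bit masks -/

def nb (cur : ℕ) : ℕ → ℕ
  | 0 => 0
  | n + 1 => (if cur.testBit n then hRow n else 0) ||| nb cur n

def bstep (al cur : ℕ) : ℕ := cur ||| (nb cur 11 &&& al)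

def bfs (al cur : ℕ) : ℕ → ℕ
  | 0 => cur
  | n + 1 => bfs al (bstep al cur) n

lemma nb_spec (cur : ℕ) : ∀ n j, (nb cur n).testBit j = true →
    ∃ i, i < n ∧ cur.testBit i = true ∧ (hRow i).testBit j = true := by
  intro n
  induction n with
  | zero => intro j h; simp [nb] at h
  | succ n ih =>
    intro j h
    rw [nb, Nat.testBit_lor, Bool.or_eq_true] at h
    rcases h with h | h
    · by_cases hc : cur.testBit n = true
      · rw [if_pos hc] at h
        exact ⟨n, by omega, hc, h⟩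
      · rw [if_neg hc] at h
        simp at h
    · obtain ⟨i, hi, h1, h2⟩ := ih j h
      exact ⟨i, by omega, h1, h2⟩

lemma bfs_spec (S : Set (Fin 11)) (al : ℕ) (hal : ∀ j : Fin 11, al.testBit j.1 = true → j ∉ S)
    (hal' : ∀ j, al.testBit j = true → j < 11) (x : (Sᶜ : Set (Fin 11))) :
    ∀ n cur, (∀ j, cur.testBit j = true → ∃ hj : j < 11, ∃ hS : (⟨j, hj⟩ : Fin 11) ∉ S,
      (herschel.induce Sᶜ).Reachable x ⟨⟨j, hj⟩, hS⟩) →
    ∀ j, (bfs al cur n).testBit j = true → ∃ hj : j < 11, ∃ hS : (⟨j, hj⟩ : Fin 11) ∉ S,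
      (herschel.induce Sᶜ).Reachable x ⟨⟨j, hj⟩, hS⟩ := by
  intro n
  induction n with
  | zero => intro cur h j hj; exact h j hj
  | succ n ih =>
    intro cur h
    apply ih
    intro j hj
    rw [bstep, Nat.testBit_lor, Bool.or_eq_true, Nat.testBit_land, Bool.and_eq_true] at hj
    rcases hj with hj | ⟨hj1, hj2⟩
    · exact h j hj
    · obtain ⟨i, hi, h1, h2⟩ := nb_spec _ _ _ hj1
      obtain ⟨hi', hiS, hr⟩ := h i h1
      have hj11 := hal' j hj2
      have hjS := hal ⟨j, hj11⟩ hj2
      refine ⟨hj11, hjS, hr.trans (Adj.reachable ?_)⟩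
      exact h2

def amask (a b : Fin 11) : ℕ := 2047 - (if a = b then 2 ^ a.1 else 2 ^ a.1 + 2 ^ b.1)

def sroot (a b : Fin 11) : ℕ :=
  if a.1 ≠ 0 ∧ b.1 ≠ 0 then 0 else if a.1 ≠ 1 ∧ b.1 ≠ 1 then 1 else 2

lemma amask_spec1 : ∀ a b : Fin 11, ∀ j : Fin 11, (amask a b).testBit j.1 = true → j ≠ a ∧ j ≠ b := by
  decide +kernel
lemma amask_lt : ∀ a b : Fin 11, amask a b < 2 ^ 11 := by decide +kernel
lemma sroot_spec : ∀ a b : Fin 11, sroot a b < 11 ∧ sroot a b ≠ a.1 ∧ sroot a b ≠ b.1 := by
  decide +kernel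
lemma bfs_check : ∀ a b : Fin 11, ∀ j : Fin 11, j ≠ a → j ≠ b →
    (bfs (amask a b) (2 ^ sroot a b) 5).testBit j.1 = true := by
  decide +kernel
lemma bfs_check0 : ∀ j : Fin 11, (bfs 2047 1 5).testBit j.1 = true := by decide +kernel

lemma connected_pair (a b : Fin 11) :
    (herschel.induce ({a, b} : Set (Fin 11))ᶜ).Connected := by
  obtain ⟨h1, h2, h3⟩ := sroot_spec a b
  have hr : (⟨sroot a b, h1⟩ : Fin 11) ∈ ({a, b} : Set (Fin 11))ᶜ := by
    simp only [Set.mem_compl_iff, Set.mem_insert_iff, Set.mem_singleton_iff, not_or]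
    exact ⟨fun h => h2 (congrArg Fin.val h), fun h => h3 (congrArg Fin.val h)⟩
  have key : ∀ y : (({a, b} : Set (Fin 11))ᶜ : Set (Fin 11)),
      (herschel.induce ({a, b} : Set (Fin 11))ᶜ).Reachable ⟨_, hr⟩ y := by
    rintro ⟨y, hy⟩
    have hy' : y ≠ a ∧ y ≠ b := by
      simp only [Set.mem_compl_iff, Set.mem_insert_iff, Set.mem_singleton_iff, not_or] at hy
      exact hy
    obtain ⟨hj, hS, h⟩ := bfs_spec ({a, b} : Set (Fin 11)) (amask a b) (by
        intro j hj
        have := amask_spec1 a b j hj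
        simp only [Set.mem_insert_iff, Set.mem_singleton_iff, not_or]
        exact this) (by
        intro j hj
        by_contra hcon
        have : amask a b < 2 ^ j := lt_of_lt_of_le (amask_lt a b)
          (Nat.pow_le_pow_right (by norm_num) (by omega))
        rw [Nat.testBit_lt_two_pow this] at hj
        exact absurd hj (by decide)) ⟨_, hr⟩ 5 (2 ^ sroot a b) (by
        intro j hj
        rw [Nat.testBit_two_pow] at hj
        have hj' : sroot a b = j := by simpa using hj
        subst hj'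
        exact ⟨h1, hr, Reachable.refl _⟩) y.1 (bfs_check a b y hy'.1 hy'.2)
    exact h
  have : Nonempty (({a, b} : Set (Fin 11))ᶜ : Set (Fin 11)) := ⟨⟨_, hr⟩⟩
  exact ⟨fun x y => (key x).symm.trans (key y)⟩

lemma connected_empty : (herschel.induce (∅ : Set (Fin 11))ᶜ).Connected := by
  have hr : (0 : Fin 11) ∈ (∅ : Set (Fin 11))ᶜ := by simp
  have key : ∀ y : ((∅ : Set (Fin 11))ᶜ : Set (Fin 11)),
      (herschel.induce (∅ : Set (Fin 11))ᶜ).Reachable ⟨_, hr⟩ y := by
    rintro ⟨y, hy⟩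
    obtain ⟨hj, hS, h⟩ := bfs_spec (∅ : Set (Fin 11)) 2047 (by simp) (by
        intro j hj
        by_contra hcon
        have : 2047 < 2 ^ j := lt_of_lt_of_le (show 2047 < 2 ^ 11 by norm_num)
          (Nat.pow_le_pow_right (by norm_num) (by omega))
        rw [Nat.testBit_lt_two_pow this] at hj
        exact absurd hj (by decide)) ⟨_, hr⟩ 5 1 (by
        intro j hj
        rw [Nat.testBit_one_eq_true_iff_self_eq_zero] at hj
        subst hj
        exact ⟨by norm_num, by simp, Reachable.refl _⟩) y.1 (bfs_check0 y)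
    exact h
  have : Nonempty ((∅ : Set (Fin 11))ᶜ : Set (Fin 11)) := ⟨⟨_, hr⟩⟩
  exact ⟨fun x y => (key x).symm.trans (key y)⟩

lemma herschel_kConnected : KConnected herschel 3 := by
  constructor
  · rw [Nat.card_fin]; norm_num
  · intro S hS
    have h : S = ∅ ∨ ∃ a b, S = {a, b} := by
      have h3 : S.ncard = 0 ∨ S.ncard = 1 ∨ S.ncard = 2 := by omega
      rcases h3 with h | h | h
      · left; exact (Set.ncard_eq_zero (Set.toFinite _)).1 h
      · obtain ⟨a, rfl⟩ := Set.ncard_eq_one.1 h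
        exact Or.inr ⟨a, a, by simp⟩
      · obtain ⟨a, b, _, rfl⟩ := Set.ncard_eq_two.1 h
        exact Or.inr ⟨a, b, rfl⟩
    rcases h with rfl | ⟨a, b, rfl⟩
    · exact connected_empty
    · exact connected_pair a b

lemma herschel_no_twoFactor : ¬ HasTwoFactor herschel := by
  apply no_twoFactor_of_coloring (fun v => decide (v.1 < 5))
  · have : ∀ u v : Fin 11, hAdj u v = true → decide (u.1 < 5) ≠ decide (v.1 < 5) := by
      decide +kernel
    exact this
  · decide +kernel

lemma herschel_faces : 9 ≤ Nat.card (Quot (SameFace herschel hRot (fun _ => false))) := by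
  have h := faces_ge (G := herschel) (rot := hRot) (tw := fun _ => false) (X := Fin 9)
    (fun x => if x.2 = true then hF x.1.fst x.1.snd else hF x.1.snd x.1.fst) (by
      intro d
      simp only [if_true, Bool.false_eq_true, if_false]
      rw [hRot_fst, hRot_snd]
      exact hF_corner _ _ d.adj) (by
      intro d b
      cases b <;> simp [Dart.symm]) (by
      intro f
      obtain ⟨u, v, huv, hf⟩ := hF_surj f
      exact ⟨(⟨(u, v), huv⟩, true), by simpa using hf⟩)
  rwa [Nat.card_fin] at h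

lemma herschel_edges : Nat.card herschel.edgeSet = 18 := by
  have h1 := herschel.sum_degrees_eq_twice_card_edges
  have h2 : ∑ v, herschel.degree v = 36 := by decide +kernel
  rw [h2] at h1
  rw [Nat.card_eq_fintype_card, ← edgeFinset_card]
  omega

lemma herschel_planar : EmbedsOrientable herschel 0 := by
  refine ⟨hRot, hRot_isRotation, ?_⟩
  have hconn : herschel.Connected := by
    have h1 := connected_empty
    have e : (herschel.induce (∅ : Set (Fin 11))ᶜ) ≃g herschel := by
      refine ⟨⟨fun x => x.1, fun x => ⟨x, by simp⟩, fun x => rfl, fun x => rfl⟩, ?_⟩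
      intro a b
      rfl
    exact e.connected_iff.1 h1
  have h1 : Nat.card herschel.ConnectedComponent = 1 := by
    rw [Nat.card_eq_one_iff_unique]
    exact ⟨hconn.preconnected.subsingleton_connectedComponent,
      ⟨herschel.connectedComponentMk 0⟩⟩
  have h2 := herschel_faces
  unfold eulerGenus numFaces
  rw [h1, herschel_edges, Nat.card_fin]
  push_cast
  omega

end Pool.Agent.Helper96.TwoFactor
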