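import Pool.Agent.Helper96.TwoFactor.Defs

namespace Pool.Agent.Helper96.TwoFactor

open SimpleGraph

variable {A B : Type}

/-- The complete bipartite graph. -/
abbrev KB (A B : Type) : SimpleGraph (A ⊕ B) := completeBipartiteGraph A B

def dAB (a : A) (b : B) : (KB A B).Dart := ⟨(Sum.inl a, Sum.inr b), by simp⟩
def dBA (b : B) (a : A) : (KB A B).Dart := ⟨(Sum.inr b, Sum.inl a), by simp⟩

@[simp] lemma dAB_symm (a : A) (b : B) : (dAB a b).symm = dBA b a := rfl
@[simp] lemma dBA_symm (a : A) (b : B) : (dBA b a).symm = dAB a b := rfl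

lemma dart_cases (d : (KB A B).Dart) : (∃ a b, d = dAB a b) ∨ (∃ b a, d = dBA b a) := by
  obtain ⟨⟨x, y⟩, h⟩ := d
  rcases x with a | b <;> rcases y with a' | b'
  · simp at h
  · exact Or.inl ⟨a, b', rfl⟩
  · exact Or.inr ⟨b, a', rfl⟩
  · simp at h

/-- darts of the complete bipartite graph -/
noncomputable def dartE : (A × B) ⊕ (A × B) ≃ (KB A B).Dart :=
  Equiv.ofBijective (fun x =>
    match x with
    | Sum.inl p => dAB p.1 p.2
    | Sum.inr p => dBA p.2 p.1) (by
    constructor
    · rintro (⟨a, b⟩ | ⟨a, b⟩) (⟨a', b'⟩ | ⟨a', b'⟩) h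
      · simp only [dAB, Dart.mk.injEq, Prod.mk.injEq, Sum.inl.injEq, Sum.inr.injEq] at h
        simp [h.1, h.2]
      · simp [dAB, dBA] at h
      · simp [dAB, dBA] at h
      · simp only [dBA, Dart.mk.injEq, Prod.mk.injEq, Sum.inl.injEq, Sum.inr.injEq] at h
        simp [h.1, h.2]
    · intro d
      rcases dart_cases d with ⟨a, b, rfl⟩ | ⟨b, a, rfl⟩
      · exact ⟨Sum.inl (a, b), rfl⟩
      · exact ⟨Sum.inr (a, b), rfl⟩)

lemma dartE_inl (a : A) (b : B) : dartE (Sum.inl (a, b)) = dAB a b := rfl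
lemma dartE_inr (a : A) (b : B) : dartE (Sum.inr (a, b)) = dBA b a := rfl

/-- the rotation system given by the local rotations -/
noncomputable def kbRot (ρ : A → Equiv.Perm B) (σ : B → Equiv.Perm A) :
    Equiv.Perm (KB A B).Dart :=
  dartE.permCongr (Equiv.sumCongr (Equiv.prodShear (Equiv.refl A) ρ)
    ((Equiv.prodComm A B).trans ((Equiv.prodShear (Equiv.refl B) σ).trans (Equiv.prodComm B A))))

lemma kbRot_AB (ρ : A → Equiv.Perm B) (σ : B → Equiv.Perm A) (a : A) (b : B) :
    kbRot ρ σ (dAB a b) = dAB a (ρ a b) := by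
  rw [← dartE_inl, kbRot, Equiv.permCongr_apply, Equiv.symm_apply_apply]
  rfl

lemma kbRot_BA (ρ : A → Equiv.Perm B) (σ : B → Equiv.Perm A) (a : A) (b : B) :
    kbRot ρ σ (dBA b a) = dBA b (σ b a) := by
  rw [← dartE_inr, kbRot, Equiv.permCongr_apply, Equiv.symm_apply_apply]
  rfl

lemma kbRot_isRotation [Finite A] [Finite B] (ρ : A → Equiv.Perm B) (σ : B → Equiv.Perm A)
    (hρ : ∀ a b b', (ρ a).SameCycle b b') (hσ : ∀ b a a', (σ b).SameCycle a a') :
    IsRotation (KB A B) (kbRot ρ σ) := by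
  constructor
  · intro d
    rcases dart_cases d with ⟨a, b, rfl⟩ | ⟨b, a, rfl⟩
    · rw [kbRot_AB]; rfl
    · rw [kbRot_BA]; rfl
  · intro d e hde
    rcases dart_cases d with ⟨a, b, rfl⟩ | ⟨b, a, rfl⟩
    · rcases dart_cases e with ⟨a', b', rfl⟩ | ⟨b', a', rfl⟩
      · have : a = a' := by simpa [dAB] using hde
        subst this
        obtain ⟨n, hn⟩ := (hρ a b b').exists_nat_pow_eq
        refine ⟨n, ?_⟩
        rw [zpow_natCast, ← hn]
        clear hn hde
        induction n with
        | zero => rfl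
        | succ n ih => rw [pow_succ', Equiv.Perm.mul_apply, ih, kbRot_AB, pow_succ',
            Equiv.Perm.mul_apply]
      · simp [dAB, dBA] at hde
    · rcases dart_cases e with ⟨a', b', rfl⟩ | ⟨b', a', rfl⟩
      · simp [dAB, dBA] at hde
      · have : b = b' := by simpa [dBA] using hde
        subst this
        obtain ⟨n, hn⟩ := (hσ b a a').exists_nat_pow_eq
        refine ⟨n, ?_⟩
        rw [zpow_natCast, ← hn]
        clear hn hde
        induction n with
        | zero => rfl
        | succ n ih => rw [pow_succ', Equiv.Perm.mul_apply, ih, kbRot_BA, pow_succ',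
            Equiv.Perm.mul_apply]

lemma kb_connected [Nonempty A] [Nonempty B] : (KB A B).Connected := by
  obtain ⟨a0⟩ := ‹Nonempty A›
  obtain ⟨b0⟩ := ‹Nonempty B›
  have h1 : ∀ x : A ⊕ B, (KB A B).Reachable x (Sum.inl a0) := by
    rintro (a | b)
    · have e1 : (KB A B).Adj (Sum.inl a) (Sum.inr b0) := by simp
      have e2 : (KB A B).Adj (Sum.inr b0) (Sum.inl a0) := by simp
      exact e1.reachable.trans e2.reachable
    · have e2 : (KB A B).Adj (Sum.inr b) (Sum.inl a0) := by simp
      exact e2.reachable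
  have : Nonempty (A ⊕ B) := ⟨Sum.inl a0⟩
  exact ⟨fun x y => (h1 x).trans (h1 y).symm⟩

lemma eulerGenus_KB [Finite A] [Finite B] [Nonempty A] [Nonempty B]
    (rot : Equiv.Perm (KB A B).Dart) (tw : Sym2 (A ⊕ B) → Bool) :
    eulerGenus (KB A B) rot tw = 2 - ((Nat.card A : ℤ) + Nat.card B - Nat.card A * Nat.card B +
      Nat.card (Quot (SameFace (KB A B) rot tw))) := by
  have h1 : Nat.card (KB A B).ConnectedComponent = 1 := by
    rw [Nat.card_eq_one_iff_unique]
    have hc := kb_connected (A := A) (B := B)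
    refine ⟨hc.preconnected.subsingleton_connectedComponent, ?_⟩
    obtain ⟨a0⟩ := ‹Nonempty A›
    exact ⟨(KB A B).connectedComponentMk (Sum.inl a0)⟩
  have h2 : Nat.card (KB A B).edgeSet = Nat.card A * Nat.card B := by
    rw [edgeSet_completeBipartiteGraph, Nat.card_range_of_injective, Nat.card_prod]
    intro x y h
    simp only [Sym2.eq_iff, Sum.inl.injEq, Sum.inr.injEq, reduceCtorEq, and_self, or_false] at h
    exact Prod.ext h.1 h.2
  have h3 : Nat.card {v : A ⊕ B // ∀ w, ¬ (KB A B).Adj v w} = 0 := by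
    rw [Nat.card_eq_zero]
    left
    constructor
    rintro ⟨v, hv⟩
    obtain ⟨a0⟩ := ‹Nonempty A›
    obtain ⟨b0⟩ := ‹Nonempty B›
    rcases v with a | b
    · exact hv (Sum.inr b0) (by simp)
    · exact hv (Sum.inl a0) (by simp)
  unfold eulerGenus numFaces
  rw [h1, h2, h3, Nat.card_sum]
  push_cast
  ring

lemma faces_ge {V : Type} [Finite V] {G : SimpleGraph V} {rot : Equiv.Perm G.Dart}
    {tw : Sym2 V → Bool} {X : Type} (L : G.Dart × Bool → X)
    (hc : ∀ d, L (d, true) = L (rot d, false))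
    (ha : ∀ d b, L (d, b) = L (d.symm, xor (!b) (tw d.edge)))
    (hs : Function.Surjective L) :
    Nat.card X ≤ Nat.card (Quot (SameFace G rot tw)) := by
  let g : Quot (SameFace G rot tw) → X := Quot.lift L (by
    rintro x y (h | h)
    · exact hc _
    · exact ha _ _)
  have hg : Function.Surjective g := by
    intro x
    obtain ⟨y, hy⟩ := hs x
    exact ⟨Quot.mk _ y, hy⟩
  have hfd : Finite G.Dart := by
    classical
    have := Fintype.ofFinite V
    infer_instance
  exact Nat.card_le_card_of_surjective g hg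

/-- the signature given by `t` -/
def kbTw (t : A → B → Bool) : Sym2 (A ⊕ B) → Bool :=
  Sym2.lift ⟨fun x y =>
    match x, y with
    | Sum.inl a, Sum.inr b => t a b
    | Sum.inr b, Sum.inl a => t a b
    | _, _ => false, by
      rintro (a | b) (a' | b') <;> rfl⟩

@[simp] lemma kbTw_AB (t : A → B → Bool) (a : A) (b : B) : kbTw t (dAB a b).edge = t a b := rfl
@[simp] lemma kbTw_BA (t : A → B → Bool) (a : A) (b : B) : kbTw t (dBA b a).edge = t a b := rfl

/-- `K_{m,n}` is `min m n`-connected. -/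
lemma kb_kConnected (m n k : ℕ) (hm : k ≤ m) (hn : k ≤ n) (hk : 1 ≤ k) :
    KConnected (KB (Fin m) (Fin n)) k := by
  classical
  constructor
  · rw [Nat.card_sum, Nat.card_fin, Nat.card_fin]; omega
  · intro S hS
    have hA : ∃ a : Fin m, Sum.inl a ∉ S := by
      by_contra hcon
      push Not at hcon
      have h1 : Set.range (Sum.inl : Fin m → Fin m ⊕ Fin n) ⊆ S := by
        rintro _ ⟨a, rfl⟩; exact hcon a
      have h2 := Set.ncard_le_ncard h1 (Set.toFinite _)
      rw [← Set.image_univ, Set.ncard_image_of_injective _ Sum.inl_injective, Set.ncard_univ,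
        Nat.card_fin] at h2
      omega
    have hB : ∃ b : Fin n, Sum.inr b ∉ S := by
      by_contra hcon
      push Not at hcon
      have h1 : Set.range (Sum.inr : Fin n → Fin m ⊕ Fin n) ⊆ S := by
        rintro _ ⟨a, rfl⟩; exact hcon a
      have h2 := Set.ncard_le_ncard h1 (Set.toFinite _)
      rw [← Set.image_univ, Set.ncard_image_of_injective _ Sum.inr_injective, Set.ncard_univ,
        Nat.card_fin] at h2
      omega
    obtain ⟨a0, ha0⟩ := hA
    obtain ⟨b0, hb0⟩ := hB
    have h1 : ∀ x : (Sᶜ : Set (Fin m ⊕ Fin n)),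
        ((KB (Fin m) (Fin n)).induce Sᶜ).Reachable x ⟨Sum.inl a0, ha0⟩ := by
      rintro ⟨a | b, hx⟩
      · have e1 : ((KB (Fin m) (Fin n)).induce Sᶜ).Adj ⟨Sum.inl a, hx⟩ ⟨Sum.inr b0, hb0⟩ := by
          simp
        have e2 : ((KB (Fin m) (Fin n)).induce Sᶜ).Adj ⟨Sum.inr b0, hb0⟩ ⟨Sum.inl a0, ha0⟩ := by
          simp
        exact e1.reachable.trans e2.reachable
      · have e2 : ((KB (Fin m) (Fin n)).induce Sᶜ).Adj ⟨Sum.inr b, hx⟩ ⟨Sum.inl a0, ha0⟩ := by
          simp
        exact e2.reachable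
    have : Nonempty (Sᶜ : Set (Fin m ⊕ Fin n)) := ⟨⟨Sum.inl a0, ha0⟩⟩
    exact ⟨fun x y => (h1 x).trans (h1 y).symm⟩

/-- `K_{m,n}` with `m ≠ n` has no 2-factor. -/
lemma kb_no_twoFactor (m n : ℕ) (h : m ≠ n) : ¬ HasTwoFactor (KB (Fin m) (Fin n)) := by
  classical
  rintro ⟨H, hle, hdeg⟩
  have h1 : ∀ a : Fin m, (Finset.univ.filter (fun b : Fin n =>
      H.Adj (Sum.inl a) (Sum.inr b))).card = 2 := by
    intro a
    rw [← hdeg (Sum.inl a), Set.ncard_eq_toFinset_card _ (Set.toFinite _)]
    apply Finset.card_bij (fun b _ => Sum.inr b)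
    · intro b hb
      rw [Finset.mem_filter] at hb
      rw [Set.Finite.mem_toFinset]
      exact hb.2
    · intro b _ b' _ hbb
      exact Sum.inr_injective hbb
    · intro y hy
      rw [Set.Finite.mem_toFinset] at hy
      have hy' : H.Adj (Sum.inl a) y := hy
      rcases y with a' | b
      · have := hle hy'
        simp at this
      · exact ⟨b, by simp [hy'], rfl⟩
  have h2 : ∀ b : Fin n, (Finset.univ.filter (fun a : Fin m =>
      H.Adj (Sum.inl a) (Sum.inr b))).card = 2 := by
    intro b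
    rw [← hdeg (Sum.inr b), Set.ncard_eq_toFinset_card _ (Set.toFinite _)]
    apply Finset.card_bij (fun a _ => Sum.inl a)
    · intro a ha
      rw [Finset.mem_filter] at ha
      rw [Set.Finite.mem_toFinset]
      exact ha.2.symm
    · intro b _ b' _ hbb
      exact Sum.inl_injective hbb
    · intro y hy
      rw [Set.Finite.mem_toFinset] at hy
      have hy' : H.Adj (Sum.inr b) y := hy
      rcases y with a | b'
      · exact ⟨a, by simp [hy'.symm], rfl⟩
      · have := hle hy'
        simp at this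
  have h3 : ∑ a : Fin m, (Finset.univ.filter (fun b : Fin n =>
      H.Adj (Sum.inl a) (Sum.inr b))).card = ∑ b : Fin n, (Finset.univ.filter (fun a : Fin m =>
      H.Adj (Sum.inl a) (Sum.inr b))).card := by
    simp only [Finset.card_filter]
    rw [Finset.sum_comm]
  simp only [h1, h2, Finset.sum_const, Finset.card_univ, Fintype.card_fin, smul_eq_mul] at h3
  omega

end Pool.Agent.Helper96.TwoFactor
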