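import Pool.Agent.Helper96.TwoFactor.Embed

namespace Pool.Agent.Helper96.TwoFactor

open SimpleGraph

/-- local rotations at the odd side, nonorientable case -/
def rN (h a j : ℕ) : ℕ :=
  if a = 0 then
    if j = 2 * h - 1 then 0
    else if j = 0 then 2
    else if j % 2 = 1 then (if j = 2 * h - 3 then 2 * h - 1 else j + 3)
    else j - 1
  else if a = 1 then
    if j % 4 = 0 then j + 1
    else if j % 4 = 3 then j - 1
    else if j % 4 = 1 then
      (if j = 2 * h - 3 then 2 * h - 1 else if j = 2 * h - 1 then 2 * h - 3 else j + 3)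
    else (if j = 2 then 0 else j - 3)
  else (if j + 1 < 2 * h then j + 1 else 0)

lemma rN_lt {h a : ℕ} (hh : 2 ≤ h) : ∀ j, j < 2 * h → rN h a j < 2 * h := by
  intro j hj
  unfold rN
  split_ifs <;> omega

lemma rN_inj {h a : ℕ} (hh : 2 ≤ h) : ∀ x y, x < 2 * h → y < 2 * h →
    rN h a x = rN h a y → x = y := by
  intro x y hx hy hxy
  unfold rN at hxy
  by_cases h0 : a = 0
  · simp only [h0, if_true] at hxy
    split_ifs at hxy <;> omega
  · by_cases h1 : a = 1
    · simp only [h1, if_true, if_false, one_ne_zero] at hxy
      split_ifs at hxy <;> omega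
    · simp only [h0, h1, if_false] at hxy
      split_ifs at hxy <;> omega

/-- twist of the edge `a j` -/
def tN (h a j : ℕ) : Bool :=
  if a = 0 then decide (j = 0 ∨ (j % 2 = 1 ∧ j ≠ 2 * h - 1))
  else if a = 1 then decide (j % 4 = 0 ∨ j % 4 = 3)
  else decide ((a + j) % 2 = 1)

/-- representative of the face at level `a` at the vertex `j` -/
def labN (h a j : ℕ) : ℕ :=
  if a = 0 then
    if j % 2 = 0 then (if j = 2 then 0 else j)
    else (if j = 2 * h - 3 ∨ j = 2 * h - 1 then 2 else j + 3)
  else if j % 2 = 0 then j
  else if a % 2 = 1 then j - 1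
  else if j = 2 * h - 1 then 0 else j + 1

lemma labN_even {h a j : ℕ} (hh : 2 ≤ h) (hj : j < 2 * h) :
    labN h a j % 2 = 0 ∧ labN h a j < 2 * h := by
  unfold labN
  split_ifs <;> omega

lemma rN_zero (h j : ℕ) : rN h 0 j = if j = 2 * h - 1 then 0
    else if j = 0 then 2
    else if j % 2 = 1 then (if j = 2 * h - 3 then 2 * h - 1 else j + 3)
    else j - 1 := by
  unfold rN; rw [if_pos rfl]

lemma rN_one (h j : ℕ) : rN h 1 j = if j % 4 = 0 then j + 1
    else if j % 4 = 3 then j - 1
    else if j % 4 = 1 then
      (if j = 2 * h - 3 then 2 * h - 1 else if j = 2 * h - 1 then 2 * h - 3 else j + 3)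
    else (if j = 2 then 0 else j - 3) := by
  unfold rN; rw [if_neg (by omega), if_pos rfl]

lemma rN_big {a : ℕ} (h j : ℕ) (h0 : a ≠ 0) (h1 : a ≠ 1) :
    rN h a j = if j + 1 < 2 * h then j + 1 else 0 := by
  unfold rN; rw [if_neg h0, if_neg h1]

lemma tN_zero (h j : ℕ) : tN h 0 j = true ↔ (j = 0 ∨ (j % 2 = 1 ∧ j ≠ 2 * h - 1)) := by
  unfold tN; rw [if_pos rfl, decide_eq_true_eq]

lemma tN_one (h j : ℕ) : tN h 1 j = true ↔ (j % 4 = 0 ∨ j % 4 = 3) := by
  unfold tN; rw [if_neg (by omega), if_pos rfl, decide_eq_true_eq]

lemma tN_big {a : ℕ} (h j : ℕ) (h0 : a ≠ 0) (h1 : a ≠ 1) :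
    tN h a j = true ↔ (a + j) % 2 = 1 := by
  unfold tN; rw [if_neg h0, if_neg h1, decide_eq_true_eq]

lemma labN_zero (h j : ℕ) : labN h 0 j = if j % 2 = 0 then (if j = 2 then 0 else j)
    else (if j = 2 * h - 3 ∨ j = 2 * h - 1 then 2 else j + 3) := by
  unfold labN; rw [if_pos rfl]

lemma labN_odd {a : ℕ} (h j : ℕ) (ha : a % 2 = 1) : labN h a j =
    if j % 2 = 0 then j else j - 1 := by
  unfold labN; rw [if_neg (by omega), if_pos ha]

lemma labN_big {a : ℕ} (h j : ℕ) (h0 : a ≠ 0) (ha : a % 2 = 0) : labN h a j =
    if j % 2 = 0 then j else if j = 2 * h - 1 then 0 else j + 1 := by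
  unfold labN; rw [if_neg h0, if_neg (by omega : ¬ a % 2 = 1)]

lemma tN_alt' {h a j : ℕ} (hh : 2 ≤ h) (hj : j < 2 * h) :
    tN h a (rN h a j) = true ↔ ¬ (tN h a j = true) := by
  by_cases h0 : a = 0
  · subst h0
    rw [tN_zero, tN_zero, rN_zero]
    by_cases c1 : j = 2 * h - 1
    · rw [if_pos c1]
      omega
    · rw [if_neg c1]
      by_cases c2 : j = 0
      · rw [if_pos c2]
        omega
      · rw [if_neg c2]
        by_cases c3 : j % 2 = 1
        · rw [if_pos c3]
          by_cases c4 : j = 2 * h - 3
          · rw [if_pos c4]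
            omega
          · rw [if_neg c4]
            omega
        · rw [if_neg c3]
          omega
  · by_cases h1 : a = 1
    · subst h1
      rw [tN_one, tN_one, rN_one]
      split_ifs <;> omega
    · rw [tN_big _ _ h0 h1, tN_big _ _ h0 h1, rN_big _ _ h0 h1]
      split_ifs <;> omega

lemma tN_alt {h a j : ℕ} (hh : 2 ≤ h) (hj : j < 2 * h) :
    tN h a (rN h a j) = !tN h a j := by
  rw [Bool.eq_iff_iff, tN_alt' hh hj]
  simp

lemma labN_true {h a j : ℕ} (hh : 2 ≤ h) (hj : j < 2 * h) (ht : tN h a j = true) :
    labN h a j = labN h a (rN h a j) := by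
  by_cases h0 : a = 0
  · subst h0
    rw [tN_zero] at ht
    rw [labN_zero, labN_zero, rN_zero, if_neg (show ¬ j = 2 * h - 1 by omega)]
    rcases ht with ht | ht
    · subst ht
      simp
    · rw [if_neg (show ¬ j = 0 by omega), if_pos ht.1, if_neg (show ¬ j % 2 = 0 by omega)]
      by_cases h3 : j = 2 * h - 3
      · rw [if_pos h3, if_pos (Or.inl h3), if_neg (by omega), if_pos (Or.inr rfl)]
      · rw [if_neg h3, if_neg (by omega), if_pos (by omega), if_neg (by omega)]
  · by_cases h1 : a = 1
    · subst h1
      rw [tN_one] at ht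
      rw [labN_odd _ _ (by omega), labN_odd _ _ (by omega), rN_one]
      rcases ht with ht | ht
      · rw [if_pos ht, if_pos (show j % 2 = 0 by omega), if_neg (show ¬ (j + 1) % 2 = 0 by omega)]
        omega
      · rw [if_neg (show ¬ j % 4 = 0 by omega), if_pos ht, if_neg (show ¬ j % 2 = 0 by omega),
          if_pos (show (j - 1) % 2 = 0 by omega)]
    · rw [tN_big _ _ h0 h1] at ht
      rw [rN_big _ _ h0 h1]
      by_cases ha : a % 2 = 1
      · rw [labN_odd _ _ ha, labN_odd _ _ ha, if_pos (show j % 2 = 0 by omega),
          if_pos (show j + 1 < 2 * h by omega), if_neg (by omega)]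
        omega
      · rw [labN_big _ _ h0 (by omega), labN_big _ _ h0 (by omega),
          if_neg (show ¬ j % 2 = 0 by omega)]
        by_cases hlast : j = 2 * h - 1
        · rw [if_pos hlast, if_neg (show ¬ j + 1 < 2 * h by omega)]
          simp
        · rw [if_neg hlast, if_pos (show j + 1 < 2 * h by omega), if_pos (by omega)]

lemma labN_false {m h a j : ℕ} (hh : 2 ≤ h) (hj : j < 2 * h) (hm : m % 2 = 1) (hm3 : 3 ≤ m)
    (ht : tN h a j = false) :
    labN h (predF m a) j = labN h (predF m a) (rN h a j) := by
  have ht' : ¬ (tN h a j = true) := by rw [ht]; simp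
  by_cases h0 : a = 0
  · subst h0
    have hp : predF m 0 = m - 1 := by unfold predF; rw [if_pos rfl]
    rw [tN_zero] at ht'
    rw [hp, rN_zero, labN_big _ _ (by omega) (by omega), labN_big _ _ (by omega) (by omega)]
    by_cases hlast : j = 2 * h - 1
    · rw [if_pos hlast, if_neg (show ¬ j % 2 = 0 by omega), if_pos hlast]
      simp
    · simp only [if_neg hlast, if_neg (show ¬ j = 0 by omega),
        if_neg (show ¬ j % 2 = 1 by omega),
        if_pos (show j % 2 = 0 by omega), if_neg (show ¬ (j - 1) % 2 = 0 by omega),
        if_neg (show ¬ j - 1 = 2 * h - 1 by omega)]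
      omega
  · have hp : predF m a = a - 1 := by unfold predF; rw [if_neg h0]
    rw [hp]
    by_cases h1 : a = 1
    · subst h1
      rw [tN_one] at ht'
      rw [show 1 - 1 = 0 from rfl, labN_zero, labN_zero, rN_one,
        if_neg (show ¬ j % 4 = 0 by omega), if_neg (show ¬ j % 4 = 3 by omega)]
      by_cases c1 : j % 4 = 1
      · rw [if_pos c1, if_neg (show ¬ j % 2 = 0 by omega)]
        by_cases c2 : j = 2 * h - 3
        · rw [if_pos c2, if_pos (Or.inl c2), if_neg (by omega), if_pos (Or.inr rfl)]
        · rw [if_neg c2]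
          by_cases c3 : j = 2 * h - 1
          · rw [if_pos c3, if_pos (Or.inr c3), if_neg (by omega), if_pos (Or.inl rfl)]
          · rw [if_neg c3, if_neg (by omega), if_pos (by omega), if_neg (by omega)]
      · rw [if_neg c1, if_pos (show j % 2 = 0 by omega)]
        by_cases c2 : j = 2
        · rw [if_pos c2, if_pos c2]
          simp
        · rw [if_neg c2, if_neg c2, if_neg (by omega), if_neg (by omega)]
          omega
    · rw [tN_big _ _ h0 h1] at ht'
      rw [rN_big _ _ h0 h1]
      by_cases ha : a % 2 = 1
      · rw [labN_big _ _ (by omega) (by omega), labN_big _ _ (by omega) (by omega),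
          if_neg (show ¬ j % 2 = 0 by omega)]
        by_cases hlast : j = 2 * h - 1
        · rw [if_pos hlast, if_neg (show ¬ j + 1 < 2 * h by omega)]
          simp
        · rw [if_neg hlast, if_pos (show j + 1 < 2 * h by omega), if_pos (by omega)]
      · rw [labN_odd _ _ (by omega), labN_odd _ _ (by omega), if_pos (show j % 2 = 0 by omega),
          if_pos (show j + 1 < 2 * h by omega), if_neg (by omega)]
        omega

noncomputable def rNP (h a : ℕ) (hh : 2 ≤ h) : Equiv.Perm (Fin (2 * h)) :=
  mkPerm (rN h a) (rN_lt hh) (rN_inj hh)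

lemma rNP_step {h a : ℕ} (hh : 2 ≤ h) {x y : ℕ} (hx : x < 2 * h) (hy : y < 2 * h)
    (hxy : rN h a x = y) : (rNP h a hh).SameCycle ⟨x, hx⟩ ⟨y, hy⟩ :=
  sameCycle_step hx hy hxy

lemma rNP_sameCycle {h a : ℕ} (hh : 2 ≤ h) (b b' : Fin (2 * h)) :
    (rNP h a hh).SameCycle b b' := by
  have key : ∀ x (hx : x < 2 * h), (rNP h a hh).SameCycle ⟨0, by omega⟩ ⟨x, hx⟩ := by
    by_cases h0 : a = 0
    · subst h0
      intro x
      induction x using Nat.strong_induction_on with
      | _ x ih =>
        intro hx
        have s2 : (rNP h 0 hh).SameCycle ⟨0, by omega⟩ ⟨2, by omega⟩ :=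
          rNP_step hh _ _ (by unfold rN; rw [if_pos rfl, if_neg (by omega), if_pos rfl])
        by_cases hx0 : x = 0
        · subst hx0; exact Equiv.Perm.SameCycle.refl _ _
        · by_cases hx2 : x = 2
          · subst hx2; exact s2
          · by_cases hlast : x = 2 * h - 1
            · exact (rNP_step hh hx _ (by unfold rN; rw [if_pos rfl, if_pos hlast])).symm
            · by_cases hev : x % 2 = 0
              · refine (ih (x - 3) (by omega) (by omega)).trans (rNP_step hh _ _ ?_)
                unfold rN
                rw [if_pos rfl, if_neg (by omega), if_neg (by omega), if_pos (by omega),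
                  if_neg (by omega)]
                omega
              · by_cases hx1 : x = 1
                · subst hx1
                  refine s2.trans (rNP_step hh _ _ ?_)
                  unfold rN
                  rw [if_pos rfl, if_neg (by omega), if_neg (by omega), if_neg (by omega)]
                · have e1 : (rNP h 0 hh).SameCycle ⟨x - 2, by omega⟩ ⟨x + 1, by omega⟩ := by
                    apply rNP_step
                    unfold rN
                    rw [if_pos rfl, if_neg (by omega), if_neg (by omega), if_pos (by omega),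
                      if_neg (by omega)]
                    omega
                  have e2 : (rNP h 0 hh).SameCycle ⟨x + 1, by omega⟩ ⟨x, hx⟩ := by
                    apply rNP_step
                    unfold rN
                    rw [if_pos rfl, if_neg (by omega), if_neg (by omega), if_neg (by omega)]
                    omega
                  exact (ih (x - 2) (by omega) (by omega)).trans (e1.trans e2)
    · by_cases h1 : a = 1
      · subst h1
        intro x
        induction x using Nat.strong_induction_on with
        | _ x ih =>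
          intro hx
          by_cases hx0 : x = 0
          · subst hx0; exact Equiv.Perm.SameCycle.refl _ _
          · by_cases c0 : x % 4 = 0
            · refine (ih (x - 3) (by omega) (by omega)).trans (rNP_step hh _ _ ?_)
              unfold rN
              rw [if_neg h0, if_pos rfl, if_neg (by omega), if_neg (by omega),
                if_pos (by omega), if_neg (by omega), if_neg (by omega)]
              omega
            · by_cases c1 : x % 4 = 1
              · refine (ih (x - 1) (by omega) (by omega)).trans (rNP_step hh _ _ ?_)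
                unfold rN
                rw [if_neg h0, if_pos rfl, if_pos (by omega)]
                omega
              · by_cases c2 : x % 4 = 2
                · by_cases hx2 : x = 2
                  · refine (rNP_step hh hx _ ?_).symm
                    unfold rN
                    rw [if_neg h0, if_pos rfl, if_neg (by omega), if_neg (by omega),
                      if_neg (by omega), if_pos hx2]
                  · refine (ih (x - 3) (by omega) (by omega)).trans
                      (rNP_step hh hx (by omega) ?_).symm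
                    unfold rN
                    rw [if_neg h0, if_pos rfl, if_neg (by omega), if_neg (by omega),
                      if_neg (by omega), if_neg hx2]
                · refine (ih (x - 1) (by omega) (by omega)).trans
                    (rNP_step hh hx (by omega) ?_).symm
                  unfold rN
                  rw [if_neg h0, if_pos rfl, if_neg (by omega), if_pos (by omega)]
      · intro x
        induction x with
        | zero => intro hx; exact Equiv.Perm.SameCycle.refl _ _
        | succ x ih =>
          intro hx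
          refine (ih (by omega)).trans (rNP_step hh _ _ ?_)
          unfold rN
          rw [if_neg h0, if_neg h1, if_pos hx]
  exact (key b.1 b.2).symm.trans (key b'.1 b'.2)

theorem nonorientable_embedding (m h : ℕ) (hh : 2 ≤ h) (hm : m % 2 = 1) (hm3 : 3 ≤ m) (g : ℕ)
    (hg : (m - 2) * (h - 1) ≤ g) :
    EmbedsNonorientable (KB (Fin m) (Fin (2 * h))) g := by
  classical
  left
  set ρ : Fin m → Equiv.Perm (Fin (2 * h)) := fun a => rNP h a.1 hh with hρ
  set σ : Fin (2 * h) → Equiv.Perm (Fin m) := fun _ => cyc m with hσ
  set t : Fin m → Fin (2 * h) → Bool := fun a b => tN h a.1 b.1 with ht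
  refine ⟨kbRot ρ σ, kbTw t, kbRot_isRotation ρ σ (fun a b b' => rNP_sameCycle hh b b')
    (fun b a a' => cyc_sameCycle m a a'), ?_, ?_⟩
  · rintro ⟨o, ho⟩
    have k : ∀ (a : Fin m) (b : Fin (2 * h)), tN h a.1 b.1 = xor (o (Sum.inl a)) (o (Sum.inr b)) := by
      intro a b
      exact ho (dAB a b)
    have k1 := k ⟨1, by omega⟩ ⟨0, by omega⟩
    have k2 := k ⟨1, by omega⟩ ⟨2, by omega⟩
    have k3 := k ⟨2, by omega⟩ ⟨0, by omega⟩
    have k4 := k ⟨2, by omega⟩ ⟨2, by omega⟩
    have t1 : tN h 1 0 = true := by unfold tN; simp
    have t2 : tN h 1 2 = false := by unfold tN; simp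
    have t3 : tN h 2 0 = false := by unfold tN; simp
    have t4 : tN h 2 2 = false := by unfold tN; simp
    simp only at k1 k2 k3 k4
    rw [t1] at k1
    rw [t2] at k2
    rw [t3] at k3
    rw [t4] at k4
    revert k1 k2 k3 k4
    generalize o (Sum.inl ⟨1, _⟩) = x1
    generalize o (Sum.inl ⟨2, _⟩) = x2
    generalize o (Sum.inr ⟨0, _⟩) = x3
    generalize o (Sum.inr ⟨2, _⟩) = x4
    revert x1 x2 x3 x4
    decide
  · have hne1 : Nonempty (Fin m) := ⟨⟨0, by omega⟩⟩
    have hne2 : Nonempty (Fin (2 * h)) := ⟨⟨0, by omega⟩⟩
    let E : ∀ a : ℕ, a < m → Fin (2 * h) → Fin m × Fin h := fun a ha b =>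
      (⟨a, ha⟩, ⟨labN h a b.1 / 2, by
        have := (labN_even (a := a) hh b.2).2
        omega⟩)
    have hE : ∀ a ha a' ha' b b', a = a' → labN h a b.1 = labN h a b'.1 →
        E a ha b = E a' ha' b' := by
      intro a ha a' ha' b b' h1 h2
      subst h1
      apply Prod.ext
      · rfl
      · apply Fin.ext
        change labN h a b.1 / 2 = labN h a b'.1 / 2
        rw [h2]
    have hfaces := kb_faces_ge (X := Fin m × Fin h) ρ σ t
      (fun a b s => if t a b = s then E a.1 a.2 b else E (predF m a.1) (predF_lt a.2) b)
      (fun a b s => if s = true then E a.1 a.2 b else E (predF m a.1) (predF_lt a.2) b) (by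
        intro a b
        have hval : (ρ a b).1 = rN h a.1 b.1 := rfl
        have halt : t a (ρ a b) = !t a b := by
          change tN h a.1 (ρ a b).1 = !tN h a.1 b.1
          rw [hval]
          exact tN_alt hh b.2
        by_cases hb : t a b = true
        · rw [if_pos hb, if_pos (by rw [halt, hb]; rfl)]
          exact hE _ _ _ _ _ _ rfl (labN_true hh b.2 hb)
        · rw [if_neg hb, if_neg (by rw [halt]; simpa using hb)]
          exact hE _ _ _ _ _ _ rfl (labN_false hh b.2 hm hm3 (by simpa using hb))) (by
        intro a b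
        rw [if_pos rfl, if_neg (by simp)]
        apply hE
        · have : (σ b a).1 = cycF m a.1 := cyc_val m a
          rw [this, predF_cycF a.2]
        · rfl) (by
        intro a b s
        cases hb : t a b <;> cases s <;> simp) (by
        rintro ⟨a, i⟩
        by_cases hai : a.1 = 0 ∧ i.1 = 1
        · refine ⟨a, ⟨2 * h - 1, by omega⟩, t a ⟨2 * h - 1, by omega⟩, ?_⟩
          rw [if_pos rfl]
          apply Prod.ext
          · rfl
          · apply Fin.ext
            change labN h a.1 (2 * h - 1) / 2 = i.1
            unfold labN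
            rw [if_pos hai.1, if_neg (by omega), if_pos (Or.inr rfl), hai.2]
        · refine ⟨a, ⟨2 * i.1, by have := i.2; omega⟩, t a ⟨2 * i.1, by have := i.2; omega⟩, ?_⟩
          rw [if_pos rfl]
          apply Prod.ext
          · rfl
          · apply Fin.ext
            change labN h a.1 (2 * i.1) / 2 = i.1
            unfold labN
            by_cases ha0 : a.1 = 0
            · rw [if_pos ha0, if_pos (by omega), if_neg (by
                intro h2
                exact hai ⟨ha0, by omega⟩)]
              omega
            · rw [if_neg ha0, if_pos (by omega)]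
              omega)
    rw [Nat.card_prod, Nat.card_fin, Nat.card_fin] at hfaces
    rw [eulerGenus_KB, Nat.card_fin, Nat.card_fin]
    generalize Nat.card (Quot (SameFace (KB (Fin m) (Fin (2 * h))) (kbRot ρ σ)
      (kbTw t))) = Fc at hfaces ⊢
    obtain ⟨p, rfl⟩ : ∃ p, m = p + 2 := ⟨m - 2, by omega⟩
    obtain ⟨h', rfl⟩ : ∃ h', h = h' + 1 := ⟨h - 1, by omega⟩
    have e1 : p + 2 - 2 = p := by omega
    have e2 : h' + 1 - 1 = h' := by omega
    rw [e1, e2] at hg
    push_cast
    have hf' : (((p : ℤ) + 2) * (h' + 1)) ≤ Fc := by exact_mod_cast hfaces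
    have hg' : (p : ℤ) * h' ≤ g := by exact_mod_cast hg
    nlinarith

end Pool.Agent.Helper96.TwoFactor
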