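import Pool.Agent.Helper96.TwoFactor.Upper
import Pool.Agent.Helper96.TwoFactor.Nonori
import Pool.Agent.Helper96.TwoFactor.Herschel

namespace Pool.Agent.Helper96.TwoFactor

open SimpleGraph

variable {V : Type} {G : SimpleGraph V}

lemma KConnected.mono {k k' : ℕ} (hk : k' ≤ k) (h : KConnected G k) : KConnected G k' :=
  ⟨lt_of_le_of_lt hk h.1, fun S hS => h.2 S (lt_of_lt_of_le hS hk)⟩

lemma eulerGenus_of_kConnected [Finite V] {k : ℕ} (hk : 1 ≤ k) (h : KConnected G k)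
    (rot : Equiv.Perm G.Dart) (tw : Sym2 V → Bool) :
    eulerGenus G rot tw = 2 - ((Nat.card V : ℤ) - (Nat.card G.edgeSet : ℤ) +
      (Nat.card (Quot (SameFace G rot tw)) : ℤ)) := by
  have hconn : G.Connected := h.connected hk
  have h1 : Nat.card G.ConnectedComponent = 1 := by
    rw [Nat.card_eq_one_iff_unique]
    obtain ⟨v⟩ := hconn.nonempty
    exact ⟨hconn.preconnected.subsingleton_connectedComponent, ⟨G.connectedComponentMk v⟩⟩
  have h2 : Nat.card {v : V // ∀ w, ¬ G.Adj v w} = 0 := by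
    rw [Nat.card_eq_zero]
    left
    constructor
    rintro ⟨v, hv⟩
    have h3 := h.degree v
    have h4 : G.neighborSet v = ∅ := by
      ext w
      constructor
      · intro hw; exact absurd hw (hv w)
      · intro hw; exact hw.elim
    rw [h4, Set.ncard_empty] at h3
    omega
  unfold eulerGenus numFaces
  rw [h1, h2]
  push_cast
  ring

lemma upper_orientable [Finite V] {k g : ℕ} (hk : 4 ≤ k) (h : KConnected G k)
    (he : EmbedsOrientable G g) (hno : ¬ HasTwoFactor G) :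
    ((k : ℤ) - 1) * (k - 2) ≤ 4 * g := by
  obtain ⟨rot, hrot, hg⟩ := he
  rw [eulerGenus_of_kConnected (by omega) h] at hg
  have := upper_bound hk h hno hrot (fun _ => false)
  nlinarith

lemma upper_nonorientable [Finite V] {k g : ℕ} (hk : 4 ≤ k) (h : KConnected G k)
    (he : EmbedsNonorientable G g) (hno : ¬ HasTwoFactor G) :
    ((k : ℤ) - 1) * (k - 2) ≤ 2 * g := by
  rcases he with ⟨rot, tw, hrot, -, hg⟩ | ⟨rot, hrot, hg⟩
  · rw [eulerGenus_of_kConnected (by omega) h] at hg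
    have := upper_bound hk h hno hrot tw
    nlinarith
  · rw [eulerGenus_of_kConnected (by omega) h] at hg
    have := upper_bound hk h hno hrot (fun _ => false)
    nlinarith

lemma param {k : ℕ} (hk : 3 ≤ k) : ∃ m h : ℕ, 2 ≤ h ∧ m % 2 = 1 ∧ 3 ≤ m ∧ k ≤ m ∧ k ≤ 2 * h ∧
    m ≠ 2 * h ∧ 2 * ((m - 2) * (h - 1)) = (k - 1) * (k - 2) := by
  rcases Nat.even_or_odd' k with ⟨c, hc | hc⟩
  · refine ⟨2 * c + 1, c, by omega, by omega, by omega, by omega, by omega, by omega, ?_⟩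
    obtain ⟨d, rfl⟩ : ∃ d, c = d + 2 := ⟨c - 2, by omega⟩
    subst hc
    have e1 : 2 * (d + 2) + 1 - 2 = 2 * d + 3 := by omega
    have e2 : d + 2 - 1 = d + 1 := by omega
    have e3 : 2 * (d + 2) - 1 = 2 * d + 3 := by omega
    have e4 : 2 * (d + 2) - 2 = 2 * d + 2 := by omega
    rw [e1, e2, e3, e4]
    ring
  · refine ⟨2 * c + 1, c + 1, by omega, by omega, by omega, by omega, by omega, by omega, ?_⟩
    obtain ⟨d, rfl⟩ : ∃ d, c = d + 1 := ⟨c - 1, by omega⟩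
    subst hc
    have e1 : 2 * (d + 1) + 1 - 2 = 2 * d + 1 := by omega
    have e2 : d + 1 + 1 - 1 = d + 1 := by omega
    have e3 : 2 * (d + 1) + 1 - 1 = 2 * d + 2 := by omega
    rw [e1, e2, e3]
    ring

lemma lower_orientable {k g : ℕ} (hk : 3 ≤ k) (h : (k - 1) * (k - 2) ≤ 4 * g) :
    ∃ (V : Type) (_ : Finite V) (G : SimpleGraph V), KConnected G k ∧ EmbedsOrientable G g ∧
      ¬ HasTwoFactor G := by
  obtain ⟨m, c, hc, hm, hm3, hkm, hkc, hne, heq⟩ := param hk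
  refine ⟨Fin m ⊕ Fin (2 * c), inferInstance, KB (Fin m) (Fin (2 * c)),
    kb_kConnected m (2 * c) k hkm hkc (by omega), orientable_embedding m c hc hm hm3 g ?_,
    kb_no_twoFactor m (2 * c) hne⟩
  omega

lemma lower_nonorientable {k g : ℕ} (hk : 3 ≤ k) (h : (k - 1) * (k - 2) ≤ 2 * g) :
    ∃ (V : Type) (_ : Finite V) (G : SimpleGraph V), KConnected G k ∧ EmbedsNonorientable G g ∧
      ¬ HasTwoFactor G := by
  obtain ⟨m, c, hc, hm, hm3, hkm, hkc, hne, heq⟩ := param hk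
  refine ⟨Fin m ⊕ Fin (2 * c), inferInstance, KB (Fin m) (Fin (2 * c)),
    kb_kConnected m (2 * c) k hkm hkc (by omega), nonorientable_embedding m c hc hm hm3 g ?_,
    kb_no_twoFactor m (2 * c) hne⟩
  omega

lemma floor_spec (e : ℕ) (he : 1 ≤ e) :
    ∃ t : ℕ, ⌊(5 + √(1 + 8 * (e : ℝ))) / 2⌋₊ = t + 1 ∧ 3 ≤ t ∧ (t - 1) * (t - 2) ≤ 2 * e ∧
      2 * e < t * (t - 1) := by
  have he' : (1 : ℝ) ≤ e := by exact_mod_cast he
  have hs0 : 0 ≤ √(1 + 8 * (e : ℝ)) := Real.sqrt_nonneg _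
  have hs2 : √(1 + 8 * (e : ℝ)) ^ 2 = 1 + 8 * (e : ℝ) := Real.sq_sqrt (by positivity)
  have hs3 : 3 ≤ √(1 + 8 * (e : ℝ)) := by
    apply Real.le_sqrt_of_sq_le
    nlinarith
  set s := √(1 + 8 * (e : ℝ)) with hs
  have h4 : 4 ≤ ⌊(5 + s) / 2⌋₊ := by
    apply Nat.le_floor
    push_cast
    linarith
  obtain ⟨t, ht⟩ : ∃ t, ⌊(5 + s) / 2⌋₊ = t + 1 := ⟨⌊(5 + s) / 2⌋₊ - 1, by omega⟩
  have ht3 : 3 ≤ t := by omega
  have hlo : ((t : ℝ) + 1) ≤ (5 + s) / 2 := by
    have := Nat.floor_le (show 0 ≤ (5 + s) / 2 by positivity)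
    rw [ht] at this
    push_cast at this
    exact this
  have hhi : (5 + s) / 2 < (t : ℝ) + 2 := by
    have := Nat.lt_floor_add_one ((5 + s) / 2)
    rw [ht] at this
    push_cast at this
    linarith
  have ht3' : (3 : ℝ) ≤ t := by exact_mod_cast ht3
  refine ⟨t, ht, ht3, ?_, ?_⟩
  · obtain ⟨u, rfl⟩ : ∃ u, t = u + 2 := ⟨t - 2, by omega⟩
    have e1 : u + 2 - 1 = u + 1 := by omega
    have e2 : u + 2 - 2 = u := by omega
    rw [e1, e2]
    have : (((u + 1) * u : ℕ) : ℝ) ≤ ((2 * e : ℕ) : ℝ) := by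
      push_cast at hlo hhi ht3' ⊢
      have h5 : 2 * (u : ℝ) + 1 ≤ s := by linarith
      nlinarith
    exact_mod_cast this
  · obtain ⟨u, rfl⟩ : ∃ u, t = u + 2 := ⟨t - 2, by omega⟩
    have e1 : u + 2 - 1 = u + 1 := by omega
    rw [e1]
    have : ((2 * e : ℕ) : ℝ) < (((u + 2) * (u + 1) : ℕ) : ℝ) := by
      push_cast at hlo hhi ht3' ⊢
      have h5 : s < 2 * (u : ℝ) + 3 := by linarith
      nlinarith
    exact_mod_cast this

end Pool.Agent.Helper96.TwoFactor
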