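import Pool.Agent.Helper96.TwoFactor.Bound

namespace Pool.Agent.Helper96.TwoFactor

open SimpleGraph

variable {V : Type} {G : SimpleGraph V}

lemma KConnected.connected {k : ℕ} (hk : 1 ≤ k) (h : KConnected G k) : G.Connected := by
  have h1 := h.2 ∅ (by rw [Set.ncard_empty]; exact hk)
  have e : (G.induce (∅ : Set V)ᶜ) ≃g G := by
    refine ⟨⟨fun x => x.1, fun x => ⟨x, by simp⟩, fun x => rfl, fun x => rfl⟩, ?_⟩
    intro a b
    rfl
  exact e.connected_iff.1 h1

lemma off_reachable_of_induce {A : Set V} {x y : V} (hx : x ∉ A) (hy : y ∉ A)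
    (h : (G.induce Aᶜ).Connected) : (off G A).Reachable x y := by
  have h1 := h.preconnected ⟨x, hx⟩ ⟨y, hy⟩
  let f : (G.induce Aᶜ) →g (off G A) := ⟨fun a => a.1, fun {a b} hab => ⟨hab, a.2, b.2⟩⟩
  exact h1.map f

lemma KConnected.degree [Finite V] {k : ℕ} (h : KConnected G k) (v : V) :
    k ≤ (G.neighborSet v).ncard := by
  classical
  by_contra hcon
  push Not at hcon
  have h1 := h.2 (G.neighborSet v) hcon
  have hv : v ∉ G.neighborSet v := by simp
  have h2 : ∃ w, w ∉ G.neighborSet v ∧ w ≠ v := by
    by_contra hw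
    push Not at hw
    have h3 : (Set.univ : Set V) ⊆ insert v (G.neighborSet v) := by
      intro x _
      by_cases hx : x ∈ G.neighborSet v
      · exact Or.inr hx
      · exact Or.inl (hw x hx)
    have h4 := Set.ncard_le_ncard h3 (Set.toFinite _)
    have h5 := Set.ncard_insert_le v (G.neighborSet v)
    rw [Set.ncard_univ] at h4
    have h6 := h.1
    omega
  obtain ⟨w, hw, hwv⟩ := h2
  obtain ⟨p⟩ := off_reachable_of_induce hv hw h1
  cases p with
  | nil => exact hwv rfl
  | cons hadj _ => exact hadj.2.2 hadj.1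

theorem upper_bound [Finite V] {k : ℕ} (hk : 4 ≤ k) (hkc : KConnected G k)
    (hno : ¬ HasTwoFactor G) {rot : Equiv.Perm G.Dart} (hrot : IsRotation G rot)
    (tw : Sym2 V → Bool) :
    ((k : ℤ) - 4) * (k + 1) + 2 ≤ -2 * ((Nat.card V : ℤ) - (Nat.card G.edgeSet : ℤ) +
      (Nat.card (Quot (SameFace G rot tw)) : ℤ)) := by
  classical
  have := Fintype.ofFinite V
  have hconn : G.Connected := hkc.connected (by omega)
  have hdeg : ∀ u, ∃ w, G.Adj u w := by
    intro u
    have h1 := hkc.degree u
    have h2 : (G.neighborSet u).Nonempty := by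
      rw [Set.nonempty_iff_ne_empty]
      intro h
      rw [h, Set.ncard_empty] at h1
      omega
    exact h2
  obtain ⟨S, T, hdisj, hTind, hF1, hcount⟩ := exists_structure hdeg hno
  have hST : ∀ v, v ∈ S → v ∉ T := fun v h h' => (Set.disjoint_left.1 hdisj) h h'
  set A : Set V := S ∪ T with hA
  set mk : V → (off G A).ConnectedComponent := (off G A).connectedComponentMk with hmk
  have mk_eq : ∀ x y, mk x = mk y ↔ (off G A).Reachable x y := fun x y => ConnectedComponent.eq
  have mk_adj : ∀ x y, x ∉ A → y ∉ A → G.Adj x y → mk x = mk y := by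
    intro x y hx hy h
    rw [mk_eq]
    exact Adj.reachable ⟨h, hx, hy⟩
  -- another vertex of `T`
  have hT2 : ∀ v ∈ T, ∃ w ∈ T, w ≠ v := by
    intro v hv
    by_contra hcon
    push Not at hcon
    have hTv : T = {v} := by
      ext x
      constructor
      · intro hx; exact hcon x hx
      · intro hx; rw [Set.mem_singleton_iff] at hx; rw [hx]; exact hv
    rw [hTv, Set.ncard_singleton] at hcount
    have hS0 : S = ∅ := by
      rw [← Set.ncard_eq_zero (Set.toFinite _)]
      omega
    have hAv : A = {v} := by rw [hA, hS0, hTv, Set.empty_union]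
    have hd := hkc.degree v
    obtain ⟨u, u', hu, hu', hne⟩ := (Set.one_lt_ncard_iff (Set.toFinite _)).1
      (show 1 < (G.neighborSet v).ncard by omega)
    have huA : u ∉ A := by
      rw [hAv, Set.mem_singleton_iff]
      exact (G.ne_of_adj hu).symm
    have hu'A : u' ∉ A := by
      rw [hAv, Set.mem_singleton_iff]
      exact (G.ne_of_adj hu').symm
    have hc : (G.induce Aᶜ).Connected := hkc.2 A (by rw [hAv, Set.ncard_singleton]; omega)
    exact hne (hF1 v hv u u' huA hu'A hu hu' (off_reachable_of_induce huA hu'A hc))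
  have hTpos : 0 < T.ncard := by omega
  obtain ⟨t0, ht0⟩ : T.Nonempty := by
    rw [← Set.ncard_pos (Set.toFinite _)]
    exact hTpos
  -- index type
  let I := {v // v ∈ T} ⊕ ({v // v ∈ S} ⊕ {c // Multi G S T c})
  have hhome : ∀ c : (off G A).ConnectedComponent, ∃ i : I,
      (∀ h : Multi G S T c, i = Sum.inr (Sum.inr ⟨c, h⟩)) ∧
      (¬ Multi G S T c → (∃ u, u ∉ A ∧ mk u = c) →
        (∃ (v : V) (hv : v ∈ T), i = Sum.inl ⟨v, hv⟩ ∧ ∃ u, u ∉ A ∧ mk u = c ∧ G.Adj v u) ∨
        ((∃ (s : V) (hs : s ∈ S), i = Sum.inr (Sum.inl ⟨s, hs⟩) ∧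
          ∃ u, u ∉ A ∧ mk u = c ∧ G.Adj s u) ∧
          ∀ v ∈ T, ∀ u, u ∉ A → mk u = c → ¬ G.Adj v u)) := by
    intro c
    by_cases h : Multi G S T c
    · exact ⟨Sum.inr (Sum.inr ⟨c, h⟩), fun _ => rfl, fun h' => absurd h h'⟩
    · by_cases h2 : ∃ v, v ∈ T ∧ ∃ u, u ∉ A ∧ mk u = c ∧ G.Adj v u
      · obtain ⟨v, hv, hu⟩ := h2
        exact ⟨Sum.inl ⟨v, hv⟩, fun h' => absurd h' h, fun _ _ => Or.inl ⟨v, hv, rfl, hu⟩⟩
      · push Not at h2
        by_cases h3 : ∃ u, u ∉ A ∧ mk u = c
        · -- there is a neighbour in `S`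
          have h4 : ∃ s, s ∈ S ∧ ∃ u, u ∉ A ∧ mk u = c ∧ G.Adj s u := by
            by_contra hcon
            push Not at hcon
            obtain ⟨u, hu, huc⟩ := h3
            obtain ⟨p⟩ := hconn.preconnected u t0
            have key : ∀ a b : V, G.Walk a b → (a ∉ A ∧ mk a = c) → (b ∉ A ∧ mk b = c) := by
              intro a b w
              induction w with
              | nil => exact id
              | @cons a b c' hab w ih =>
                rintro ⟨ha1, ha2⟩
                apply ih
                have hb : b ∉ A := by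
                  rintro (hb | hb)
                  · exact hcon b hb a ha1 ha2 hab.symm
                  · exact h2 b hb a ha1 ha2 hab.symm
                exact ⟨hb, by rw [← ha2]; exact (mk_adj a b ha1 hb hab).symm⟩
            exact (key _ _ p ⟨hu, huc⟩).1 (Or.inr ht0)
          obtain ⟨s, hs, hu⟩ := h4
          refine ⟨Sum.inr (Sum.inl ⟨s, hs⟩), fun h' => absurd h' h, fun _ _ => Or.inr
            ⟨⟨s, hs, rfl, hu⟩, ?_⟩⟩
          intro v hv u hu1 hu2
          exact h2 v hv u hu1 hu2
        · exact ⟨Sum.inl ⟨t0, ht0⟩, fun h' => absurd h' h, fun _ h' => absurd h' h3⟩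
  choose home home1 home2 using hhome
  let β : V → I := fun v =>
    if h : v ∈ T then Sum.inl ⟨v, h⟩
    else if h' : v ∈ S then Sum.inr (Sum.inl ⟨v, h'⟩) else home (mk v)
  have βT : ∀ v (h : v ∈ T), β v = Sum.inl ⟨v, h⟩ := by
    intro v h
    simp only [β, h, dif_pos]
  have βS : ∀ v (h : v ∈ S), β v = Sum.inr (Sum.inl ⟨v, h⟩) := by
    intro v h
    simp only [β, hST v h, h, dif_pos, dif_neg, not_false_eq_true]
  have βR : ∀ v, v ∉ A → β v = home (mk v) := by
    intro v h
    have h1 : v ∉ T := fun h' => h (Or.inr h')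
    have h2 : v ∉ S := fun h' => h (Or.inl h')
    simp only [β, h1, h2, dif_neg, not_false_eq_true]
  -- a component with exactly one neighbour in `T`
  have home_T : ∀ v (hv : v ∈ T) u, u ∉ A → G.Adj v u → ¬ Multi G S T (mk u) →
      home (mk u) = Sum.inl ⟨v, hv⟩ := by
    intro v hv u hu hvu hM
    rcases home2 (mk u) hM ⟨u, hu, rfl⟩ with ⟨w, hw, hi, u', hu', hmu', hwu'⟩ | ⟨_, h⟩
    · rw [hi]
      have : v = w := by
        by_contra hne
        exact hM ⟨u, u', v, w, hu, hu', rfl, hmu', hv, hw, hne, hvu, hwu'⟩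
      subst this
      rfl
    · exact absurd hvu (h v hv u hu rfl)
  have hsurj : Function.Surjective β := by
    rintro (⟨v, hv⟩ | ⟨s, hs⟩ | ⟨c, hc⟩)
    · exact ⟨v, βT v hv⟩
    · exact ⟨s, βS s hs⟩
    · obtain ⟨u, u', v, v', hu, hu', huc, -⟩ := id hc
      refine ⟨u, ?_⟩
      rw [βR u hu]
      have huc' : mk u = c := huc
      rw [huc']
      exact home1 c hc
  have hW : ∀ x y, x ∉ A → (off G A).Reachable x y → (fib G β).Reachable x y := by
    rintro x y hx ⟨p⟩
    induction p with
    | nil => exact Reachable.refl _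
    | @cons a b c hab p ih =>
      refine Reachable.trans (Adj.reachable ⟨hab.1, ?_⟩) (ih hab.2.2)
      rw [βR a hab.2.1, βR b hab.2.2, mk_adj a b hab.2.1 hab.2.2 hab.1]
  have hcen : ∀ i : I, ∃ c : V, ∀ u, β u = i → (fib G β).Reachable u c := by
    rintro (⟨v, hv⟩ | ⟨s, hs⟩ | ⟨c, hc⟩)
    · refine ⟨v, ?_⟩
      intro u hu
      by_cases hT : u ∈ T
      · rw [βT u hT] at hu
        have := Sum.inl.inj hu
        rw [Subtype.mk.injEq] at this
        rw [this]
      · by_cases hS : u ∈ S
        · rw [βS u hS] at hu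
          cases hu
        · have huA : u ∉ A := by rintro (h | h); exacts [hS h, hT h]
          rw [βR u huA] at hu
          by_cases hM : Multi G S T (mk u)
          · rw [home1 _ hM] at hu
            cases hu
          · rcases home2 (mk u) hM ⟨u, huA, rfl⟩ with ⟨w, hw, hi, u', hu', hmu', hwu'⟩ |
              ⟨⟨s, hs, hi, _⟩, _⟩
            · rw [hi] at hu
              have h1 := Sum.inl.inj hu
              rw [Subtype.mk.injEq] at h1
              subst h1
              refine Reachable.trans (hW u u' huA ((mk_eq _ _).1 hmu'.symm)) (Adj.reachable ?_)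
              refine ⟨hwu'.symm, ?_⟩
              rw [βR u' hu', hmu', hi, βT w hv]
            · rw [hi] at hu
              cases hu
    · refine ⟨s, ?_⟩
      intro u hu
      by_cases hT : u ∈ T
      · rw [βT u hT] at hu
        cases hu
      · by_cases hS : u ∈ S
        · rw [βS u hS] at hu
          have := Sum.inl.inj (Sum.inr.inj hu)
          rw [Subtype.mk.injEq] at this
          rw [this]
        · have huA : u ∉ A := by rintro (h | h); exacts [hS h, hT h]
          rw [βR u huA] at hu
          by_cases hM : Multi G S T (mk u)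
          · rw [home1 _ hM] at hu
            cases hu
          · rcases home2 (mk u) hM ⟨u, huA, rfl⟩ with ⟨w, hw, hi, _⟩ |
              ⟨⟨w, hw, hi, u', hu', hmu', hwu'⟩, _⟩
            · rw [hi] at hu
              cases hu
            · rw [hi] at hu
              have h1 := Sum.inl.inj (Sum.inr.inj hu)
              rw [Subtype.mk.injEq] at h1
              subst h1
              refine Reachable.trans (hW u u' huA ((mk_eq _ _).1 hmu'.symm)) (Adj.reachable ?_)
              refine ⟨hwu'.symm, ?_⟩
              rw [βR u' hu', hmu', hi, βS w hs]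
    · obtain ⟨u0, _, _, _, hu0, -, hu0c, -⟩ := id hc
      refine ⟨u0, ?_⟩
      intro u hu
      by_cases hT : u ∈ T
      · rw [βT u hT] at hu
        cases hu
      · by_cases hS : u ∈ S
        · rw [βS u hS] at hu
          cases hu
        · have huA : u ∉ A := by rintro (h | h); exacts [hS h, hT h]
          rw [βR u huA] at hu
          by_cases hM : Multi G S T (mk u)
          · rw [home1 _ hM] at hu
            have h1 := Sum.inr.inj (Sum.inr.inj hu)
            rw [Subtype.mk.injEq] at h1
            apply hW u u0 huA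
            rw [← mk_eq, h1]
            exact hu0c.symm
          · rcases home2 (mk u) hM ⟨u, huA, rfl⟩ with ⟨w, hw, hi, _⟩ | ⟨⟨w, hw, hi, _⟩, _⟩
            · rw [hi] at hu
              cases hu
            · rw [hi] at hu
              cases hu
  have hfib : ∀ u v, β u = β v → (fib G β).Reachable u v := by
    intro u v huv
    obtain ⟨c, hc⟩ := hcen (β v)
    exact (hc u huv).trans (hc v rfl).symm
  have hIfin : Finite I := by
    have : Finite (off G A).ConnectedComponent := Quot.finite _
    infer_instance
  have := Fintype.ofFinite I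
  let side : I → Bool := Sum.isLeft
  let P : Finset (I × I) := Finset.univ.filter (fun p => side p.1 = true ∧ side p.2 = false ∧
    ∃ u v, G.Adj u v ∧ β u = p.1 ∧ β v = p.2)
  have memP : ∀ p, p ∈ P ↔ (side p.1 = true ∧ side p.2 = false ∧
    ∃ u v, G.Adj u v ∧ β u = p.1 ∧ β v = p.2) := by intro p; simp [P]
  -- the neighbours of a branch set
  have hrow : ∀ t : {v // v ∈ T}, k ≤ (P.filter (fun p => p.1 = Sum.inl t)).card := by
    rintro ⟨v, hv⟩
    set X : Set V := {u | β u = Sum.inl ⟨v, hv⟩} with hX
    set Nb : Set V := {u | u ∉ X ∧ ∃ x ∈ X, G.Adj x u} with hNb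
    have hvX : v ∈ X := βT v hv
    -- description of `X`
    have hXcase : ∀ x ∈ X, x = v ∨ (x ∉ A ∧ home (mk x) = Sum.inl ⟨v, hv⟩) := by
      intro x hx
      by_cases hT : x ∈ T
      · left
        have h1 : β x = Sum.inl ⟨v, hv⟩ := hx
        rw [βT x hT] at h1
        have := Sum.inl.inj h1
        rwa [Subtype.mk.injEq] at this
      · by_cases hS : x ∈ S
        · have h1 : β x = Sum.inl ⟨v, hv⟩ := hx
          rw [βS x hS] at h1
          cases h1
        · have hxA : x ∉ A := by rintro (h | h); exacts [hS h, hT h]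
          right
          have h1 : β x = Sum.inl ⟨v, hv⟩ := hx
          rw [βR x hxA] at h1
          exact ⟨hxA, h1⟩
    have hTX : ∀ w ∈ T, ∀ x ∈ X, G.Adj x w → w = v := by
      intro w hw x hx hxw
      rcases hXcase x hx with rfl | ⟨hxA, hxh⟩
      · exact absurd hxw (hTind x hv w hw)
      · have hM : ¬ Multi G S T (mk x) := by
          intro hM
          rw [home1 _ hM] at hxh
          cases hxh
        rw [home_T w hw x hxA hxw.symm hM] at hxh
        have := Sum.inl.inj hxh
        rwa [Subtype.mk.injEq] at this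
    have hNbcase : ∀ u ∈ Nb, u ∈ S ∨ (u ∉ A ∧ Multi G S T (mk u) ∧ G.Adj v u) := by
      rintro u ⟨huX, x, hx, hxu⟩
      by_cases hT : u ∈ T
      · exact absurd (by rw [hTX u hT x hx hxu]; exact hvX) huX
      · by_cases hS : u ∈ S
        · exact Or.inl hS
        · have huA : u ∉ A := by rintro (h | h); exacts [hS h, hT h]
          right
          rcases hXcase x hx with rfl | ⟨hxA, hxh⟩
          · refine ⟨huA, ?_, hxu⟩
            by_contra hM
            apply huX
            change β u = _
            rw [βR u huA]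
            exact home_T x hv u huA hxu hM
          · exfalso
            apply huX
            change β u = _
            rw [βR u huA, ← mk_adj x u hxA huA hxu]
            exact hxh
    have hNbk : k ≤ Nb.ncard := by
      by_contra hcon
      push Not at hcon
      have hc := hkc.2 Nb hcon
      obtain ⟨w, hw, hwv⟩ := hT2 v hv
      have hvNb : v ∉ Nb := fun h => h.1 hvX
      have hwNb : w ∉ Nb := by
        rintro ⟨-, x, hx, hxw⟩
        exact hwv (hTX w hw x hx hxw)
      obtain ⟨p⟩ := off_reachable_of_induce hvNb hwNb hc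
      have key : ∀ a b : V, (off G Nb).Walk a b → a ∈ X → b ∈ X := by
        intro a b q
        induction q with
        | nil => exact id
        | @cons a b c hab q ih =>
          intro ha
          apply ih
          by_contra hb
          exact hab.2.2 ⟨hb, a, ha, hab.1⟩
      have h1 : β w = Sum.inl ⟨v, hv⟩ := key _ _ p hvX
      rw [βT w hw] at h1
      have := Sum.inl.inj h1
      rw [Subtype.mk.injEq] at this
      exact hwv this
    refine hNbk.trans ?_
    rw [Set.ncard_eq_toFinset_card _ (Set.toFinite _)]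
    apply Finset.card_le_card_of_injOn (fun u => ((Sum.inl ⟨v, hv⟩ : I), β u))
    · intro u hu
      have huN : u ∈ Nb := (Set.Finite.mem_toFinset _).1 (Finset.mem_coe.1 hu)
      obtain ⟨huX, x, hx, hxu⟩ := id huN
      rw [Finset.mem_coe, Finset.mem_filter, memP]
      refine ⟨⟨rfl, ?_, x, u, hxu, hx, rfl⟩, rfl⟩
      change side (β u) = false
      rcases hNbcase u huN with hS | ⟨huA, hM, -⟩
      · rw [βS u hS]; rfl
      · rw [βR u huA, home1 _ hM]; rfl
    · intro u hu u' hu' heq
      have huN : u ∈ Nb := (Set.Finite.mem_toFinset _).1 (Finset.mem_coe.1 hu)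
      have huN' : u' ∈ Nb := (Set.Finite.mem_toFinset _).1 (Finset.mem_coe.1 hu')
      have heq' : β u = β u' := congrArg Prod.snd heq
      rcases hNbcase u huN with hS | ⟨huA, hM, hvu⟩
      · rcases hNbcase u' huN' with hS' | ⟨huA', hM', hvu'⟩
        · rw [βS u hS, βS u' hS'] at heq'
          have := Sum.inl.inj (Sum.inr.inj heq')
          rwa [Subtype.mk.injEq] at this
        · rw [βS u hS, βR u' huA', home1 _ hM'] at heq'
          cases heq'
      · rcases hNbcase u' huN' with hS' | ⟨huA', hM', hvu'⟩
        · rw [βS u' hS', βR u huA, home1 _ hM] at heq'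
          cases heq'
        · rw [βR u huA, home1 _ hM, βR u' huA', home1 _ hM'] at heq'
          have h1 := Sum.inr.inj (Sum.inr.inj heq')
          rw [Subtype.mk.injEq, mk_eq] at h1
          exact hF1 v hv u u' huA huA' hvu hvu' h1
  -- counting
  have hcT : Fintype.card {v // v ∈ T} = T.ncard := by
    rw [← Nat.card_eq_fintype_card, Nat.card_coe_set_eq]
  have hcS : Nat.card {v // v ∈ S} = S.ncard := Nat.card_coe_set_eq _
  have hcM : Nat.card {c // Multi G S T c} = {c | Multi G S T c}.ncard := Nat.card_coe_set_eq _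
  have hfinM : Finite {c // Multi G S T c} := by
    have : Finite (off G (S ∪ T)).ConnectedComponent := Quot.finite _
    infer_instance
  have hI : Nat.card I = T.ncard + (S.ncard + {c | Multi G S T c}.ncard) := by
    change Nat.card ({v // v ∈ T} ⊕ ({v // v ∈ S} ⊕ {c // Multi G S T c})) = _
    rw [Nat.card_sum, Nat.card_sum, hcS, hcM, Nat.card_coe_set_eq]
  have hPk : T.ncard * k ≤ P.card := by
    have h1 : ∑ t : {v // v ∈ T}, (P.filter (fun p => p.1 = Sum.inl t)).card ≤ P.card := by
      rw [← Finset.card_biUnion]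
      · apply Finset.card_le_card
        intro p hp
        rw [Finset.mem_biUnion] at hp
        obtain ⟨t, _, ht⟩ := hp
        exact (Finset.mem_filter.1 ht).1
      · intro t _ t' _ hne
        rw [Function.onFun, Finset.disjoint_left]
        intro p hp hp'
        rw [Finset.mem_filter] at hp hp'
        exact hne (Sum.inl.inj (hp.2.symm.trans hp'.2))
    have h2 : ∑ t : {v // v ∈ T}, k ≤ ∑ t : {v // v ∈ T},
        (P.filter (fun p => p.1 = Sum.inl t)).card :=
      Finset.sum_le_sum (fun t _ => hrow t)
    rw [Finset.sum_const, smul_eq_mul, Finset.card_univ, hcT] at h2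
    exact h2.trans h1
  have hY : k ≤ S.ncard + {c | Multi G S T c}.ncard := by
    refine (hrow ⟨t0, ht0⟩).trans ?_
    have h1 : (P.filter (fun p => p.1 = Sum.inl ⟨t0, ht0⟩)).card ≤
        (Finset.univ.filter (fun j : I => side j = false)).card := by
      apply Finset.card_le_card_of_injOn (fun p => p.2)
      · intro p hp
        rw [Finset.mem_coe, Finset.mem_filter, memP] at hp
        simpa using hp.1.2.1
      · intro p hp p' hp' h
        rw [Finset.mem_coe, Finset.mem_filter] at hp hp'
        exact Prod.ext (hp.2.trans hp'.2.symm) h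
    have h2 : (Finset.univ.filter (fun j : I => side j = false)).card ≤
        Nat.card ({v // v ∈ S} ⊕ {c // Multi G S T c}) := by
      have hfin : Finite ({v // v ∈ S} ⊕ {c // Multi G S T c}) := by infer_instance
      have := Fintype.ofFinite ({v // v ∈ S} ⊕ {c // Multi G S T c})
      rw [Nat.card_eq_fintype_card, ← Finset.card_univ]
      have h3 : (Finset.univ.filter (fun j : I => side j = false)) ⊆
          (Finset.univ : Finset ({v // v ∈ S} ⊕ {c // Multi G S T c})).image Sum.inr := by
        intro j hj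
        rw [Finset.mem_filter] at hj
        rcases j with t | y
        · exact absurd hj.2 (by simp [side])
        · exact Finset.mem_image.2 ⟨y, Finset.mem_univ _, rfl⟩
      exact (Finset.card_le_card h3).trans Finset.card_image_le
    rw [Nat.card_sum, hcS, hcM] at h2
    omega
  have hP2 : 2 ≤ P.card := by
    have : 2 ≤ T.ncard * k := by nlinarith
    omega
  have hmain := bipartite_bound hconn hrot tw β hsurj hfib side P (fun p hp => (memP p).1 hp) hP2
  rw [hI] at hmain
  push_cast at hmain
  have hPk' : (T.ncard : ℤ) * k ≤ (P.card : ℤ) := by exact_mod_cast hPk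
  have hTk : (k : ℤ) + 1 ≤ T.ncard := by
    have : k + 1 ≤ T.ncard := by omega
    exact_mod_cast this
  have hc' : (S.ncard : ℤ) + ({c | Multi G S T c}.ncard : ℤ) + 1 ≤ T.ncard := by
    exact_mod_cast hcount
  have hk' : (4 : ℤ) ≤ k := by exact_mod_cast hk
  nlinarith [mul_le_mul_of_nonneg_left hTk (by linarith : (0:ℤ) ≤ (k : ℤ) - 4)]

end Pool.Agent.Helper96.TwoFactor
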